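import Mathlib
import Pool.Agent.W565.MOFS

/-!
# Trigonometric polynomials: comparison of averages, approximation of intervals
-/

set_option autoImplicit false

namespace Pool.Agent.Helper478.Kwise

open Finset Filter
open Pool.Agent.H469R2.NK (e norm_e e_add e_zero conj_e)
open Pool.Agent.W565.MOFS (P2 cos_sum saw_upper saw_lower re_e norm_e_sub_one)

/-- trigonometric polynomial of degree at most `D`, absolute sum of the coefficients at most `A` -/
def TP (D : ℕ) (A : ℝ) (f : ℝ → ℂ) : Prop :=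
  ∃ (ι : Type) (_ : Fintype ι) (a : ι → ℂ) (Z : ι → ℤ), (∀ i, |Z i| ≤ D) ∧
    ∑ i, ‖a i‖ ≤ A ∧ ∀ x, f x = ∑ i, a i * e (Z i * x)

/-- the same with constant term `m`, the other frequencies are nonzero -/
def TPm (D : ℕ) (A : ℝ) (m : ℂ) (f : ℝ → ℂ) : Prop :=
  ∃ (ι : Type) (_ : Fintype ι) (a : ι → ℂ) (Z : ι → ℤ), (∀ i, Z i ≠ 0 ∧ |Z i| ≤ D) ∧
    ∑ i, ‖a i‖ ≤ A ∧ ∀ x, f x = m + ∑ i, a i * e (Z i * x)

lemma TP.nonneg {D : ℕ} {A : ℝ} {f : ℝ → ℂ} (h : TP D A f) : 0 ≤ A := by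
  obtain ⟨ι, _, a, Z, _, h2, _⟩ := h
  exact (sum_nonneg fun i _ => norm_nonneg _).trans h2

lemma TPm.nonneg {D : ℕ} {A : ℝ} {m : ℂ} {f : ℝ → ℂ} (h : TPm D A m f) : 0 ≤ A := by
  obtain ⟨ι, _, a, Z, _, h2, _⟩ := h
  exact (sum_nonneg fun i _ => norm_nonneg _).trans h2

lemma TP.mono {D D' : ℕ} {A A' : ℝ} {f : ℝ → ℂ} (h : TP D A f) (hD : D ≤ D') (hA : A ≤ A') :
    TP D' A' f := by
  obtain ⟨ι, _, a, Z, h1, h2, h3⟩ := h
  exact ⟨ι, inferInstance, a, Z, fun i => (h1 i).trans (by exact_mod_cast hD), h2.trans hA, h3⟩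

lemma TPm.mono {D D' : ℕ} {A A' : ℝ} {m : ℂ} {f : ℝ → ℂ} (h : TPm D A m f) (hD : D ≤ D') (hA : A ≤ A') :
    TPm D' A' m f := by
  obtain ⟨ι, _, a, Z, h1, h2, h3⟩ := h
  exact ⟨ι, inferInstance, a, Z, fun i => ⟨(h1 i).1, (h1 i).2.trans (by exact_mod_cast hD)⟩, h2.trans hA, h3⟩

lemma TP.bound {D : ℕ} {A : ℝ} {f : ℝ → ℂ} (h : TP D A f) (x : ℝ) : ‖f x‖ ≤ A := by
  obtain ⟨ι, _, a, Z, h1, h2, h3⟩ := h
  rw [h3]
  refine (norm_sum_le _ _).trans ?_
  refine le_trans (le_of_eq ?_) h2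
  refine sum_congr rfl fun i _ => ?_
  rw [norm_mul, norm_e, mul_one]

lemma TPm.toTP {D : ℕ} {A : ℝ} {m : ℂ} {f : ℝ → ℂ} (h : TPm D A m f) : TP D (A + ‖m‖) f := by
  obtain ⟨ι, _, a, Z, h1, h2, h3⟩ := h
  refine ⟨Option ι, inferInstance, fun o => o.elim m a, fun o => o.elim 0 Z, ?_, ?_, ?_⟩
  · rintro (_ | i)
    · simp
    · exact (h1 i).2
  · rw [Fintype.sum_option]
    simp only [Option.elim]
    linarith
  · intro x
    rw [Fintype.sum_option]
    simp only [Option.elim]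
    rw [h3, Int.cast_zero, zero_mul, e_zero, mul_one]

lemma TPm.add {D : ℕ} {A B : ℝ} {m n : ℂ} {f g : ℝ → ℂ} (hf : TPm D A m f) (hg : TPm D B n g) :
    TPm D (A + B) (m + n) (fun x => f x + g x) := by
  obtain ⟨ι, _, a, Z, h1, h2, h3⟩ := hf
  obtain ⟨κ, _, b, Y, k1, k2, k3⟩ := hg
  refine ⟨ι ⊕ κ, inferInstance, Sum.elim a b, Sum.elim Z Y, ?_, ?_, ?_⟩
  · rintro (i | i)
    · exact h1 i
    · exact k1 i
  · rw [Fintype.sum_sum_type]
    simp only [Sum.elim_inl, Sum.elim_inr]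
    linarith
  · intro x
    rw [Fintype.sum_sum_type]
    simp only [Sum.elim_inl, Sum.elim_inr]
    rw [h3, k3]; ring

lemma TPm.neg {D : ℕ} {A : ℝ} {m : ℂ} {f : ℝ → ℂ} (hf : TPm D A m f) :
    TPm D A (-m) (fun x => -f x) := by
  obtain ⟨ι, _, a, Z, h1, h2, h3⟩ := hf
  refine ⟨ι, inferInstance, fun i => -a i, Z, h1, ?_, ?_⟩
  · simpa using h2
  · intro x
    beta_reduce
    rw [h3, neg_add, ← sum_neg_distrib]
    congr 1
    refine sum_congr rfl fun i _ => ?_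
    ring

lemma TPm.const (D : ℕ) (m : ℂ) : TPm D 0 m (fun _ => m) :=
  ⟨Empty, inferInstance, fun i => i.elim, fun i => i.elim, fun i => i.elim, by simp, fun x => by simp⟩

lemma TPm.shift {D : ℕ} {A : ℝ} {m : ℂ} {f : ℝ → ℂ} (hf : TPm D A m f) (s : ℝ) :
    TPm D A m (fun x => f (x + s)) := by
  obtain ⟨ι, _, a, Z, h1, h2, h3⟩ := hf
  refine ⟨ι, inferInstance, fun i => a i * e (Z i * s), Z, h1, ?_, ?_⟩
  · simpa [norm_e] using h2
  · intro x
    beta_reduce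
    rw [h3]
    congr 1
    refine sum_congr rfl fun i _ => ?_
    rw [mul_add, e_add]; ring

lemma TPm.dil {D : ℕ} {A : ℝ} {m : ℂ} {f : ℝ → ℂ} (hf : TPm D A m f) (M : ℕ) (hM : 1 ≤ M) :
    TPm (D * M) A m (fun x => f (x * M)) := by
  obtain ⟨ι, _, a, Z, h1, h2, h3⟩ := hf
  refine ⟨ι, inferInstance, a, fun i => Z i * M, ?_, h2, ?_⟩
  · intro i
    refine ⟨mul_ne_zero (h1 i).1 (by exact_mod_cast (by omega : M ≠ 0)), ?_⟩
    rw [abs_mul, Nat.cast_mul, Nat.abs_cast]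
    exact mul_le_mul_of_nonneg_right (h1 i).2 (by positivity)
  · intro x
    beta_reduce
    rw [h3]
    congr 1
    refine sum_congr rfl fun i _ => ?_
    congr 2
    push_cast; ring

lemma TP.dil {D : ℕ} {A : ℝ} {f : ℝ → ℂ} (hf : TP D A f) (M : ℕ) :
    TP (D * M) A (fun x => f (x * M)) := by
  obtain ⟨ι, _, a, Z, h1, h2, h3⟩ := hf
  refine ⟨ι, inferInstance, a, fun i => Z i * M, ?_, h2, ?_⟩
  · intro i
    rw [abs_mul, Nat.cast_mul, Nat.abs_cast]
    exact mul_le_mul_of_nonneg_right (h1 i) (by positivity)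
  · intro x
    beta_reduce
    rw [h3]
    refine sum_congr rfl fun i _ => ?_
    congr 2
    push_cast; ring

lemma TP.mul {D E : ℕ} {A B : ℝ} {f g : ℝ → ℂ} (hf : TP D A f) (hg : TP E B g) :
    TP (D + E) (A * B) (fun x => f x * g x) := by
  have hB := hg.nonneg
  obtain ⟨ι, _, a, Z, h1, h2, h3⟩ := hf
  obtain ⟨κ, _, b, Y, k1, k2, k3⟩ := hg
  refine ⟨ι × κ, inferInstance, fun p => a p.1 * b p.2, fun p => Z p.1 + Y p.2, ?_, ?_, ?_⟩
  · rintro ⟨i, j⟩
    refine (abs_add_le _ _).trans ?_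
    push_cast
    exact add_le_add (h1 i) (k1 j)
  · rw [Fintype.sum_prod_type]
    simp only [norm_mul]
    have : ∑ x, ∑ y, ‖a x‖ * ‖b y‖ = (∑ x, ‖a x‖) * ∑ y, ‖b y‖ := by
      rw [sum_mul_sum]
    rw [this]
    exact mul_le_mul h2 k2 (sum_nonneg fun _ _ => norm_nonneg _)
      ((sum_nonneg fun _ _ => norm_nonneg _).trans h2)
  · intro x
    beta_reduce
    rw [h3, k3, sum_mul_sum, Fintype.sum_prod_type]
    refine sum_congr rfl fun i _ => sum_congr rfl fun j _ => ?_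
    push_cast
    rw [add_mul, e_add]; ring

lemma TP.one : TP 0 1 (fun _ => 1) := by
  refine ⟨Unit, inferInstance, fun _ => 1, fun _ => 0, by simp, by simp, fun x => ?_⟩
  simp [e_zero]

lemma TP.prod {σ : Type} [DecidableEq σ] (I : Finset σ) (D : σ → ℕ) (A : ℝ) (f : σ → ℝ → ℂ)
    (h : ∀ i ∈ I, TP (D i) A (f i)) :
    TP (∑ i ∈ I, D i) (A ^ I.card) (fun x => ∏ i ∈ I, f i x) := by
  classical
  induction I using Finset.induction_on with
  | empty => simpa using TP.one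
  | insert a I ha ih =>
    have h1 := ih fun i hi => h i (mem_insert_of_mem hi)
    have h2 := (h a (mem_insert_self _ _)).mul h1
    simp only [sum_insert ha, card_insert_of_notMem ha, prod_insert ha, pow_succ']
    exact h2

/-- complete sums -/
lemma sum_e_zero (q : ℕ) (Z : ℤ) (hZ : Z ≠ 0) (hq : |Z| < q) :
    ∑ a ∈ range q, e (Z * ((a : ℝ) / q)) = 0 := by
  have hq0 : 0 < q := by
    have : (0 : ℤ) < q := lt_of_le_of_lt (abs_nonneg _) hq
    exact_mod_cast this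
  have hq0' : (q : ℝ) ≠ 0 := by positivity
  have h1 : ∀ a : ℕ, e (Z * ((a : ℝ) / q)) = (e ((Z : ℝ) / q)) ^ a := by
    intro a
    unfold Pool.Agent.H469R2.NK.e
    rw [← Complex.exp_nat_mul]
    congr 1
    push_cast; ring
  simp_rw [h1]
  have h2 : e ((Z : ℝ) / q) ≠ 1 := by
    intro h
    unfold Pool.Agent.H469R2.NK.e at h
    rw [Complex.exp_eq_one_iff] at h
    obtain ⟨n, hn⟩ := h
    have h3 : ((2 * Real.pi * ((Z : ℝ) / q) : ℝ) : ℂ) = ((n * (2 * Real.pi) : ℝ) : ℂ) := by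
      have hI := Complex.I_ne_zero
      apply mul_right_cancel₀ hI
      rw [hn]; push_cast; ring
    have h4 : 2 * Real.pi * ((Z : ℝ) / q) = n * (2 * Real.pi) := by exact_mod_cast h3
    have h5 : (Z : ℝ) = n * q := by
      have hpi : (2 * Real.pi) ≠ 0 := by positivity
      have h6 : (Z : ℝ) / q = n := by
        apply mul_left_cancel₀ hpi
        rw [h4]; ring
      rw [div_eq_iff hq0'] at h6
      exact h6
    have h6 : Z = n * q := by exact_mod_cast h5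
    by_cases hn0 : n = 0
    · apply hZ; rw [h6, hn0, zero_mul]
    · have : (q : ℤ) ≤ |Z| := by
        rw [h6, abs_mul, Nat.abs_cast]
        have : 1 ≤ |n| := Int.one_le_abs hn0
        nlinarith
      omega
  rw [geom_sum_eq h2]
  have h3 : e ((Z : ℝ) / q) ^ q = 1 := by
    rw [← h1, div_self hq0']
    unfold Pool.Agent.H469R2.NK.e
    rw [Complex.exp_eq_one_iff]
    exact ⟨Z, by push_cast; ring⟩
  rw [h3, sub_self, zero_div]

/-- comparison of the averages over `S` and over the rational points -/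
lemma TP.compare {D : ℕ} {A : ℝ} {f : ℝ → ℂ} (h : TP D A f) {σ : Type} (S : Finset σ) (ν : σ → ℝ)
    (W : ℝ) (hW0 : 0 ≤ W) (hW : ∀ Z : ℤ, Z ≠ 0 → |Z| ≤ D → ‖∑ n ∈ S, e (Z * ν n)‖ ≤ W)
    (q : ℕ) (hq : D < q) :
    ‖∑ n ∈ S, f (ν n) - S.card * (1 / q * ∑ a ∈ range q, f ((a : ℝ) / q))‖ ≤ A * W := by
  have hq0 : (q : ℂ) ≠ 0 := by exact_mod_cast (by omega : q ≠ 0)
  obtain ⟨ι, _, a, Z, h1, h2, h3⟩ := h
  have e1 : ∑ n ∈ S, f (ν n) = ∑ i, a i * ∑ n ∈ S, e (Z i * ν n) := by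
    simp_rw [h3, mul_sum]
    rw [sum_comm]
  have e2 : (S.card : ℂ) * (1 / q * ∑ b ∈ range q, f ((b : ℝ) / q)) =
      ∑ i, a i * (if Z i = 0 then (S.card : ℂ) else 0) := by
    simp_rw [h3]
    rw [sum_comm, mul_sum, mul_sum]
    refine sum_congr rfl fun i _ => ?_
    rw [← mul_sum]
    split_ifs with hZ
    · rw [hZ]
      simp only [Int.cast_zero, zero_mul, e_zero, sum_const, card_range, nsmul_eq_mul, mul_one]
      field_simp
    · rw [sum_e_zero q (Z i) hZ (lt_of_le_of_lt (h1 i) (by exact_mod_cast hq))]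
      ring
  rw [e1, e2, ← sum_sub_distrib]
  refine (norm_sum_le _ _).trans ?_
  calc ∑ i, ‖a i * ∑ n ∈ S, e (Z i * ν n) - a i * (if Z i = 0 then (S.card : ℂ) else 0)‖
      ≤ ∑ i, ‖a i‖ * W := by
        refine sum_le_sum fun i _ => ?_
        rw [← mul_sub, norm_mul]
        refine mul_le_mul_of_nonneg_left ?_ (norm_nonneg _)
        split_ifs with hZ
        · rw [hZ]
          simp only [Int.cast_zero, zero_mul, e_zero, sum_const, nsmul_eq_mul, mul_one, sub_self,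
            norm_zero]
          exact hW0
        · rw [sub_zero]
          exact hW _ hZ (h1 i)
    _ = (∑ i, ‖a i‖) * W := by rw [sum_mul]
    _ ≤ A * W := mul_le_mul_of_nonneg_right h2 hW0

lemma TPm.compare {D : ℕ} {A : ℝ} {m : ℂ} {f : ℝ → ℂ} (h : TPm D A m f) {σ : Type} (S : Finset σ)
    (ν : σ → ℝ) (W : ℝ) (hW : ∀ Z : ℤ, Z ≠ 0 → |Z| ≤ D → ‖∑ n ∈ S, e (Z * ν n)‖ ≤ W) :
    0 ≤ W → ‖∑ n ∈ S, f (ν n) - S.card * m‖ ≤ A * W := by
  intro hW0
  obtain ⟨ι, _, a, Z, h1, h2, h3⟩ := h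
  have e1 : ∑ n ∈ S, f (ν n) - S.card * m = ∑ i, a i * ∑ n ∈ S, e (Z i * ν n) := by
    simp_rw [h3, mul_sum]
    rw [sum_add_distrib, sum_const, nsmul_eq_mul, add_sub_cancel_left, sum_comm]
  rw [e1]
  refine (norm_sum_le _ _).trans ?_
  calc ∑ i, ‖a i * ∑ n ∈ S, e (Z i * ν n)‖ ≤ ∑ i, ‖a i‖ * W := by
        refine sum_le_sum fun i _ => ?_
        rw [norm_mul]
        exact mul_le_mul_of_nonneg_left (hW _ (h1 i).1 (h1 i).2) (norm_nonneg _)
    _ = (∑ i, ‖a i‖) * W := by rw [sum_mul]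
    _ ≤ A * W := mul_le_mul_of_nonneg_right h2 hW0

/-! ### Approximation of the sawtooth function -/

/-- the smoothed and truncated sawtooth function -/
noncomputable def gg (K : ℕ) (δ x : ℝ) : ℝ :=
  1 / (2 * δ * Real.pi ^ 2) * ∑ h ∈ range K, 1 / ((h : ℝ) + 1) ^ 2 *
    (Real.cos (2 * Real.pi * (h + 1) * x) - Real.cos (2 * Real.pi * (h + 1) * (x - δ)))

lemma p2_trunc (x : ℝ) (K : ℕ) (hK : 1 ≤ K) :
    |Real.pi ^ 2 * P2 (Int.fract x) - ∑ h ∈ range K, 1 / ((h : ℝ) + 1) ^ 2 *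
      Real.cos (2 * Real.pi * (h + 1) * x)| ≤ (1 / K : ℝ) := by
  have hs := cos_sum x
  let f : ℕ → ℝ := fun n : ℕ => 1 / (n : ℝ) ^ 2 * Real.cos (2 * Real.pi * n * x)
  have h1 : ∑ h ∈ range K, 1 / ((h : ℝ) + 1) ^ 2 * Real.cos (2 * Real.pi * (h + 1) * x) =
      ∑ h ∈ range (K + 1), f h := by
    rw [sum_range_succ']
    simp only [f]
    push_cast
    simp
  rw [h1]
  have hK0 : (0 : ℝ) < K := by exact_mod_cast hK
  have h2 : ∀ᶠ M : ℕ in atTop, |∑ h ∈ range M, f h - ∑ h ∈ range (K + 1), f h| ≤ (1 / K : ℝ) := by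
    filter_upwards [eventually_ge_atTop (K + 1)] with M hM
    rw [← sum_range_add_sum_Ico f hM, add_sub_cancel_left]
    refine (abs_sum_le_sum_abs _ _).trans ?_
    have h3 : ∀ h ∈ Ico (K + 1) M, |f h| ≤ ((h : ℝ) ^ 2)⁻¹ := by
      intro h _
      simp only [f]
      rw [abs_mul, abs_of_nonneg (by positivity : (0 : ℝ) ≤ 1 / (h : ℝ) ^ 2), one_div]
      exact mul_le_of_le_one_right (by positivity) (Real.abs_cos_le_one _)
    refine (sum_le_sum h3).trans ?_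
    have h4 : Ico (K + 1) M = Ioc K (M - 1) := by
      ext a; rw [mem_Ico, mem_Ioc]; omega
    rw [h4]
    have h5 := sum_Ioc_inv_sq_le_sub (α := ℝ) (k := K) (n := M - 1) (by omega) (by omega)
    have h6 : (0 : ℝ) ≤ (((M - 1 : ℕ) : ℝ))⁻¹ := by positivity
    rw [one_div]
    linarith
  exact le_of_tendsto ((hs.tendsto_sum_nat.sub_const _).abs) h2

lemma gg_upper (K : ℕ) (hK : 1 ≤ K) (δ : ℝ) (h0 : 0 < δ) (h1 : δ ≤ 1) (x : ℝ) :
    Int.fract x - 1 / 2 ≤ gg K δ x + δ / 2 + 1 / (K * δ) := by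
  have hK0 : (0 : ℝ) < K := by exact_mod_cast hK
  have hpi : 3 < Real.pi := Real.pi_gt_three
  have h2 := saw_upper x δ h0 h1
  have h3 := p2_trunc x K hK
  have h4 := p2_trunc (x - δ) K hK
  rw [abs_le] at h3 h4
  have h5 : gg K δ x = 1 / (2 * δ * Real.pi ^ 2) * (∑ h ∈ range K, 1 / ((h : ℝ) + 1) ^ 2 *
      Real.cos (2 * Real.pi * (h + 1) * x) - ∑ h ∈ range K, 1 / ((h : ℝ) + 1) ^ 2 *
      Real.cos (2 * Real.pi * (h + 1) * (x - δ))) := by
    unfold gg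
    rw [← sum_sub_distrib]
    congr 1
    refine sum_congr rfl fun h _ => ?_
    ring
  have h6 : (P2 (Int.fract x) - P2 (Int.fract (x - δ))) / (2 * δ) ≤ gg K δ x + 1 / (K * δ) := by
    rw [h5]
    set S1 := ∑ h ∈ range K, 1 / ((h : ℝ) + 1) ^ 2 * Real.cos (2 * Real.pi * (h + 1) * x)
    set S2 := ∑ h ∈ range K, 1 / ((h : ℝ) + 1) ^ 2 * Real.cos (2 * Real.pi * (h + 1) * (x - δ))
    have e1 : (P2 (Int.fract x) - P2 (Int.fract (x - δ))) / (2 * δ) =
        1 / (2 * δ * Real.pi ^ 2) * (Real.pi ^ 2 * P2 (Int.fract x) -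
          Real.pi ^ 2 * P2 (Int.fract (x - δ))) := by field_simp
    rw [e1]
    have e2 : Real.pi ^ 2 * P2 (Int.fract x) - Real.pi ^ 2 * P2 (Int.fract (x - δ)) ≤
        S1 - S2 + 2 / K := by
      have : (2 : ℝ) / K = 1 / K + 1 / K := by ring
      linarith [h3.2, h4.1]
    have e3 : 1 / (2 * δ * Real.pi ^ 2) * (2 / K) ≤ 1 / (K * δ) := by
      have e4 : 1 / (2 * δ * Real.pi ^ 2) * (2 / K) = 1 / Real.pi ^ 2 * (1 / (K * δ)) := by
        field_simp
      rw [e4]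
      refine mul_le_of_le_one_left (by positivity) ?_
      rw [div_le_one (by positivity)]; nlinarith
    calc 1 / (2 * δ * Real.pi ^ 2) * (Real.pi ^ 2 * P2 (Int.fract x) -
          Real.pi ^ 2 * P2 (Int.fract (x - δ))) ≤ 1 / (2 * δ * Real.pi ^ 2) * (S1 - S2 + 2 / K) := by
          gcongr
      _ = 1 / (2 * δ * Real.pi ^ 2) * (S1 - S2) + 1 / (2 * δ * Real.pi ^ 2) * (2 / K) := by ring
      _ ≤ _ := by linarith
  linarith

lemma gg_lower (K : ℕ) (hK : 1 ≤ K) (δ : ℝ) (h0 : 0 < δ) (h1 : δ ≤ 1) (x : ℝ) :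
    gg K δ (x + δ) - δ / 2 - 1 / (K * δ) ≤ Int.fract x - 1 / 2 := by
  have hK0 : (0 : ℝ) < K := by exact_mod_cast hK
  have hpi : 3 < Real.pi := Real.pi_gt_three
  have h2 := saw_lower x δ h0 h1
  have h3 := p2_trunc x K hK
  have h4 := p2_trunc (x + δ) K hK
  rw [abs_le] at h3 h4
  have h5 : gg K δ (x + δ) = 1 / (2 * δ * Real.pi ^ 2) * (∑ h ∈ range K, 1 / ((h : ℝ) + 1) ^ 2 *
      Real.cos (2 * Real.pi * (h + 1) * (x + δ)) - ∑ h ∈ range K, 1 / ((h : ℝ) + 1) ^ 2 *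
      Real.cos (2 * Real.pi * (h + 1) * x)) := by
    unfold gg
    rw [← sum_sub_distrib]
    congr 1
    refine sum_congr rfl fun h _ => ?_
    rw [add_sub_cancel_right]
    ring
  have h6 : gg K δ (x + δ) - 1 / (K * δ) ≤ (P2 (Int.fract (x + δ)) - P2 (Int.fract x)) / (2 * δ) := by
    rw [h5]
    set S1 := ∑ h ∈ range K, 1 / ((h : ℝ) + 1) ^ 2 * Real.cos (2 * Real.pi * (h + 1) * x)
    set S2 := ∑ h ∈ range K, 1 / ((h : ℝ) + 1) ^ 2 * Real.cos (2 * Real.pi * (h + 1) * (x + δ))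
    have e1 : (P2 (Int.fract (x + δ)) - P2 (Int.fract x)) / (2 * δ) =
        1 / (2 * δ * Real.pi ^ 2) * (Real.pi ^ 2 * P2 (Int.fract (x + δ)) -
          Real.pi ^ 2 * P2 (Int.fract x)) := by field_simp
    rw [e1]
    have e2 : S2 - S1 - 2 / K ≤ Real.pi ^ 2 * P2 (Int.fract (x + δ)) - Real.pi ^ 2 * P2 (Int.fract x) := by
      have : (2 : ℝ) / K = 1 / K + 1 / K := by ring
      linarith [h3.2, h4.1]
    have e3 : 1 / (2 * δ * Real.pi ^ 2) * (2 / K) ≤ 1 / (K * δ) := by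
      have e4 : 1 / (2 * δ * Real.pi ^ 2) * (2 / K) = 1 / Real.pi ^ 2 * (1 / (K * δ)) := by
        field_simp
      rw [e4]
      refine mul_le_of_le_one_left (by positivity) ?_
      rw [div_le_one (by positivity)]; nlinarith
    calc 1 / (2 * δ * Real.pi ^ 2) * (S2 - S1) - 1 / (K * δ) ≤
          1 / (2 * δ * Real.pi ^ 2) * (S2 - S1) - 1 / (2 * δ * Real.pi ^ 2) * (2 / K) := by linarith
      _ = 1 / (2 * δ * Real.pi ^ 2) * (S2 - S1 - 2 / K) := by ring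
      _ ≤ _ := by gcongr
  linarith

lemma cos_e (x : ℝ) : (Real.cos (2 * Real.pi * x) : ℂ) = (e x + e (-x)) / 2 := by
  have h1 : e (-x) = (starRingEnd ℂ) (e x) := by rw [conj_e]
  rw [h1, ← re_e, Complex.add_conj]
  push_cast; ring

lemma tpm_gg (K : ℕ) (hK : 1 ≤ K) (δ : ℝ) (h0 : 0 < δ) :
    TPm K (1 + Real.log K) 0 (fun x => (gg K δ x : ℂ)) := by
  have hK0 : (0 : ℝ) < K := by exact_mod_cast hK
  have hpi0 : (Real.pi : ℝ) ≠ 0 := Real.pi_ne_zero
  let c : ℕ → ℝ := fun h => 1 / (2 * δ * Real.pi ^ 2) * (1 / ((h : ℝ) + 1) ^ 2) / 2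
  refine ⟨Fin K × Bool, inferInstance,
    fun p => if p.2 then (c p.1 : ℂ) * (1 - e (-(((p.1 : ℕ) : ℝ) + 1) * δ))
      else (c p.1 : ℂ) * (1 - e ((((p.1 : ℕ) : ℝ) + 1) * δ)),
    fun p => if p.2 then ((p.1 : ℕ) : ℤ) + 1 else -(((p.1 : ℕ) : ℤ) + 1), ?_, ?_, ?_⟩
  · rintro ⟨i, b⟩
    have := i.2
    cases b
    · simp only [Bool.false_eq_true, if_false]
      refine ⟨by omega, ?_⟩
      rw [abs_neg, abs_of_nonneg (by omega)]
      omega
    · simp only [if_true]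
      refine ⟨by omega, ?_⟩
      rw [abs_of_nonneg (by omega)]
      omega
  · rw [Fintype.sum_prod_type]
    have h1 : ∀ i : Fin K, ∑ b : Bool, ‖(if b then (c i : ℂ) * (1 - e (-(((i : ℕ) : ℝ) + 1) * δ))
        else (c i : ℂ) * (1 - e ((((i : ℕ) : ℝ) + 1) * δ)))‖ ≤ 1 / (((i : ℕ) : ℝ) + 1) := by
      intro i
      rw [Fintype.sum_bool]
      simp only [if_true, Bool.false_eq_true, if_false]
      have hc0 : 0 ≤ c i := by simp only [c]; positivity
      have hi : (0 : ℝ) < ((i : ℕ) : ℝ) + 1 := by positivity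
      have h2 : ‖(c i : ℂ) * (1 - e (-(((i : ℕ) : ℝ) + 1) * δ))‖ ≤
          c i * (2 * Real.pi * ((((i : ℕ) : ℝ) + 1) * δ)) := by
        rw [norm_mul, Complex.norm_of_nonneg hc0, norm_sub_rev]
        refine mul_le_mul_of_nonneg_left ((norm_e_sub_one _).trans ?_) hc0
        rw [neg_mul, abs_neg, abs_of_pos (by positivity)]
      have h3 : ‖(c i : ℂ) * (1 - e ((((i : ℕ) : ℝ) + 1) * δ))‖ ≤
          c i * (2 * Real.pi * ((((i : ℕ) : ℝ) + 1) * δ)) := by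
        rw [norm_mul, Complex.norm_of_nonneg hc0, norm_sub_rev]
        refine mul_le_mul_of_nonneg_left ((norm_e_sub_one _).trans ?_) hc0
        rw [abs_of_pos (by positivity)]
      have h4 : c i * (2 * Real.pi * ((((i : ℕ) : ℝ) + 1) * δ)) + c i * (2 * Real.pi *
          ((((i : ℕ) : ℝ) + 1) * δ)) = 1 / Real.pi * (1 / (((i : ℕ) : ℝ) + 1)) := by
        simp only [c]
        field_simp
        ring
      have h5 : 1 / Real.pi * (1 / (((i : ℕ) : ℝ) + 1)) ≤ 1 / (((i : ℕ) : ℝ) + 1) := by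
        refine mul_le_of_le_one_left (by positivity) ?_
        rw [div_le_one Real.pi_pos]
        linarith [Real.pi_gt_three]
      linarith
    refine (sum_le_sum fun i _ => h1 i).trans ?_
    have h2 : ∑ i : Fin K, 1 / (((i : ℕ) : ℝ) + 1) = (harmonic K : ℝ) := by
      rw [Fin.sum_univ_eq_sum_range (fun i : ℕ => 1 / ((i : ℝ) + 1))]
      unfold harmonic
      push_cast
      simp
    rw [h2]
    exact harmonic_le_one_add_log K
  · intro x
    beta_reduce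
    rw [Fintype.sum_prod_type, zero_add]
    unfold gg
    rw [← Fin.sum_univ_eq_sum_range (fun h : ℕ => 1 / ((h : ℝ) + 1) ^ 2 *
      (Real.cos (2 * Real.pi * (h + 1) * x) - Real.cos (2 * Real.pi * (h + 1) * (x - δ))))]
    push_cast
    rw [mul_sum]
    refine sum_congr rfl fun i _ => ?_
    rw [Fintype.sum_bool]
    simp only [if_true, Bool.false_eq_true, if_false, c]
    have h1 : Complex.cos (2 * Real.pi * ((i : ℕ) + 1) * x) =
        (e ((((i : ℕ) : ℝ) + 1) * x) + e (-((((i : ℕ) : ℝ) + 1) * x))) / 2 := by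
      rw [← cos_e]; push_cast; congr 1; ring
    have h2 : Complex.cos (2 * Real.pi * ((i : ℕ) + 1) * (x - δ)) =
        (e ((((i : ℕ) : ℝ) + 1) * (x - δ)) + e (-((((i : ℕ) : ℝ) + 1) * (x - δ)))) / 2 := by
      rw [← cos_e]; push_cast; congr 1; ring
    rw [h1, h2]
    have h3 : e ((((i : ℕ) : ℝ) + 1) * (x - δ)) = e (-(((i : ℕ) : ℝ) + 1) * δ) *
        e ((((i : ℕ) : ℝ) + 1) * x) := by
      rw [← e_add]; congr 1; ring
    have h4 : e (-((((i : ℕ) : ℝ) + 1) * (x - δ))) = e ((((i : ℕ) : ℝ) + 1) * δ) *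
        e (-((((i : ℕ) : ℝ) + 1) * x)) := by
      rw [← e_add]; congr 1; ring
    have h6 : e (-(((i : ℕ) : ℝ) + 1) * x) = e (-((((i : ℕ) : ℝ) + 1) * x)) := by
      congr 1; ring
    rw [h3, h4, h6]
    push_cast
    field_simp
    ring

/-! ### Intervals -/

/-- the indicator function of an interval modulo one -/
noncomputable def ind (α β x : ℝ) : ℝ := if α ≤ Int.fract x ∧ Int.fract x < β then 1 else 0

lemma ind_nonneg (α β x : ℝ) : 0 ≤ ind α β x := by unfold ind; split_ifs <;> norm_num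
lemma ind_le_one (α β x : ℝ) : ind α β x ≤ 1 := by unfold ind; split_ifs <;> norm_num

/-- two sided approximation of the indicator function of an interval -/
theorem approx (K : ℕ) (hK : 1 ≤ K) (δ : ℝ) (h0 : 0 < δ) (h1 : δ ≤ 1) (hc : 1 ≤ K * δ ^ 2)
    (α β : ℝ) (hα : 0 ≤ α) (hαβ : α < β) (hβ : β ≤ 1)
    (hind : ∀ t : ℝ, (if α ≤ Int.fract t ∧ Int.fract t < β then (1 : ℝ) else 0) - (β - α) =
      (Int.fract (t - β) - 1 / 2) - (Int.fract (t - α) - 1 / 2)) :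
    ∃ U L : ℝ → ℝ, (∀ x, L x ≤ ind α β x) ∧ (∀ x, ind α β x ≤ U x) ∧
      TP K (6 + 2 * Real.log K) (fun x => (U x : ℂ)) ∧
      ∃ m : ℝ, 0 ≤ m ∧ m ≤ 6 * δ ∧
        TPm K (4 + 4 * Real.log K) (m : ℂ) (fun x => ((U x - L x : ℝ) : ℂ)) := by
  have hK0 : (0 : ℝ) < K := by exact_mod_cast hK
  obtain ⟨c, hcd⟩ : ∃ c : ℝ, c = 1 / (K * δ) := ⟨_, rfl⟩
  have hc0 : 0 ≤ c := by rw [hcd]; positivity
  have hc1 : c ≤ δ := by
    rw [hcd, div_le_iff₀ (by positivity)]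
    nlinarith
  have hlogK : 0 ≤ Real.log K := Real.log_natCast_nonneg K
  have hg := tpm_gg K hK δ h0
  have key : ∀ s : ℝ, TPm K (1 + Real.log K) 0 (fun x => (gg K δ (x + s) : ℂ)) := fun s =>
    hg.shift s
  refine ⟨fun x => (β - α) + gg K δ (x + -β) + -gg K δ (x + (-α + δ)) + (δ + 2 * c),
    fun x => (β - α) + gg K δ (x + (-β + δ)) + -gg K δ (x + -α) - (δ + 2 * c), ?_, ?_, ?_, ?_⟩
  · intro x
    have e1 := gg_lower K hK δ h0 h1 (x - β)
    have e2 := gg_upper K hK δ h0 h1 (x - α)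
    have e3 := hind x
    unfold ind
    rw [← hcd] at e1 e2
    have e4 : x - β + δ = x + (-β + δ) := by ring
    have e5 : x - α = x + -α := by ring
    rw [e4] at e1
    rw [e5] at e2
    rw [e5] at e3
    simp only
    linarith
  · intro x
    have e1 := gg_upper K hK δ h0 h1 (x - β)
    have e2 := gg_lower K hK δ h0 h1 (x - α)
    have e3 := hind x
    unfold ind
    rw [← hcd] at e1 e2
    have e4 : x - α + δ = x + (-α + δ) := by ring
    have e5 : x - β = x + -β := by ring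
    rw [e4] at e2
    rw [e5] at e1
    rw [e5] at e3
    simp only
    linarith
  · have h2 := ((((TPm.const K (((β - α : ℝ)) : ℂ)).add (key (-β))).add (key (-α + δ)).neg).add
      (TPm.const K ((δ + 2 * c : ℝ) : ℂ))).toTP
    refine TP.mono (f := fun x => (((β - α) + gg K δ (x + -β) + -gg K δ (x + (-α + δ)) +
      (δ + 2 * c) : ℝ) : ℂ)) ?_ le_rfl (A := 0 + (1 + Real.log K) + (1 + Real.log K) + 0 +
        ‖((β - α : ℝ) : ℂ) + 0 + -0 + ((δ + 2 * c : ℝ) : ℂ)‖) ?_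
    · convert h2 using 2 with x
      push_cast
      ring
    · have : ‖((β - α : ℝ) : ℂ) + 0 + -0 + ((δ + 2 * c : ℝ) : ℂ)‖ ≤ 4 := by
        rw [add_zero, neg_zero, add_zero, ← Complex.ofReal_add, Complex.norm_of_nonneg (by linarith)]
        linarith
      linarith
  · refine ⟨2 * (δ + 2 * c), by positivity, by linarith, ?_⟩
    have h2 := ((((key (-β)).add (key (-α + δ)).neg).add (key (-β + δ)).neg).add (key (-α))).add
      (TPm.const K ((2 * (δ + 2 * c) : ℝ) : ℂ))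
    have h3 : (0 : ℂ) + -0 + -0 + 0 + ((2 * (δ + 2 * c) : ℝ) : ℂ) = ((2 * (δ + 2 * c) : ℝ) : ℂ) := by
      ring
    rw [h3] at h2
    refine TPm.mono (A := 1 + Real.log K + (1 + Real.log K) + (1 + Real.log K) + (1 + Real.log K) + 0)
      ?_ le_rfl (by linarith)
    convert h2 using 2 with x
    push_cast
    ring

end Pool.Agent.Helper478.Kwise
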