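import Pool.Agent.Helper478_Kwise.A
import Pool.Agent.R485.Trans.Saw

/-!
# The number of points with prescribed digits at few places
-/

set_option autoImplicit false

namespace Pool.Agent.Helper478.Kwise

open Finset Filter
open Pool.Agent.H469R2.NK (e norm_e e_add e_zero conj_e)

/-- the digit of `y` in base `b` at the place `i` -/
noncomputable def dg (b : ℕ) (y : ℝ) (i : ℕ) : ℤ := ⌊y * (b : ℝ) ^ i⌋ % b

lemma floor_mod (b : ℕ) (hb : 1 ≤ b) (z : ℝ) (w : ℕ) (hw : w < b) :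
    ⌊z * b⌋ % (b : ℤ) = w ↔ (w : ℝ) / b ≤ Int.fract z ∧ Int.fract z < ((w : ℝ) + 1) / b := by
  have hb0 : (0 : ℝ) < b := by exact_mod_cast hb
  have h1 : z * b = Int.fract z * b + ((⌊z⌋ * b : ℤ) : ℝ) := by
    push_cast
    rw [← add_mul, Int.fract_add_floor]
  rw [h1, Int.floor_add_intCast]
  have h2 : (⌊Int.fract z * b⌋ + ⌊z⌋ * b) % (b : ℤ) = ⌊Int.fract z * b⌋ := by
    rw [Int.add_mul_emod_self_right]
    apply Int.emod_eq_of_lt
    · apply Int.floor_nonneg.2
      exact mul_nonneg (Int.fract_nonneg _) hb0.le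
    · rw [Int.floor_lt]
      push_cast
      calc Int.fract z * b < 1 * b := by
            apply mul_lt_mul_of_pos_right (Int.fract_lt_one z) hb0
        _ = b := one_mul _
  rw [h2, Int.floor_eq_iff, div_le_iff₀ hb0, lt_div_iff₀ hb0]
  push_cast
  rfl

lemma dg_iff (b : ℕ) (hb : 1 ≤ b) (y : ℝ) (i : ℕ) (hi : 1 ≤ i) (w : ℕ) (hw : w < b) :
    dg b y i = w ↔ (w : ℝ) / b ≤ Int.fract (y * ((b ^ (i - 1) : ℕ) : ℝ)) ∧
      Int.fract (y * ((b ^ (i - 1) : ℕ) : ℝ)) < ((w : ℝ) + 1) / b := by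
  unfold dg
  rw [← floor_mod b hb _ w hw]
  have : y * (b : ℝ) ^ i = y * ((b ^ (i - 1) : ℕ) : ℝ) * b := by
    push_cast
    rw [mul_assoc, ← pow_succ, Nat.sub_add_cancel hi]
  rw [this]

lemma dg_rat (b T a i : ℕ) (hb : 1 ≤ b) (hi : i ≤ T) :
    dg b ((a : ℝ) / ((b ^ T : ℕ) : ℝ)) i = ((a / b ^ (T - i) % b : ℕ) : ℤ) := by
  unfold dg
  have hb0 : (b : ℝ) ≠ 0 := by exact_mod_cast (by omega : b ≠ 0)
  have h1 : (a : ℝ) / ((b ^ T : ℕ) : ℝ) * (b : ℝ) ^ i = (a : ℝ) / ((b ^ (T - i) : ℕ) : ℝ) := by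
    push_cast
    rw [div_mul_eq_mul_div, div_eq_div_iff (by positivity) (by positivity), mul_assoc, ← pow_add]
    congr 2; omega
  rw [h1]
  have h2 : ⌊(a : ℝ) / ((b ^ (T - i) : ℕ) : ℝ)⌋ = ((a / b ^ (T - i) : ℕ) : ℤ) := by
    rw [← Nat.floor_div_eq_div (K := ℝ), Int.natCast_floor_eq_floor (by positivity)]
  rw [h2]
  push_cast
  rfl

/-- the number of integers with prescribed digits at some places -/
lemma count_digits (b T : ℕ) (hb : 1 ≤ b) (I : Finset ℕ) (hI : I ⊆ Icc 1 T) (w : ℕ → ℕ)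
    (hw : ∀ i ∈ I, w i < b) :
    ((range (b ^ T)).filter fun a => ∀ i ∈ I, a / b ^ (T - i) % b = w i).card * b ^ I.card = b ^ T := by
  classical
  -- the places counted from the right
  let J : Finset (Fin T) := univ.filter fun j : Fin T => T - (j : ℕ) ∈ I
  have hJ : J.card = I.card := by
    refine card_bij (fun j _ => T - (j : ℕ)) (fun j hj => (mem_filter.1 hj).2) ?_ ?_
    · intro j1 _ j2 _ h
      have := j1.2
      have := j2.2
      ext; omega
    · intro i hi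
      have h1 := mem_Icc.1 (hI hi)
      refine ⟨⟨T - i, by omega⟩, ?_, ?_⟩
      · simp only [J, mem_filter, mem_univ, true_and]
        rw [show T - (T - i) = i by omega]
        exact hi
      · simp only
        omega
  let F : Finset (Fin T → Fin b) := Fintype.piFinset fun j : Fin T =>
    if T - (j : ℕ) ∈ I then univ.filter (fun d : Fin b => (d : ℕ) = w (T - j)) else univ
  have hF : F.card * b ^ I.card = b ^ T := by
    simp only [F]
    rw [Fintype.card_piFinset]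
    have h1 : ∀ j : Fin T, (if T - (j : ℕ) ∈ I then univ.filter (fun d : Fin b => (d : ℕ) = w (T - j))
        else univ).card = if T - (j : ℕ) ∈ I then 1 else b := by
      intro j
      split_ifs with h
      · have h2 := hw _ h
        have : (univ.filter (fun d : Fin b => (d : ℕ) = w (T - j))) = {⟨w (T - j), h2⟩} := by
          ext d
          simp only [mem_filter, mem_univ, true_and, mem_singleton]
          constructor
          · intro h; ext; exact h
          · intro h; rw [h]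
        rw [this, card_singleton]
      · simp
    rw [prod_congr rfl fun j _ => h1 j, prod_ite, prod_const_one, one_mul, prod_const]
    have h2 : (univ.filter fun j : Fin T => ¬ (T - (j : ℕ) ∈ I)).card + I.card = T := by
      have := card_filter_add_card_filter_not (s := (univ : Finset (Fin T)))
        (fun j : Fin T => T - (j : ℕ) ∈ I)
      rw [card_univ, Fintype.card_fin] at this
      simp only [J] at hJ
      omega
    rw [← pow_add, h2]
  refine Eq.trans ?_ hF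
  congr 1
  symm
  refine card_bij (fun f _ => ((finFunctionFinEquiv f : Fin (b ^ T)) : ℕ)) ?_ ?_ ?_
  · intro f hf
    rw [mem_filter, mem_range]
    refine ⟨(finFunctionFinEquiv f).2, fun i hi => ?_⟩
    have h1 := mem_Icc.1 (hI hi)
    have h2 : ((finFunctionFinEquiv.symm (finFunctionFinEquiv f) ⟨T - i, by omega⟩ : Fin b) : ℕ) =
      ((finFunctionFinEquiv f : Fin (b ^ T)) : ℕ) / b ^ (T - i) % b := rfl
    rw [← h2, Equiv.symm_apply_apply]
    simp only [F, Fintype.mem_piFinset] at hf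
    have h3 := hf ⟨T - i, by omega⟩
    simp only at h3
    rw [show T - (T - i) = i by omega, if_pos hi, mem_filter] at h3
    exact h3.2
  · intro f _ g _ h
    exact finFunctionFinEquiv.injective (Fin.ext h)
  · intro a ha
    rw [mem_filter, mem_range] at ha
    refine ⟨finFunctionFinEquiv.symm ⟨a, ha.1⟩, ?_, ?_⟩
    · simp only [F, Fintype.mem_piFinset]
      intro j
      split_ifs with h
      · rw [mem_filter]
        refine ⟨mem_univ _, ?_⟩
        have h2 : ((finFunctionFinEquiv.symm (⟨a, ha.1⟩ : Fin (b ^ T)) j : Fin b) : ℕ) =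
          a / b ^ (j : ℕ) % b := rfl
        rw [h2, ← ha.2 _ h]
        have := j.2
        rw [show T - (T - (j : ℕ)) = j by omega]
      · exact mem_univ _
    · rw [Equiv.apply_symm_apply]

lemma tele {σ : Type} [DecidableEq σ] (I : Finset σ) (u l x : σ → ℝ) (A : ℝ) (hA : 1 ≤ A)
    (hx0 : ∀ i ∈ I, 0 ≤ x i) (hx1 : ∀ i ∈ I, x i ≤ 1) (hl : ∀ i ∈ I, l i ≤ x i)
    (hu : ∀ i ∈ I, x i ≤ u i) (huA : ∀ i ∈ I, u i ≤ A) :
    0 ≤ ∏ i ∈ I, u i - ∏ i ∈ I, x i ∧
      ∏ i ∈ I, u i - ∏ i ∈ I, x i ≤ A ^ I.card * ∑ i ∈ I, (u i - l i) := by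
  induction I using Finset.induction_on with
  | empty => simp
  | insert a I ha ih =>
    have h1 := ih (fun i hi => hx0 i (mem_insert_of_mem hi)) (fun i hi => hx1 i (mem_insert_of_mem hi))
      (fun i hi => hl i (mem_insert_of_mem hi)) (fun i hi => hu i (mem_insert_of_mem hi))
      (fun i hi => huA i (mem_insert_of_mem hi))
    have a0 := hx0 a (mem_insert_self _ _)
    have a1 := hx1 a (mem_insert_self _ _)
    have a2 := hl a (mem_insert_self _ _)
    have a3 := hu a (mem_insert_self _ _)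
    have a4 := huA a (mem_insert_self _ _)
    rw [prod_insert ha, prod_insert ha, sum_insert ha, card_insert_of_notMem ha]
    have p0 : 0 ≤ ∏ i ∈ I, u i := prod_nonneg fun i hi =>
      (hx0 i (mem_insert_of_mem hi)).trans (hu i (mem_insert_of_mem hi))
    have p1 : ∏ i ∈ I, u i ≤ A ^ I.card := by
      refine (prod_le_prod (fun i hi => (hx0 i (mem_insert_of_mem hi)).trans
        (hu i (mem_insert_of_mem hi))) (fun i hi => huA i (mem_insert_of_mem hi))).trans ?_
      rw [prod_const]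
    have p2 : 0 ≤ ∏ i ∈ I, x i := prod_nonneg fun i hi => hx0 i (mem_insert_of_mem hi)
    have e1 : u a * ∏ i ∈ I, u i - x a * ∏ i ∈ I, x i =
        (u a - x a) * ∏ i ∈ I, u i + x a * (∏ i ∈ I, u i - ∏ i ∈ I, x i) := by ring
    rw [e1]
    have hAp : 0 ≤ A ^ I.card := by positivity
    have hs : 0 ≤ ∑ i ∈ I, (u i - l i) := sum_nonneg fun i hi => by
      have := hl i (mem_insert_of_mem hi)
      have := hu i (mem_insert_of_mem hi)
      linarith
    constructor
    · have := mul_nonneg (by linarith : 0 ≤ u a - x a) p0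
      have := mul_nonneg a0 h1.1
      linarith
    · have q1 : (u a - x a) * ∏ i ∈ I, u i ≤ (u a - l a) * A ^ I.card := by
        apply mul_le_mul (by linarith) p1 p0 (by linarith)
      have q2 : x a * (∏ i ∈ I, u i - ∏ i ∈ I, x i) ≤ A ^ I.card * ∑ i ∈ I, (u i - l i) := by
        calc x a * (∏ i ∈ I, u i - ∏ i ∈ I, x i) ≤ 1 * (∏ i ∈ I, u i - ∏ i ∈ I, x i) :=
              mul_le_mul_of_nonneg_right a1 h1.1
          _ ≤ _ := by rw [one_mul]; exact h1.2
      have q3 : (u a - l a) * A ^ I.card + A ^ I.card * ∑ i ∈ I, (u i - l i) ≤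
          A ^ (I.card + 1) * (u a - l a + ∑ i ∈ I, (u i - l i)) := by
        rw [pow_succ]
        have : A ^ I.card * (u a - l a + ∑ i ∈ I, (u i - l i)) ≤
            A ^ I.card * A * (u a - l a + ∑ i ∈ I, (u i - l i)) := by
          apply mul_le_mul_of_nonneg_right _ (by linarith)
          exact le_mul_of_one_le_right hAp hA
        linarith
      linarith

lemma geom_deg (b T : ℕ) (hb : 2 ≤ b) (I : Finset ℕ) (hI : I ⊆ Icc 1 T) :
    ∑ i ∈ I, b ^ (i - 1) ≤ b ^ T := by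
  have h1 : ∑ i ∈ I, b ^ (i - 1) ≤ ∑ i ∈ Icc 1 T, b ^ (i - 1) :=
    sum_le_sum_of_subset hI
  refine h1.trans ?_
  have h2 : ∀ T : ℕ, ∑ i ∈ Icc 1 T, b ^ (i - 1) ≤ b ^ T := by
    intro T
    induction T with
    | zero => simp
    | succ n ih =>
      rw [sum_Icc_succ_top (by omega)]
      have h3 : n + 1 - 1 = n := by omega
      rw [h3, pow_succ]
      have h4 : b ^ n * 2 ≤ b ^ n * b := Nat.mul_le_mul_left _ hb
      omega
  exact h2 T

/-- the number of points with prescribed digits at few places -/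
theorem pattern (b T K : ℕ) (hb : 2 ≤ b) (hK : 1 ≤ K) (δ : ℝ) (h0 : 0 < δ) (h1 : δ ≤ 1)
    (hc : 1 ≤ K * δ ^ 2) {σ : Type} (S : Finset σ) (ν : σ → ℝ) (W : ℝ) (hW0 : 0 ≤ W)
    (hW : ∀ Z : ℤ, Z ≠ 0 → |Z| ≤ ((K * b ^ T : ℕ) : ℤ) → ‖∑ n ∈ S, e (Z * ν n)‖ ≤ W)
    (I : Finset ℕ) (hI : I ⊆ Icc 1 T) (w : ℕ → ℕ) (hw : ∀ i ∈ I, w i < b) :
    |((S.filter fun n => ∀ i ∈ I, dg b (ν n) i = w i).card : ℝ) - S.card / (b : ℝ) ^ I.card| ≤
      6 * I.card * (6 + 2 * Real.log K) ^ I.card * S.card * δ +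
        (2 * I.card + 1) * (6 + 2 * Real.log K) ^ (I.card + 1) * W := by
  classical
  have hb0 : (0 : ℝ) < b := by exact_mod_cast (by omega : 0 < b)
  have hK0 : (0 : ℝ) < K := by exact_mod_cast hK
  have hlogK : 0 ≤ Real.log K := Real.log_natCast_nonneg K
  obtain ⟨A, hA⟩ : ∃ A : ℝ, A = 6 + 2 * Real.log K := ⟨_, rfl⟩
  rw [← hA]
  have hA1 : 1 ≤ A := by rw [hA]; linarith
  -- the approximations
  have happ : ∀ i : ℕ, ∃ U L : ℝ → ℝ, i ∈ I → (∀ x, L x ≤ ind ((w i : ℝ) / b) (((w i : ℝ) + 1) / b) x) ∧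
      (∀ x, ind ((w i : ℝ) / b) (((w i : ℝ) + 1) / b) x ≤ U x) ∧
      TP K A (fun x => (U x : ℂ)) ∧ ∃ m : ℝ, 0 ≤ m ∧ m ≤ 6 * δ ∧
        TPm K (2 * A) (m : ℂ) (fun x => ((U x - L x : ℝ) : ℂ)) := by
    intro i
    by_cases hi : i ∈ I
    · have hwi := hw i hi
      have hwi' : (w i : ℝ) + 1 ≤ b := by exact_mod_cast hwi
      have k1 : (0 : ℝ) ≤ (w i : ℝ) / b := by positivity
      have k2 : (w i : ℝ) / b < ((w i : ℝ) + 1) / b := by
        apply div_lt_div_of_pos_right _ hb0; linarith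
      have k3 : ((w i : ℝ) + 1) / b ≤ 1 := by rw [div_le_one hb0]; exact hwi'
      obtain ⟨U, L, j1, j2, j3, m, j4, j5, j6⟩ := approx K hK δ h0 h1 hc _ _ k1 k2 k3
        (fun t => Pool.Agent.R485.Trans.indicator_eq t _ _ k1 k2 k3)
      refine ⟨U, L, fun _ => ⟨j1, j2, ?_, m, j4, j5, ?_⟩⟩
      · rw [hA]; exact j3
      · exact j6.mono le_rfl (by rw [hA]; linarith)
    · exact ⟨fun _ => 0, fun _ => 0, fun h => absurd h hi⟩
  choose U L hUL using happ
  -- the indicator functions of the digits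
  let x : ℕ → ℝ → ℝ := fun i y => ind ((w i : ℝ) / b) (((w i : ℝ) + 1) / b) (y * ((b ^ (i - 1) : ℕ) : ℝ))
  have hx : ∀ i ∈ I, ∀ y : ℝ, x i y = if dg b y i = w i then 1 else 0 := by
    intro i hi y
    simp only [x]
    unfold ind
    rw [if_congr (dg_iff b (by omega) y i (mem_Icc.1 (hI hi)).1 (w i) (hw i hi)).symm rfl rfl]
  let G : ℝ → ℝ := fun y => ∏ i ∈ I, x i y
  have hG : ∀ y : ℝ, G y = if ∀ i ∈ I, dg b y i = w i then 1 else 0 := by
    intro y
    simp only [G]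
    split_ifs with h
    · exact prod_eq_one fun i hi => by rw [hx i hi, if_pos (h i hi)]
    · push Not at h
      obtain ⟨i, hi, hne⟩ := h
      exact prod_eq_zero hi (by rw [hx i hi, if_neg hne])
  let P : ℝ → ℝ := fun y => ∏ i ∈ I, U i (y * ((b ^ (i - 1) : ℕ) : ℝ))
  have hUA : ∀ i ∈ I, ∀ y, U i y ≤ A := by
    intro i hi y
    have h2 := ((hUL i hi).2.2.1).bound y
    rw [Complex.norm_real, Real.norm_eq_abs] at h2
    exact (le_abs_self _).trans h2
  have htele : ∀ y : ℝ, 0 ≤ P y - G y ∧ P y - G y ≤ A ^ I.card * ∑ i ∈ I,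
      (U i (y * ((b ^ (i - 1) : ℕ) : ℝ)) - L i (y * ((b ^ (i - 1) : ℕ) : ℝ))) := by
    intro y
    exact tele I _ _ _ A hA1 (fun i _ => ind_nonneg _ _ _) (fun i _ => ind_le_one _ _ _)
      (fun i hi => (hUL i hi).1 _) (fun i hi => (hUL i hi).2.1 _) (fun i hi => hUA i hi _)
  -- degrees
  have hdeg : ∑ i ∈ I, K * b ^ (i - 1) ≤ K * b ^ T := by
    rw [← mul_sum]
    exact Nat.mul_le_mul_left _ (geom_deg b T hb I hI)
  have hTP : TP (K * b ^ T) (A ^ I.card) (fun y => ((P y : ℝ) : ℂ)) := by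
    have h2 := TP.prod I (fun i => K * b ^ (i - 1)) A
      (fun i y => ((U i (y * ((b ^ (i - 1) : ℕ) : ℝ)) : ℝ) : ℂ))
      (fun i hi => ((hUL i hi).2.2.1).dil (b ^ (i - 1)))
    refine TP.mono ?_ hdeg le_rfl
    convert h2 using 2 with y
    simp only [P]
    push_cast
    rfl
  have hbi : ∀ i ∈ I, K * b ^ (i - 1) ≤ K * b ^ T := by
    intro i hi
    refine Nat.mul_le_mul_left _ (Nat.pow_le_pow_right (by omega) ?_)
    have := mem_Icc.1 (hI hi)
    omega
  -- the modulus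
  obtain ⟨q, hq⟩ : ∃ q : ℕ, q = b ^ (T + K) := ⟨_, rfl⟩
  have hq1 : K * b ^ T < q := by
    rw [hq, pow_add, mul_comm]
    apply Nat.mul_lt_mul_of_pos_left
    · exact Nat.lt_pow_self (by omega)
    · positivity
  have hq0 : (0 : ℝ) < q := by exact_mod_cast (by omega : 0 < q)
  -- averages of a real function
  let EQ : (ℝ → ℝ) → ℝ := fun f => 1 / (q : ℝ) * ∑ a ∈ range q, f ((a : ℝ) / q)
  have hcmp : |∑ n ∈ S, P (ν n) - S.card * EQ P| ≤ A ^ I.card * W := by
    have h2 := hTP.compare S ν W hW0 hW q hq1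
    have h3 : ∑ n ∈ S, ((P (ν n) : ℝ) : ℂ) - S.card * (1 / q * ∑ a ∈ range q, ((P ((a : ℝ) / q) : ℝ) : ℂ)) =
        ((∑ n ∈ S, P (ν n) - S.card * EQ P : ℝ) : ℂ) := by
      simp only [EQ]
      push_cast
      rfl
    rw [h3, Complex.norm_real, Real.norm_eq_abs] at h2
    exact h2
  -- the model count
  have hEG : EQ G = 1 / (b : ℝ) ^ I.card := by
    have h2 := count_digits b (T + K) (by omega) I (hI.trans (Icc_subset_Icc_right (by omega))) w hw
    have h3 : ∑ a ∈ range q, G ((a : ℝ) / q) =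
        (((range (b ^ (T + K))).filter fun a => ∀ i ∈ I, a / b ^ (T + K - i) % b = w i).card : ℝ) := by
      rw [card_filter]
      push_cast
      rw [hq]
      refine sum_congr rfl fun a _ => ?_
      rw [hG]
      refine if_congr ?_ rfl rfl
      refine forall₂_congr fun i hi => ?_
      have := mem_Icc.1 (hI hi)
      rw [dg_rat b (T + K) a i (by omega) (by omega)]
      exact Nat.cast_inj
    simp only [EQ]
    rw [h3]
    have h4 : ((((range (b ^ (T + K))).filter fun a => ∀ i ∈ I, a / b ^ (T + K - i) % b = w i).card : ℕ) : ℝ)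
        * (b : ℝ) ^ I.card = q := by
      rw [hq]; exact_mod_cast h2
    rw [eq_div_iff (by positivity), mul_assoc, h4]
    field_simp
  -- the model average of the difference
  have hdiffQ : EQ P - EQ G ≤ A ^ I.card * (I.card * (6 * δ)) := by
    have h2 : EQ P - EQ G = 1 / (q : ℝ) * ∑ a ∈ range q, (P ((a : ℝ) / q) - G ((a : ℝ) / q)) := by
      simp only [EQ]
      rw [sum_sub_distrib]; ring
    rw [h2]
    have h3 : ∑ a ∈ range q, (P ((a : ℝ) / q) - G ((a : ℝ) / q)) ≤ A ^ I.card * ∑ i ∈ I,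
        ∑ a ∈ range q, (U i ((a : ℝ) / q * ((b ^ (i - 1) : ℕ) : ℝ)) -
          L i ((a : ℝ) / q * ((b ^ (i - 1) : ℕ) : ℝ))) := by
      rw [sum_comm, mul_sum]
      exact sum_le_sum fun a _ => (htele _).2
    have h4 : ∀ i ∈ I, ∑ a ∈ range q, (U i ((a : ℝ) / q * ((b ^ (i - 1) : ℕ) : ℝ)) -
          L i ((a : ℝ) / q * ((b ^ (i - 1) : ℕ) : ℝ))) ≤ q * (6 * δ) := by
      intro i hi
      obtain ⟨m, m0, m1, m2⟩ := (hUL i hi).2.2.2
      have h5 := (m2.dil (b ^ (i - 1)) (Nat.one_le_pow _ _ (by omega))).compare (range q)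
        (fun a : ℕ => (a : ℝ) / q) 0 (fun Z hZ hZ2 => by
          rw [sum_e_zero q Z hZ (lt_of_le_of_lt hZ2 (by
            exact_mod_cast lt_of_le_of_lt (hbi i hi) hq1))]
          simp) le_rfl
      rw [mul_zero] at h5
      have h6 := norm_le_zero_iff.1 h5
      rw [sub_eq_zero] at h6
      have h7 : ((∑ a ∈ range q, (U i ((a : ℝ) / q * ((b ^ (i - 1) : ℕ) : ℝ)) -
          L i ((a : ℝ) / q * ((b ^ (i - 1) : ℕ) : ℝ))) : ℝ) : ℂ) = ((q * m : ℝ) : ℂ) := by
        push_cast at h6 ⊢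
        rw [h6, card_range]
      have h8 : ∑ a ∈ range q, (U i ((a : ℝ) / q * ((b ^ (i - 1) : ℕ) : ℝ)) -
          L i ((a : ℝ) / q * ((b ^ (i - 1) : ℕ) : ℝ))) = q * m := by exact_mod_cast h7
      rw [h8]
      gcongr
    have h5 := sum_le_sum h4
    rw [sum_const, nsmul_eq_mul] at h5
    calc 1 / (q : ℝ) * ∑ a ∈ range q, (P ((a : ℝ) / q) - G ((a : ℝ) / q)) ≤
          1 / (q : ℝ) * (A ^ I.card * (I.card * (q * (6 * δ)))) := by
          apply mul_le_mul_of_nonneg_left _ (by positivity)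
          refine h3.trans ?_
          apply mul_le_mul_of_nonneg_left h5 (by positivity)
      _ = _ := by field_simp
  have hdiffQ0 : 0 ≤ EQ P - EQ G := by
    have h2 : EQ P - EQ G = 1 / (q : ℝ) * ∑ a ∈ range q, (P ((a : ℝ) / q) - G ((a : ℝ) / q)) := by
      simp only [EQ]
      rw [sum_sub_distrib]; ring
    rw [h2]
    exact mul_nonneg (by positivity) (sum_nonneg fun a _ => (htele _).1)
  -- the difference over `S`
  have hdiffS : ∑ n ∈ S, P (ν n) - ∑ n ∈ S, G (ν n) ≤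
      A ^ I.card * (I.card * (S.card * (6 * δ) + 2 * A * W)) := by
    rw [← sum_sub_distrib]
    have h3 : ∑ n ∈ S, (P (ν n) - G (ν n)) ≤ A ^ I.card * ∑ i ∈ I,
        ∑ n ∈ S, (U i (ν n * ((b ^ (i - 1) : ℕ) : ℝ)) - L i (ν n * ((b ^ (i - 1) : ℕ) : ℝ))) := by
      rw [sum_comm, mul_sum]
      exact sum_le_sum fun a _ => (htele _).2
    have h4 : ∀ i ∈ I, ∑ n ∈ S, (U i (ν n * ((b ^ (i - 1) : ℕ) : ℝ)) -
        L i (ν n * ((b ^ (i - 1) : ℕ) : ℝ))) ≤ S.card * (6 * δ) + 2 * A * W := by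
      intro i hi
      obtain ⟨m, m0, m1, m2⟩ := (hUL i hi).2.2.2
      have h5 := (m2.dil (b ^ (i - 1)) (Nat.one_le_pow _ _ (by omega))).compare S
        ν W (fun Z hZ hZ2 => hW Z hZ (hZ2.trans (by exact_mod_cast hbi i hi))) hW0
      have h7 : ∑ n ∈ S, ((U i (ν n * ((b ^ (i - 1) : ℕ) : ℝ)) - L i (ν n * ((b ^ (i - 1) : ℕ) : ℝ)) : ℝ) : ℂ)
          - S.card * (m : ℂ) = ((∑ n ∈ S, (U i (ν n * ((b ^ (i - 1) : ℕ) : ℝ)) -
          L i (ν n * ((b ^ (i - 1) : ℕ) : ℝ))) - S.card * m : ℝ) : ℂ) := by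
        push_cast; rfl
      rw [h7, Complex.norm_real, Real.norm_eq_abs] at h5
      have h8 := (abs_le.1 h5).2
      have h9 : (S.card : ℝ) * m ≤ S.card * (6 * δ) := by gcongr
      linarith
    have h5 := sum_le_sum h4
    rw [sum_const, nsmul_eq_mul] at h5
    refine h3.trans ?_
    apply mul_le_mul_of_nonneg_left h5 (by positivity)
  have hdiffS0 : 0 ≤ ∑ n ∈ S, P (ν n) - ∑ n ∈ S, G (ν n) := by
    rw [← sum_sub_distrib]
    exact sum_nonneg fun a _ => (htele _).1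
  have hcount : ((S.filter fun n => ∀ i ∈ I, dg b (ν n) i = w i).card : ℝ) = ∑ n ∈ S, G (ν n) := by
    rw [card_filter]
    push_cast
    exact sum_congr rfl fun n _ => (hG _).symm
  rw [hcount]
  have hE : (S.card : ℝ) / (b : ℝ) ^ I.card = S.card * EQ G := by rw [hEG]; ring
  rw [hE]
  rw [abs_le] at hcmp ⊢
  have hAp : 0 ≤ A ^ I.card := by positivity
  have hS0 : (0 : ℝ) ≤ S.card := Nat.cast_nonneg _
  have r1 : (S.card : ℝ) * (EQ P - EQ G) ≤ S.card * (A ^ I.card * (I.card * (6 * δ))) := by gcongr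
  have r2 : 0 ≤ (S.card : ℝ) * (EQ P - EQ G) := mul_nonneg hS0 hdiffQ0
  have r3 : A ^ I.card * W ≤ A ^ (I.card + 1) * W := by
    apply mul_le_mul_of_nonneg_right _ hW0
    exact pow_le_pow_right₀ hA1 (by omega)
  have r4 : 6 * I.card * A ^ I.card * S.card * δ + (2 * I.card + 1) * A ^ (I.card + 1) * W =
      A ^ I.card * (I.card * (S.card * (6 * δ) + 2 * A * W)) + A ^ (I.card + 1) * W := by
    rw [pow_succ]; ring
  have r5 : (S.card : ℝ) * (A ^ I.card * (I.card * (6 * δ))) ≤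
      A ^ I.card * (I.card * (S.card * (6 * δ) + 2 * A * W)) := by
    have : 0 ≤ A ^ I.card * (I.card * (2 * A * W)) := by positivity
    nlinarith
  rw [r4]
  constructor <;> linarith

end Pool.Agent.Helper478.Kwise
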