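import Mathlib

/-!
# Moments of sums over almost `k`-wise independent families
-/

set_option autoImplicit false

namespace Pool.Agent.Helper478.Kwise

open Finset Filter

/-- the number of functions which agree with a given one on `I` -/
lemma card_agree (n b : ℕ) (I : Finset (Fin n)) (v : Fin n → Fin b) :
    (univ.filter fun w : Fin n → Fin b => ∀ i ∈ I, v i = w i).card * b ^ I.card = b ^ n := by
  classical
  have h1 : (univ.filter fun w : Fin n → Fin b => ∀ i ∈ I, v i = w i) =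
      Fintype.piFinset fun j : Fin n => if j ∈ I then {v j} else univ := by
    ext w
    simp only [mem_filter, mem_univ, true_and, Fintype.mem_piFinset]
    constructor
    · intro h j
      split_ifs with hj
      · rw [mem_singleton]; exact (h j hj).symm
      · exact mem_univ _
    · intro h i hi
      have := h i
      rw [if_pos hi, mem_singleton] at this
      exact this.symm
  rw [h1, Fintype.card_piFinset]
  have h2 : ∀ j : Fin n, (if j ∈ I then ({v j} : Finset (Fin b)) else univ).card =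
      if j ∈ I then 1 else b := by
    intro j
    split_ifs
    · exact card_singleton _
    · simp
  rw [prod_congr rfl fun j _ => h2 j, prod_ite, prod_const_one, one_mul, prod_const]
  have h3 : (univ.filter fun j : Fin n => ¬ j ∈ I).card + I.card = n := by
    have := card_filter_add_card_filter_not (s := (univ : Finset (Fin n))) (fun j : Fin n => j ∈ I)
    rw [card_univ, Fintype.card_fin] at this
    have h4 : (univ.filter fun j : Fin n => j ∈ I) = I := by
      ext j; simp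
    rw [h4] at this
    omega
  rw [← pow_add, h3]

/-- comparison of the averages of a function of few coordinates -/
lemma cmpF (n b : ℕ) (hb : 1 ≤ b) {σ : Type} (S : Finset σ) (X : σ → Fin n → Fin b)
    (I : Finset (Fin n)) (F : (Fin n → Fin b) → ℝ)
    (hF : ∀ w w' : Fin n → Fin b, (∀ i ∈ I, w i = w' i) → F w = F w') (C : ℝ)
    (hC : ∀ w, |F w| ≤ C) (Err : ℝ)
    (hpat : ∀ w : Fin n → Fin b, |((S.filter fun s => ∀ i ∈ I, X s i = w i).card : ℝ) -
      S.card / (b : ℝ) ^ I.card| ≤ Err) :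
    |∑ s ∈ S, F (X s) - S.card * (1 / (b : ℝ) ^ n * ∑ w, F w)| ≤ C * (b : ℝ) ^ I.card * Err := by
  classical
  have hb0 : (0 : ℝ) < b := by exact_mod_cast hb
  have h1 : ∑ s ∈ S, F (X s) = (b : ℝ) ^ I.card / (b : ℝ) ^ n *
      ∑ w, F w * ((S.filter fun s => ∀ i ∈ I, X s i = w i).card : ℝ) := by
    have e1 : ∀ w : Fin n → Fin b, F w * ((S.filter fun s => ∀ i ∈ I, X s i = w i).card : ℝ) =
        ∑ s ∈ S, if (∀ i ∈ I, X s i = w i) then F (X s) else 0 := by
      intro w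
      rw [card_filter]
      push_cast
      rw [mul_sum]
      refine sum_congr rfl fun s _ => ?_
      split_ifs with h
      · rw [mul_one]; exact (hF _ _ h).symm
      · rw [mul_zero]
    rw [sum_congr rfl fun w _ => e1 w, sum_comm, mul_sum]
    refine sum_congr rfl fun s _ => ?_
    rw [← sum_filter, sum_const, nsmul_eq_mul]
    have e2 := card_agree n b I (X s)
    have e3 : ((univ.filter fun w : Fin n → Fin b => ∀ i ∈ I, X s i = w i).card : ℝ) *
        (b : ℝ) ^ I.card = (b : ℝ) ^ n := by exact_mod_cast e2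
    have e4 : (b : ℝ) ^ n ≠ 0 := by positivity
    field_simp
    rw [mul_assoc, ← e3]
    ring
  have h2 : ∑ s ∈ S, F (X s) - S.card * (1 / (b : ℝ) ^ n * ∑ w, F w) =
      (b : ℝ) ^ I.card / (b : ℝ) ^ n * ∑ w, F w * (((S.filter fun s => ∀ i ∈ I, X s i = w i).card : ℝ) -
        S.card / (b : ℝ) ^ I.card) := by
    rw [h1]
    simp_rw [mul_sub]
    rw [sum_sub_distrib, mul_sub, ← sum_mul]
    congr 1
    field_simp
  rw [h2, abs_mul, abs_of_nonneg (by positivity)]
  have hC0 : 0 ≤ C := (abs_nonneg _).trans (hC fun _ => ⟨0, hb⟩)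
  have hErr : 0 ≤ Err := (abs_nonneg _).trans (hpat fun _ => ⟨0, hb⟩)
  have h3 : |∑ w, F w * (((S.filter fun s => ∀ i ∈ I, X s i = w i).card : ℝ) -
        S.card / (b : ℝ) ^ I.card)| ≤ (b : ℝ) ^ n * (C * Err) := by
    refine (abs_sum_le_sum_abs _ _).trans ?_
    refine (sum_le_sum (g := fun _ => C * Err) fun w _ => ?_).trans ?_
    · rw [abs_mul]
      exact mul_le_mul (hC w) (hpat w) (abs_nonneg _) hC0
    · rw [sum_const, card_univ, Fintype.card_fun, Fintype.card_fin, Fintype.card_fin, nsmul_eq_mul]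
      push_cast
      rfl
  calc (b : ℝ) ^ I.card / (b : ℝ) ^ n * |∑ w, F w *
        (((S.filter fun s => ∀ i ∈ I, X s i = w i).card : ℝ) - S.card / (b : ℝ) ^ I.card)| ≤
        (b : ℝ) ^ I.card / (b : ℝ) ^ n * ((b : ℝ) ^ n * (C * Err)) := by gcongr
    _ = C * (b : ℝ) ^ I.card * Err := by field_simp

/-- comparison of the moments -/
theorem cmp_moment (n b j : ℕ) (hb : 1 ≤ b) {σ : Type} (S : Finset σ) (X : σ → Fin n → Fin b)
    (g : Fin b → ℝ) (hg : ∀ d, |g d| ≤ 1) (Err : ℝ) (hErr : 0 ≤ Err)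
    (hpat : ∀ I : Finset (Fin n), I.card ≤ j → ∀ w : Fin n → Fin b,
      |((S.filter fun s => ∀ i ∈ I, X s i = w i).card : ℝ) - S.card / (b : ℝ) ^ I.card| ≤ Err) :
    |∑ s ∈ S, (∑ i, g (X s i)) ^ j - S.card * (1 / (b : ℝ) ^ n *
      ∑ w : Fin n → Fin b, (∑ i, g (w i)) ^ j)| ≤ ((n : ℝ) * b) ^ j * Err := by
  classical
  have hb0 : (0 : ℝ) < b := by exact_mod_cast hb
  have hb1 : (1 : ℝ) ≤ b := by exact_mod_cast hb
  have h1 : ∀ w : Fin n → Fin b, (∑ i, g (w i)) ^ j = ∑ t : Fin j → Fin n, ∏ l, g (w (t l)) := by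
    intro w
    exact Fintype.sum_pow (fun i => g (w i)) j
  have h2 : ∑ s ∈ S, (∑ i, g (X s i)) ^ j - S.card * (1 / (b : ℝ) ^ n *
      ∑ w : Fin n → Fin b, (∑ i, g (w i)) ^ j) = ∑ t : Fin j → Fin n,
      (∑ s ∈ S, ∏ l, g (X s (t l)) - S.card * (1 / (b : ℝ) ^ n *
        ∑ w : Fin n → Fin b, ∏ l, g (w (t l)))) := by
    rw [sum_sub_distrib]
    congr 1
    · simp_rw [h1]
      rw [sum_comm]
    · simp_rw [h1]
      rw [sum_comm, ← mul_sum, ← mul_sum]
  rw [h2]
  refine (abs_sum_le_sum_abs _ _).trans ?_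
  refine (sum_le_sum (g := fun _ => (b : ℝ) ^ j * Err) fun t _ => ?_).trans ?_
  · have h3 : (image t univ).card ≤ j := by
      refine card_image_le.trans ?_
      rw [card_univ, Fintype.card_fin]
    have h4 := cmpF n b hb S X (image t univ) (fun w => ∏ l, g (w (t l))) (fun w w' h => by
      refine prod_congr rfl fun l _ => ?_
      rw [h (t l) (mem_image_of_mem _ (mem_univ _))]) 1 (fun w => by
      rw [abs_prod]
      exact prod_le_one (fun _ _ => abs_nonneg _) fun _ _ => hg _) Err (hpat _ h3)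
    refine h4.trans ?_
    rw [one_mul]
    gcongr
  · rw [sum_const, card_univ, Fintype.card_fun, Fintype.card_fin, Fintype.card_fin, nsmul_eq_mul]
    push_cast
    rw [mul_pow]
    apply le_of_eq; ring

/-- the exponential moments of the model -/
lemma model_exp (n b : ℕ) (hb : 1 ≤ b) (h : Fin b → ℝ) :
    1 / (b : ℝ) ^ n * ∑ w : Fin n → Fin b, Real.exp (∑ i, h (w i)) =
      (1 / b * ∑ d, Real.exp (h d)) ^ n := by
  have h1 : ∑ w : Fin n → Fin b, Real.exp (∑ i, h (w i)) = (∑ d, Real.exp (h d)) ^ n := by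
    rw [Fintype.sum_pow]
    refine sum_congr rfl fun w _ => ?_
    rw [Real.exp_sum]
  rw [h1, mul_pow, one_div_pow]

lemma avg_exp_le (b : ℕ) (hb : 1 ≤ b) (g : Fin b → ℝ) (hg : ∀ d, |g d| ≤ 1) (hg0 : ∑ d, g d = 0)
    (l : ℝ) (hl : |l| ≤ 1) : 1 / (b : ℝ) * ∑ d, Real.exp (l * g d) ≤ Real.exp (l ^ 2) := by
  have hb0 : (0 : ℝ) < b := by exact_mod_cast hb
  have h1 : ∀ d, Real.exp (l * g d) ≤ 1 + l * g d + l ^ 2 := by
    intro d
    have h2 : |l * g d| ≤ 1 := by
      rw [abs_mul]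
      exact mul_le_one₀ hl (abs_nonneg _) (hg d)
    have h3 := Real.abs_exp_sub_one_sub_id_le h2
    have h4 : (l * g d) ^ 2 ≤ l ^ 2 := by
      rw [mul_pow]
      have : g d ^ 2 ≤ 1 := by
        rw [← sq_abs]
        exact pow_le_one₀ (abs_nonneg _) (hg d)
      nlinarith [sq_nonneg l]
    have := (abs_le.1 h3).2
    linarith
  have h2 : ∑ d, Real.exp (l * g d) ≤ b * (1 + l ^ 2) := by
    refine (sum_le_sum fun d _ => h1 d).trans ?_
    rw [sum_add_distrib, sum_add_distrib, ← mul_sum, hg0, sum_const, sum_const, card_univ,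
      Fintype.card_fin, nsmul_eq_mul, nsmul_eq_mul]
    apply le_of_eq; ring
  calc 1 / (b : ℝ) * ∑ d, Real.exp (l * g d) ≤ 1 / b * (b * (1 + l ^ 2)) := by gcongr
    _ = l ^ 2 + 1 := by field_simp; ring
    _ ≤ Real.exp (l ^ 2) := Real.add_one_le_exp _

/-- the moments of the model, with a parameter -/
theorem model_moment (n b k : ℕ) (hb : 1 ≤ b) (g : Fin b → ℝ) (hg : ∀ d, |g d| ≤ 1)
    (hg0 : ∑ d, g d = 0) (l : ℝ) (hl0 : 0 < l) (hl : l ≤ 1) :
    1 / (b : ℝ) ^ n * ∑ w : Fin n → Fin b, (∑ i, g (w i)) ^ (2 * k) ≤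
      2 * (2 * k).factorial / l ^ (2 * k) * Real.exp (n * l ^ 2) := by
  have hb0 : (0 : ℝ) < b := by exact_mod_cast hb
  have h1 : ∀ x : ℝ, x ^ (2 * k) ≤ (2 * k).factorial / l ^ (2 * k) * (Real.exp (l * x) + Real.exp (-l * x)) := by
    intro x
    have h2 := Real.pow_div_factorial_le_exp (|l * x|) (abs_nonneg _) (2 * k)
    have h3 : Real.exp |l * x| ≤ Real.exp (l * x) + Real.exp (-l * x) := by
      rcases abs_cases (l * x) with ⟨h, _⟩ | ⟨h, _⟩
      · rw [h]; linarith [Real.exp_pos (-l * x)]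
      · rw [h, ← neg_mul]; linarith [Real.exp_pos (l * x)]
    have h4 : |l * x| ^ (2 * k) = l ^ (2 * k) * x ^ (2 * k) := by
      rw [← mul_pow, Even.pow_abs ⟨k, by ring⟩]
    rw [h4, div_le_iff₀ (by positivity)] at h2
    have h5 : l ^ (2 * k) * x ^ (2 * k) ≤ (Real.exp (l * x) + Real.exp (-l * x)) * (2 * k).factorial :=
      h2.trans (mul_le_mul_of_nonneg_right h3 (by positivity))
    rw [div_mul_eq_mul_div, le_div_iff₀ (by positivity)]
    linarith
  have h2 : ∀ c : ℝ, |c| ≤ 1 → c ^ 2 = l ^ 2 → 1 / (b : ℝ) ^ n *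
      ∑ w : Fin n → Fin b, Real.exp (c * ∑ i, g (w i)) ≤ Real.exp (n * l ^ 2) := by
    intro c hc hc2
    have h3 := model_exp n b hb (fun d => c * g d)
    simp_rw [← mul_sum] at h3
    rw [h3]
    have h4 := avg_exp_le b hb g hg hg0 c hc
    rw [hc2] at h4
    calc (1 / (b : ℝ) * ∑ d, Real.exp (c * g d)) ^ n ≤ Real.exp (l ^ 2) ^ n := by
          apply pow_le_pow_left₀ (mul_nonneg (by positivity)
            (sum_nonneg fun _ _ => (Real.exp_pos _).le)) h4
      _ = Real.exp (n * l ^ 2) := by rw [← Real.exp_nat_mul]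
  have h3 := h2 l (by rwa [abs_of_pos hl0]) rfl
  have h4 := h2 (-l) (by rwa [abs_neg, abs_of_pos hl0]) (by ring)
  calc 1 / (b : ℝ) ^ n * ∑ w : Fin n → Fin b, (∑ i, g (w i)) ^ (2 * k) ≤
        1 / (b : ℝ) ^ n * ∑ w : Fin n → Fin b, ((2 * k).factorial / l ^ (2 * k) *
          (Real.exp (l * ∑ i, g (w i)) + Real.exp (-l * ∑ i, g (w i)))) := by
        apply mul_le_mul_of_nonneg_left _ (by positivity)
        exact sum_le_sum fun w _ => h1 _
    _ = (2 * k).factorial / l ^ (2 * k) * (1 / (b : ℝ) ^ n * ∑ w : Fin n → Fin b,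
          Real.exp (l * ∑ i, g (w i)) + 1 / (b : ℝ) ^ n * ∑ w : Fin n → Fin b,
          Real.exp (-l * ∑ i, g (w i))) := by
        rw [← mul_sum, sum_add_distrib]; ring
    _ ≤ (2 * k).factorial / l ^ (2 * k) * (Real.exp (n * l ^ 2) + Real.exp (n * l ^ 2)) := by
        apply mul_le_mul_of_nonneg_left (add_le_add h3 h4) (by positivity)
    _ = _ := by ring

/-- the moments of the model -/
theorem model_moment' (n b k : ℕ) (hb : 1 ≤ b) (g : Fin b → ℝ) (hg : ∀ d, |g d| ≤ 1)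
    (hg0 : ∑ d, g d = 0) (hk : 1 ≤ k) (hkn : k ≤ n) :
    1 / (b : ℝ) ^ n * ∑ w : Fin n → Fin b, (∑ i, g (w i)) ^ (2 * k) ≤ 2 * (11 * k * n) ^ k := by
  have hk0 : (0 : ℝ) < k := by exact_mod_cast hk
  have hn0 : (0 : ℝ) < n := by exact_mod_cast (by omega : 0 < n)
  have hkn' : (k : ℝ) ≤ n := by exact_mod_cast hkn
  have h1 := model_moment n b k hb g hg hg0 (√(k / n)) (Real.sqrt_pos.2 (by positivity)) (by
    rw [Real.sqrt_le_left zero_le_one, one_pow, div_le_one hn0]; exact hkn')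
  refine h1.trans ?_
  have h2 : (√((k : ℝ) / n)) ^ 2 = k / n := Real.sq_sqrt (by positivity)
  rw [pow_mul, h2]
  have h3 : (n : ℝ) * (k / n) = k := by field_simp
  rw [h3]
  have h4 : Real.exp (k : ℝ) = Real.exp 1 ^ k := by rw [← Real.exp_nat_mul, mul_one]
  rw [h4]
  have h5 : (((2 * k).factorial : ℕ) : ℝ) ≤ (4 * k ^ 2) ^ k := by
    have h6 : (2 * k).factorial ≤ (2 * k) ^ (2 * k) := Nat.factorial_le_pow _
    have h7 : (((2 * k).factorial : ℕ) : ℝ) ≤ (((2 * k) ^ (2 * k) : ℕ) : ℝ) := by exact_mod_cast h6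
    refine h7.trans (le_of_eq ?_)
    push_cast
    rw [pow_mul]
    congr 1; ring
  calc 2 * (((2 * k).factorial : ℕ) : ℝ) / ((k : ℝ) / n) ^ k * Real.exp 1 ^ k ≤
        2 * (4 * k ^ 2) ^ k / ((k : ℝ) / n) ^ k * Real.exp 1 ^ k := by gcongr
    _ = 2 * ((4 * k ^ 2) / ((k : ℝ) / n) * Real.exp 1) ^ k := by rw [mul_pow, div_pow]; ring
    _ = 2 * (4 * Real.exp 1 * k * n) ^ k := by
        congr 2; field_simp
    _ ≤ 2 * (11 * k * n) ^ k := by
        have : Real.exp 1 < 2.7182818286 := Real.exp_one_lt_d9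
        gcongr
        linarith

/-- large deviations -/
theorem tail_bound (n b k : ℕ) (hb : 1 ≤ b) {σ : Type} (S : Finset σ) (X : σ → Fin n → Fin b)
    (g : Fin b → ℝ) (hg : ∀ d, |g d| ≤ 1) (hg0 : ∑ d, g d = 0) (hk : 1 ≤ k) (hkn : k ≤ n)
    (Err : ℝ) (hErr : 0 ≤ Err)
    (hpat : ∀ I : Finset (Fin n), I.card ≤ 2 * k → ∀ w : Fin n → Fin b,
      |((S.filter fun s => ∀ i ∈ I, X s i = w i).card : ℝ) - S.card / (b : ℝ) ^ I.card| ≤ Err)
    (τ : ℝ) (hτ : 0 < τ) :
    ((S.filter fun s => τ ≤ |∑ i, g (X s i)|).card : ℝ) ≤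
      (S.card * (2 * (11 * k * n) ^ k) + ((n : ℝ) * b) ^ (2 * k) * Err) / τ ^ (2 * k) := by
  have h1 := cmp_moment n b (2 * k) hb S X g hg Err hErr hpat
  have h2 := model_moment' n b k hb g hg hg0 hk hkn
  have h3 : ∑ s ∈ S, (∑ i, g (X s i)) ^ (2 * k) ≤
      S.card * (2 * (11 * k * n) ^ k) + ((n : ℝ) * b) ^ (2 * k) * Err := by
    have h4 := (abs_le.1 h1).2
    have h5 : (S.card : ℝ) * (1 / (b : ℝ) ^ n * ∑ w : Fin n → Fin b, (∑ i, g (w i)) ^ (2 * k)) ≤
        S.card * (2 * (11 * k * n) ^ k) := by gcongr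
    linarith
  rw [le_div_iff₀ (by positivity)]
  refine le_trans ?_ h3
  have h6 : ((S.filter fun s => τ ≤ |∑ i, g (X s i)|).card : ℝ) * τ ^ (2 * k) =
      ∑ s ∈ S.filter (fun s => τ ≤ |∑ i, g (X s i)|), τ ^ (2 * k) := by
    rw [sum_const, nsmul_eq_mul]
  rw [h6]
  calc ∑ s ∈ S.filter (fun s => τ ≤ |∑ i, g (X s i)|), τ ^ (2 * k) ≤
        ∑ s ∈ S.filter (fun s => τ ≤ |∑ i, g (X s i)|), (∑ i, g (X s i)) ^ (2 * k) := by
        refine sum_le_sum fun s hs => ?_
        have h7 := (mem_filter.1 hs).2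
        rw [← Even.pow_abs ⟨k, by ring⟩ (∑ i, g (X s i))]
        exact pow_le_pow_left₀ hτ.le h7 _
    _ ≤ ∑ s ∈ S, (∑ i, g (X s i)) ^ (2 * k) := by
        refine sum_le_sum_of_subset_of_nonneg (filter_subset _ _) fun s _ _ => ?_
        rw [pow_mul]; positivity

end Pool.Agent.Helper478.Kwise
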