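import Pool.Agent.Helper478_Kwise.C
import Pool.Agent.R421.EK.Law
import Pool.Agent.Y586.SW.GM

/-!
# The central limit theorem for almost `k`-wise independent families
-/

set_option autoImplicit false

namespace Pool.Agent.Helper478.Kwise

open Finset Filter Topology
open Pool.Agent.Y586.SW (Sm tay)

/-- comparison of the moments -/
theorem cmp_momentG (n b j : ℕ) (hb : 1 ≤ b) {σ : Type} (S : Finset σ) (X : σ → Fin n → Fin b)
    (G : Fin n → Fin b → ℝ) (hG : ∀ i d, |G i d| ≤ 1) (Err : ℝ) (hErr : 0 ≤ Err)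
    (hpat : ∀ I : Finset (Fin n), I.card ≤ j → ∀ w : Fin n → Fin b,
      |((S.filter fun s => ∀ i ∈ I, X s i = w i).card : ℝ) - S.card / (b : ℝ) ^ I.card| ≤ Err) :
    |∑ s ∈ S, (∑ i, G i (X s i)) ^ j - S.card * (1 / (b : ℝ) ^ n *
      ∑ w : Fin n → Fin b, (∑ i, G i (w i)) ^ j)| ≤ ((n : ℝ) * b) ^ j * Err := by
  classical
  have hb0 : (0 : ℝ) < b := by exact_mod_cast hb
  have hb1 : (1 : ℝ) ≤ b := by exact_mod_cast hb
  have h1 : ∀ w : Fin n → Fin b, (∑ i, G i (w i)) ^ j = ∑ t : Fin j → Fin n, ∏ l, G (t l) (w (t l)) := by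
    intro w
    exact Fintype.sum_pow (fun i => G i (w i)) j
  have h2 : ∑ s ∈ S, (∑ i, G i (X s i)) ^ j - S.card * (1 / (b : ℝ) ^ n *
      ∑ w : Fin n → Fin b, (∑ i, G i (w i)) ^ j) = ∑ t : Fin j → Fin n,
      (∑ s ∈ S, ∏ l, G (t l) (X s (t l)) - S.card * (1 / (b : ℝ) ^ n *
        ∑ w : Fin n → Fin b, ∏ l, G (t l) (w (t l)))) := by
    rw [sum_sub_distrib]
    congr 1
    · simp_rw [h1]
      rw [sum_comm]
    · simp_rw [h1]
      rw [sum_comm, ← mul_sum, ← mul_sum]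
  rw [h2]
  refine (abs_sum_le_sum_abs _ _).trans ?_
  refine (sum_le_sum (g := fun _ => (b : ℝ) ^ j * Err) fun t _ => ?_).trans ?_
  · have h3 : (image t univ).card ≤ j := by
      refine card_image_le.trans ?_
      rw [card_univ, Fintype.card_fin]
    have h4 := cmpF n b hb S X (image t univ) (fun w => ∏ l, G (t l) (w (t l))) (fun w w' h => by
      refine prod_congr rfl fun l _ => ?_
      rw [h (t l) (mem_image_of_mem _ (mem_univ _))]) 1 (fun w => by
      rw [abs_prod]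
      exact prod_le_one (fun _ _ => abs_nonneg _) fun _ _ => hG _ _) Err (hpat _ h3)
    refine h4.trans ?_
    rw [one_mul]
    gcongr
  · rw [sum_const, card_univ, Fintype.card_fun, Fintype.card_fin, Fintype.card_fin, nsmul_eq_mul]
    push_cast
    rw [mul_pow]
    apply le_of_eq; ring

/-- products over the model -/
lemma model_prod (n b : ℕ) (H : Fin n → Fin b → ℂ) :
    1 / (b : ℂ) ^ n * ∑ w : Fin n → Fin b, ∏ i, H i (w i) = ∏ i, (1 / (b : ℂ) * ∑ d, H i d) := by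
  rw [prod_mul_distrib, prod_const, card_univ, Fintype.card_fin, one_div_pow]
  congr 1
  rw [prod_univ_sum, Fintype.piFinset_univ]

lemma model_prodR (n b : ℕ) (H : Fin n → Fin b → ℝ) :
    1 / (b : ℝ) ^ n * ∑ w : Fin n → Fin b, ∏ i, H i (w i) = ∏ i, (1 / (b : ℝ) * ∑ d, H i d) := by
  rw [prod_mul_distrib, prod_const, card_univ, Fintype.card_fin, one_div_pow]
  congr 1
  rw [prod_univ_sum, Fintype.piFinset_univ]

lemma avg_exp_leG (b : ℕ) (hb : 1 ≤ b) (g : Fin b → ℝ) (M : ℝ) (hg : ∀ d, |g d| ≤ M) (hg0 : ∑ d, g d = 0)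
    (c : ℝ) (hc : |c| * M ≤ 1) : 1 / (b : ℝ) * ∑ d, Real.exp (c * g d) ≤ Real.exp (c ^ 2 * M ^ 2) := by
  have hb0 : (0 : ℝ) < b := by exact_mod_cast hb
  have h1 : ∀ d, Real.exp (c * g d) ≤ 1 + c * g d + c ^ 2 * M ^ 2 := by
    intro d
    have hM0 : 0 ≤ M := (abs_nonneg _).trans (hg d)
    have h2 : |c * g d| ≤ 1 := by
      rw [abs_mul]
      exact (mul_le_mul_of_nonneg_left (hg d) (abs_nonneg _)).trans hc
    have h3 := Real.abs_exp_sub_one_sub_id_le h2
    have h4 : (c * g d) ^ 2 ≤ c ^ 2 * M ^ 2 := by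
      rw [mul_pow]
      apply mul_le_mul_of_nonneg_left _ (sq_nonneg c)
      rw [← sq_abs]
      exact pow_le_pow_left₀ (abs_nonneg _) (hg d) 2
    have := (abs_le.1 h3).2
    linarith
  have h2 : ∑ d, Real.exp (c * g d) ≤ b * (1 + c ^ 2 * M ^ 2) := by
    refine (sum_le_sum fun d _ => h1 d).trans ?_
    rw [sum_add_distrib, sum_add_distrib, ← mul_sum, hg0, sum_const, sum_const, card_univ,
      Fintype.card_fin, nsmul_eq_mul, nsmul_eq_mul]
    apply le_of_eq; ring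
  calc 1 / (b : ℝ) * ∑ d, Real.exp (c * g d) ≤ 1 / b * (b * (1 + c ^ 2 * M ^ 2)) := by gcongr
    _ = c ^ 2 * M ^ 2 + 1 := by field_simp; ring
    _ ≤ Real.exp (c ^ 2 * M ^ 2) := Real.add_one_le_exp _

/-- the moments of the model -/
theorem model_momentG (n b k : ℕ) (hb : 1 ≤ b) (G : Fin n → Fin b → ℝ) (M : Fin n → ℝ)
    (hG : ∀ i d, |G i d| ≤ M i) (hG0 : ∀ i, ∑ d, G i d = 0) (hM : ∀ i, 2 * M i ≤ 1) (V : ℝ)
    (hV : ∑ i, M i ^ 2 ≤ V) :
    1 / (b : ℝ) ^ n * ∑ w : Fin n → Fin b, (∑ i, G i (w i)) ^ (2 * k) ≤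
      2 * (2 * k).factorial / 4 ^ k * Real.exp (4 * V) := by
  have hb0 : (0 : ℝ) < b := by exact_mod_cast hb
  have h1 : ∀ x : ℝ, x ^ (2 * k) ≤ (2 * k).factorial / 4 ^ k * (Real.exp (2 * x) + Real.exp (-2 * x)) := by
    intro x
    have h2 := Real.pow_div_factorial_le_exp (|2 * x|) (abs_nonneg _) (2 * k)
    have h3 : Real.exp |2 * x| ≤ Real.exp (2 * x) + Real.exp (-2 * x) := by
      rcases abs_cases (2 * x) with ⟨h, _⟩ | ⟨h, _⟩
      · rw [h]; linarith [Real.exp_pos (-2 * x)]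
      · rw [h, ← neg_mul]; linarith [Real.exp_pos (2 * x)]
    have h4 : |2 * x| ^ (2 * k) = 4 ^ k * x ^ (2 * k) := by
      rw [pow_mul, sq_abs, mul_pow, pow_mul, mul_pow]; norm_num
    rw [h4, div_le_iff₀ (by positivity)] at h2
    have h5 : 4 ^ k * x ^ (2 * k) ≤ (Real.exp (2 * x) + Real.exp (-2 * x)) * (2 * k).factorial :=
      h2.trans (mul_le_mul_of_nonneg_right h3 (by positivity))
    rw [div_mul_eq_mul_div, le_div_iff₀ (by positivity)]
    linarith
  have h2 : ∀ c : ℝ, |c| = 2 → 1 / (b : ℝ) ^ n *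
      ∑ w : Fin n → Fin b, Real.exp (c * ∑ i, G i (w i)) ≤ Real.exp (4 * V) := by
    intro c hc
    have h3 := model_prodR n b (fun i d => Real.exp (c * G i d))
    simp_rw [← Real.exp_sum, ← mul_sum] at h3
    rw [h3]
    have hc2 : c ^ 2 = 4 := by rw [← sq_abs, hc]; norm_num
    calc ∏ i, (1 / (b : ℝ) * ∑ d, Real.exp (c * G i d)) ≤ ∏ i, Real.exp (c ^ 2 * M i ^ 2) := by
          refine prod_le_prod (fun i _ => mul_nonneg (by positivity)
            (sum_nonneg fun _ _ => (Real.exp_pos _).le)) fun i _ => ?_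
          exact avg_exp_leG b hb (G i) (M i) (hG i) (hG0 i) c (by rw [hc]; exact hM i)
      _ = Real.exp (4 * ∑ i, M i ^ 2) := by
          rw [← Real.exp_sum, ← mul_sum, hc2]
      _ ≤ _ := Real.exp_le_exp.2 (by linarith)
  have h3 := h2 2 (by norm_num)
  have h4 := h2 (-2) (by norm_num)
  calc 1 / (b : ℝ) ^ n * ∑ w : Fin n → Fin b, (∑ i, G i (w i)) ^ (2 * k) ≤
        1 / (b : ℝ) ^ n * ∑ w : Fin n → Fin b, ((2 * k).factorial / 4 ^ k *
          (Real.exp (2 * ∑ i, G i (w i)) + Real.exp (-2 * ∑ i, G i (w i)))) := by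
        apply mul_le_mul_of_nonneg_left _ (by positivity)
        exact sum_le_sum fun w _ => h1 _
    _ = (2 * k).factorial / 4 ^ k * (1 / (b : ℝ) ^ n * ∑ w : Fin n → Fin b,
          Real.exp (2 * ∑ i, G i (w i)) + 1 / (b : ℝ) ^ n * ∑ w : Fin n → Fin b,
          Real.exp (-2 * ∑ i, G i (w i))) := by
        rw [← mul_sum, sum_add_distrib]; ring
    _ ≤ (2 * k).factorial / 4 ^ k * (Real.exp (4 * V) + Real.exp (4 * V)) := by
        apply mul_le_mul_of_nonneg_left (add_le_add h3 h4) (by positivity)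
    _ = _ := by ring

/-- comparison of the characteristic functions -/
theorem char_close (n b k : ℕ) (hb : 1 ≤ b) {σ : Type} (S : Finset σ) (hS : S.Nonempty)
    (X : σ → Fin n → Fin b) (G : Fin n → Fin b → ℝ) (M : Fin n → ℝ) (hG : ∀ i d, |G i d| ≤ M i)
    (hG0 : ∀ i, ∑ d, G i d = 0) (hM : ∀ i, 2 * M i ≤ 1) (V : ℝ) (hV : ∑ i, M i ^ 2 ≤ V)
    (Err : ℝ) (hErr : 0 ≤ Err)
    (hpat : ∀ I : Finset (Fin n), I.card ≤ 2 * k → ∀ w : Fin n → Fin b,
      |((S.filter fun s => ∀ i ∈ I, X s i = w i).card : ℝ) - S.card / (b : ℝ) ^ I.card| ≤ Err) :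
    ‖(∑ s ∈ S, Complex.exp (Complex.I * ((∑ i, G i (X s i) : ℝ) : ℂ))) / S.card -
      1 / (b : ℂ) ^ n * ∑ w : Fin n → Fin b, Complex.exp (Complex.I * ((∑ i, G i (w i) : ℝ) : ℂ))‖ ≤
      ∑ j ∈ range (2 * k + 1), ((n : ℝ) * b) ^ j * Err / S.card + 4 / 4 ^ k * Real.exp (4 * V) := by
  have hb0 : (0 : ℝ) < b := by exact_mod_cast hb
  have hS0 : (0 : ℝ) < S.card := by exact_mod_cast hS.card_pos
  have hG1 : ∀ i d, |G i d| ≤ 1 := by
    intro i d
    have h1 := hG i d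
    have h2 := hM i
    have h3 := (abs_nonneg _).trans h1
    linarith
  -- moments
  let mS : ℕ → ℝ := fun j => (∑ s ∈ S, (∑ i, G i (X s i)) ^ j) / S.card
  let mM : ℕ → ℝ := fun j => 1 / (b : ℝ) ^ n * ∑ w : Fin n → Fin b, (∑ i, G i (w i)) ^ j
  have hmom : ∀ j, j ≤ 2 * k → |mS j - mM j| ≤ ((n : ℝ) * b) ^ j * Err / S.card := by
    intro j hj
    have h1 := cmp_momentG n b j hb S X G hG1 Err hErr (fun I hI w => hpat I (hI.trans hj) w)
    have h2 : mS j - mM j = (∑ s ∈ S, (∑ i, G i (X s i)) ^ j - S.card * (1 / (b : ℝ) ^ n *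
      ∑ w : Fin n → Fin b, (∑ i, G i (w i)) ^ j)) / S.card := by
      simp only [mS, mM]
      field_simp
    rw [h2, abs_div, abs_of_pos hS0]
    gcongr
  have hM2 := model_momentG n b k hb G M hG hG0 hM V hV
  -- Taylor polynomials
  let f : ℝ → ℂ := fun y => Complex.exp (Complex.I * (y : ℂ))
  have htay : ∀ y : ℝ, ‖f y - Sm (2 * k) y‖ ≤ y ^ (2 * k) / (2 * k).factorial := by
    intro y
    have h1 := tay (2 * k) y
    rwa [Even.pow_abs ⟨k, by ring⟩] at h1
  have hfac : (0 : ℝ) < ((2 * k).factorial : ℕ) := by positivity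
  have e1 : ‖(∑ s ∈ S, f (∑ i, G i (X s i))) / S.card - (∑ s ∈ S, Sm (2 * k) (∑ i, G i (X s i))) / S.card‖ ≤
      mS (2 * k) / (2 * k).factorial := by
    rw [← sub_div, ← sum_sub_distrib, norm_div, Complex.norm_natCast]
    simp only [mS]
    rw [div_div, mul_comm (S.card : ℝ), ← div_div]
    apply div_le_div_of_nonneg_right _ hS0.le
    rw [sum_div]
    exact (norm_sum_le _ _).trans (sum_le_sum fun s _ => htay _)
  have e2 : ‖1 / (b : ℂ) ^ n * ∑ w : Fin n → Fin b, f (∑ i, G i (w i)) -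
      1 / (b : ℂ) ^ n * ∑ w : Fin n → Fin b, Sm (2 * k) (∑ i, G i (w i))‖ ≤ mM (2 * k) / (2 * k).factorial := by
    rw [← mul_sub, ← sum_sub_distrib, norm_mul]
    have h1 : ‖1 / (b : ℂ) ^ n‖ = 1 / (b : ℝ) ^ n := by
      rw [norm_div, norm_one, norm_pow, Complex.norm_natCast]
    rw [h1]
    simp only [mM]
    rw [mul_div_assoc]
    apply mul_le_mul_of_nonneg_left _ (by positivity)
    rw [sum_div]
    exact (norm_sum_le _ _).trans (sum_le_sum fun s _ => htay _)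
  have e3 : ‖(∑ s ∈ S, Sm (2 * k) (∑ i, G i (X s i))) / S.card -
      1 / (b : ℂ) ^ n * ∑ w : Fin n → Fin b, Sm (2 * k) (∑ i, G i (w i))‖ ≤
      ∑ j ∈ range (2 * k), ((n : ℝ) * b) ^ j * Err / S.card := by
    have h1 : (∑ s ∈ S, Sm (2 * k) (∑ i, G i (X s i))) / S.card -
        1 / (b : ℂ) ^ n * ∑ w : Fin n → Fin b, Sm (2 * k) (∑ i, G i (w i)) =
        ∑ j ∈ range (2 * k), Complex.I ^ j / (j.factorial : ℂ) * ((mS j - mM j : ℝ) : ℂ) := by
      unfold Sm
      simp only [mS, mM]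
      rw [sum_comm, sum_comm (s := univ), sum_div, mul_sum, ← sum_sub_distrib]
      refine sum_congr rfl fun j _ => ?_
      push_cast
      simp_rw [mul_pow]
      rw [mul_sub, ← sum_div, ← mul_sum, ← sum_div, ← mul_sum]
      ring
    rw [h1]
    refine (norm_sum_le _ _).trans (sum_le_sum fun j hj => ?_)
    rw [mem_range] at hj
    rw [norm_mul, norm_div, norm_pow, Complex.norm_I, one_pow, Complex.norm_natCast, Complex.norm_real,
      Real.norm_eq_abs]
    have h2 : (1 : ℝ) / (j.factorial : ℕ) ≤ 1 := by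
      rw [div_le_one (by positivity)]
      exact_mod_cast Nat.succ_le_of_lt j.factorial_pos
    exact (mul_le_of_le_one_left (abs_nonneg _) h2).trans (hmom j hj.le)
  have h5 : ‖(∑ s ∈ S, f (∑ i, G i (X s i))) / S.card -
      1 / (b : ℂ) ^ n * ∑ w : Fin n → Fin b, f (∑ i, G i (w i))‖ ≤
      mS (2 * k) / (2 * k).factorial + ∑ j ∈ range (2 * k), ((n : ℝ) * b) ^ j * Err / S.card +
        mM (2 * k) / (2 * k).factorial := by
    have h6 : (∑ s ∈ S, f (∑ i, G i (X s i))) / S.card -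
      1 / (b : ℂ) ^ n * ∑ w : Fin n → Fin b, f (∑ i, G i (w i)) =
      ((∑ s ∈ S, f (∑ i, G i (X s i))) / S.card - (∑ s ∈ S, Sm (2 * k) (∑ i, G i (X s i))) / S.card) +
      ((∑ s ∈ S, Sm (2 * k) (∑ i, G i (X s i))) / S.card -
        1 / (b : ℂ) ^ n * ∑ w : Fin n → Fin b, Sm (2 * k) (∑ i, G i (w i))) -
      (1 / (b : ℂ) ^ n * ∑ w : Fin n → Fin b, f (∑ i, G i (w i)) -
      1 / (b : ℂ) ^ n * ∑ w : Fin n → Fin b, Sm (2 * k) (∑ i, G i (w i))) := by ring
    rw [h6]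
    refine (norm_sub_le _ _).trans (add_le_add ((norm_add_le _ _).trans (add_le_add e1 e3)) e2)
  refine h5.trans ?_
  have h6 : mS (2 * k) ≤ mM (2 * k) + ((n : ℝ) * b) ^ (2 * k) * Err / S.card := by
    have := (abs_le.1 (hmom (2 * k) le_rfl)).2
    linarith
  have h7 : mM (2 * k) / (2 * k).factorial ≤ 2 / 4 ^ k * Real.exp (4 * V) := by
    rw [div_le_iff₀ hfac]
    refine hM2.trans (le_of_eq ?_)
    ring
  have h8 : mS (2 * k) / (2 * k).factorial ≤ 2 / 4 ^ k * Real.exp (4 * V) +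
      ((n : ℝ) * b) ^ (2 * k) * Err / S.card := by
    calc mS (2 * k) / (2 * k).factorial ≤ (mM (2 * k) + ((n : ℝ) * b) ^ (2 * k) * Err / S.card) /
          (2 * k).factorial := by gcongr
      _ = mM (2 * k) / (2 * k).factorial + ((n : ℝ) * b) ^ (2 * k) * Err / S.card / (2 * k).factorial := by
          rw [add_div]
      _ ≤ _ := by
          have h9 : ((n : ℝ) * b) ^ (2 * k) * Err / S.card / (2 * k).factorial ≤
              ((n : ℝ) * b) ^ (2 * k) * Err / S.card := by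
            apply div_le_self (by positivity)
            exact_mod_cast Nat.succ_le_of_lt (2 * k).factorial_pos
          linarith
  rw [sum_range_succ]
  have h9 : 4 / 4 ^ k * Real.exp (4 * V) = 2 / 4 ^ k * Real.exp (4 * V) + 2 / 4 ^ k * Real.exp (4 * V) := by
    ring
  rw [h9]
  linarith

/-- the characteristic function of the digits of the model -/
noncomputable def phi (b : ℕ) (g : Fin b → ℝ) (t : ℝ) : ℂ :=
  1 / (b : ℂ) * ∑ d, Complex.exp (Complex.I * ((t * g d : ℝ) : ℂ))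

theorem phi_pow (b : ℕ) (hb : 1 ≤ b) (g : Fin b → ℝ) (hg0 : ∑ d, g d = 0) (hg1 : ∑ d, g d ^ 2 = b) (t : ℝ) :
    Tendsto (fun n : ℕ => phi b g (t / √n) ^ n) atTop (𝓝 (Complex.exp (-t ^ 2 / 2))) := by
  have hb0 : (b : ℝ) ≠ 0 := by exact_mod_cast (by omega : b ≠ 0)
  haveI : Nonempty (Fin b) := ⟨⟨0, hb⟩⟩
  let P : MeasureTheory.Measure (Fin b) := (PMF.uniformOfFintype (Fin b)).toMeasure
  have hint : ∀ f : Fin b → ℂ, ∫ x, f x ∂P = 1 / (b : ℂ) * ∑ d, f d := by
    intro f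
    rw [PMF.integral_eq_sum, mul_sum]
    refine sum_congr rfl fun d _ => ?_
    rw [PMF.uniformOfFintype_apply, Fintype.card_fin, ENNReal.toReal_inv, ENNReal.toReal_natCast,
      Complex.real_smul]
    push_cast
    rw [one_div]
  have hintR : ∀ f : Fin b → ℝ, ∫ x, f x ∂P = 1 / (b : ℝ) * ∑ d, f d := by
    intro f
    rw [PMF.integral_eq_sum, mul_sum]
    refine sum_congr rfl fun d _ => ?_
    rw [PMF.uniformOfFintype_apply, Fintype.card_fin, ENNReal.toReal_inv, ENNReal.toReal_natCast,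
      smul_eq_mul, one_div]
  have h1 := ProbabilityTheory.tendsto_charFun_inv_sqrt_mul_pow (P := P) (X := g)
    (Measurable.aemeasurable (measurable_of_finite g)) (by rw [hintR, hg0, mul_zero]) (by
      have : ∫ x, (g ^ 2) x ∂P = 1 / (b : ℝ) * ∑ d, (g ^ 2) d := hintR _
      rw [this]
      simp only [Pi.pow_apply]
      rw [hg1]
      field_simp) t
  refine h1.congr fun n => ?_
  congr 1
  rw [MeasureTheory.charFun_apply_real, MeasureTheory.integral_map
    (Measurable.aemeasurable (measurable_of_finite g)) (by fun_prop), hint]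
  unfold phi
  congr 1
  refine sum_congr rfl fun d _ => ?_
  congr 1
  push_cast
  rw [div_eq_inv_mul]
  ring

end Pool.Agent.Helper478.Kwise
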