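import Mathlib

/-!
# Digits and digit sums
-/

set_option autoImplicit false

namespace Pool.Agent.Helper478.Dig

/-- The base `b` digit of `y` at the place `p` after the point: the last base `b` digit of `⌊y b ^ p⌋`. -/
noncomputable def digit (b : ℕ) (y : ℝ) (p : ℕ) : ℕ := (⌊y * (b : ℝ) ^ p⌋ % (b : ℤ)).toNat

/-- The sum of `g` over the base `b` digits of `y` at the places `u < p ≤ u + L`. -/
noncomputable def digitSum (b : ℕ) (g : ℕ → ℝ) (y : ℝ) (u L : ℕ) : ℝ :=
  ∑ p ∈ Finset.Ioc u (u + L), g (digit b y p)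

/-- The mean of `g` over the `b` digits. -/
noncomputable def mean (b : ℕ) (g : ℕ → ℝ) : ℝ := (∑ d ∈ Finset.range b, g d) / b

/-- The variance of `g` over the `b` digits. -/
noncomputable def variance (b : ℕ) (g : ℕ → ℝ) : ℝ := (∑ d ∈ Finset.range b, (g d - mean b g) ^ 2) / b

end Pool.Agent.Helper478.Dig
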