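import Pool.Agent.Helper478_Kwise.B
import Pool.Agent.Helper478_Kwise.C
import Pool.Agent.Helper478_Surds.Fin

/-!
# Almost `k`-wise independence of the digits of `z m ^ θ`
-/

set_option autoImplicit false

namespace Pool.Agent.Helper478.Kwise

open Finset Filter
open Pool.Agent.H469R2.NK (e norm_e e_add e_zero conj_e)
open Pool.Agent.Helper478.Surds (range_bd ev_pow norm_sum_abs)

/-- **Almost independence of the digits at few places** -/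
theorem kwi : ∃ γ : ℝ, 0 < γ ∧ γ ≤ 1 / 20 ∧ ∀ θ : ℝ, -1 ≤ θ → θ < 1 → θ ≠ 0 →
    ∀ δ : ℝ, 0 < δ → ∃ N₀ : ℕ, ∀ N : ℕ, N₀ ≤ N → ∀ R : ℕ, R ≤ N → ∀ z : ℝ, ∀ B T : ℕ, 2 ≤ B →
      (N : ℝ) ^ δ ≤ |z| * (N : ℝ) ^ θ → |z| * (N : ℝ) ^ θ * (B : ℝ) ^ T ≤ Real.exp ((Real.log N) ^ (1 + γ)) →
      ∀ I : Finset ℕ, I ⊆ Icc 1 T → (I.card : ℝ) ≤ (Real.log N) ^ (3 / 4 : ℝ) →
      ∀ w : ℕ → ℕ, (∀ i ∈ I, w i < B) →
      |(((Ioc 0 R).filter fun n : ℕ => ∀ i ∈ I, dg B (z * ((N + n : ℕ) : ℝ) ^ θ) i = w i).card : ℝ) -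
        R / (B : ℝ) ^ I.card| ≤ N * Real.exp (-(Real.log N) ^ (3 / 4 : ℝ)) := by
  classical
  obtain ⟨γ₀, hγ0, hγ1, hrange⟩ := range_bd
  refine ⟨γ₀ / 2, by positivity, by linarith, ?_⟩
  intro θ h1 h2 h3 δ hδ
  obtain ⟨N₁, hN₁⟩ := hrange θ h1 h2 h3 δ hδ
  -- eventual inequalities
  have ev1 : ∀ᶠ y : ℝ in atTop, 3 * y ^ (1 + γ₀ / 2) ≤ y ^ (1 + γ₀) := ev_pow _ _ _ (by linarith)
  have ev2 : ∀ᶠ y : ℝ in atTop, 3 * y ^ (1 - 3 * γ₀) ≤ y ^ (1 + γ₀ / 2) := ev_pow _ _ _ (by linarith)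
  have ev3 : ∀ᶠ y : ℝ in atTop, 20 * y ^ (1 - 3 * γ₀) ≤ y ^ (1 : ℝ) := ev_pow _ _ _ (by linarith)
  have ev4 : ∀ᶠ y : ℝ in atTop, 4 * y ^ (4 / 5 : ℝ) ≤ y ^ (1 - 3 * γ₀) := ev_pow _ _ _ (by linarith)
  have ev5 : ∀ᶠ y : ℝ in atTop, 1 * y ^ (3 / 4 : ℝ) ≤ y ^ (4 / 5 : ℝ) := ev_pow _ _ _ (by norm_num)
  have ev6 : ∀ᶠ y : ℝ in atTop, (2 * y ^ (3 / 4 : ℝ) + 6) * Real.log y ≤ y ^ (4 / 5 : ℝ) := by
    have t1 := (isLittleO_log_rpow_atTop (show (0 : ℝ) < 1 / 40 by norm_num)).bound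
      (show (0 : ℝ) < 1 / 8 by norm_num)
    filter_upwards [t1, eventually_ge_atTop 1] with y hy hy1
    have hy0 : 0 < y := by linarith
    rw [Real.norm_of_nonneg (Real.log_nonneg hy1), Real.norm_of_nonneg (by positivity)] at hy
    have f1 : 1 ≤ y ^ (3 / 4 : ℝ) := Real.one_le_rpow hy1 (by norm_num)
    have f2 : y ^ (3 / 4 : ℝ) * y ^ (1 / 40 : ℝ) ≤ y ^ (4 / 5 : ℝ) := by
      rw [← Real.rpow_add hy0]
      exact Real.rpow_le_rpow_of_exponent_le hy1 (by norm_num)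
    calc (2 * y ^ (3 / 4 : ℝ) + 6) * Real.log y ≤ (8 * y ^ (3 / 4 : ℝ)) * (1 / 8 * y ^ (1 / 40 : ℝ)) := by
          apply mul_le_mul (by linarith) hy (Real.log_nonneg hy1) (by positivity)
      _ = y ^ (3 / 4 : ℝ) * y ^ (1 / 40 : ℝ) := by ring
      _ ≤ _ := f2
  have hlog : Tendsto (fun N : ℕ => Real.log N) atTop atTop :=
    Real.tendsto_log_atTop.comp tendsto_natCast_atTop_atTop
  have hev := hlog.eventually ((ev1.and ev2).and ((ev3.and ev4).and ((ev5.and ev6).and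
    (eventually_ge_atTop 100))))
  obtain ⟨N₀, hN₀⟩ := eventually_atTop.1 (hev.and (eventually_ge_atTop (max N₁ 2)))
  refine ⟨N₀, ?_⟩
  intro N hN R hR z B T hB hz1 hz2 I hI hIc w hw
  obtain ⟨⟨⟨q1, q2⟩, ⟨q3, q4⟩, ⟨q5, q6⟩, q7⟩, q8⟩ := hN₀ N hN
  obtain ⟨y, hy⟩ : ∃ y : ℝ, y = Real.log N := ⟨_, rfl⟩
  rw [← hy] at q1 q2 q3 q4 q5 q6 q7 hIc hz2 ⊢
  have hy0 : 0 < y := by linarith
  have hy1 : 1 ≤ y := by linarith
  have hN2 : 2 ≤ N := (le_max_right _ _).trans q8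
  have hNN₁ : N₁ ≤ N := (le_max_left _ _).trans q8
  have hN0 : (0 : ℝ) < N := by exact_mod_cast (by omega : 0 < N)
  have hNθ : 0 < (N : ℝ) ^ θ := Real.rpow_pos_of_pos hN0 _
  have hB0 : (0 : ℝ) < B := by exact_mod_cast (by omega : 0 < B)
  have hz0 : 0 < |z| := by
    have : 0 < |z| * (N : ℝ) ^ θ := lt_of_lt_of_le (Real.rpow_pos_of_pos hN0 _) hz1
    exact pos_of_mul_pos_left this hNθ.le
  rw [Real.rpow_one] at q3
  rw [one_mul] at q5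
  obtain ⟨H, hH⟩ : ∃ H : ℝ, H = y ^ (1 - 3 * γ₀) := ⟨_, rfl⟩
  rw [← hH] at q2 q3 q4
  have hH0 : 0 < H := by rw [hH]; positivity
  have hH1 : 1 ≤ H := by rw [hH]; exact Real.one_le_rpow hy1 (by linarith)
  -- the truncation
  obtain ⟨K, hK⟩ : ∃ K : ℕ, K = ⌈Real.exp (2 * H)⌉₊ := ⟨_, rfl⟩
  have hK1 : 1 ≤ K := by
    rw [hK]; exact Nat.one_le_ceil_iff.2 (Real.exp_pos _)
  have hK0 : (0 : ℝ) < K := by exact_mod_cast hK1
  have hKge : Real.exp (2 * H) ≤ K := by rw [hK]; exact Nat.le_ceil _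
  have hKle : (K : ℝ) ≤ Real.exp (2 * H + 1) := by
    have h4 := Nat.ceil_lt_add_one (Real.exp_pos (2 * H)).le
    rw [← hK] at h4
    have h5 : Real.exp (2 * H + 1) = Real.exp (2 * H) * Real.exp 1 := Real.exp_add _ _
    have h6 : 2 < Real.exp 1 := by have := Real.exp_one_gt_d9; linarith
    have h7 : 1 ≤ Real.exp (2 * H) := Real.one_le_exp (by positivity)
    nlinarith
  have hlogK : Real.log K ≤ 2 * H + 1 := by
    rw [Real.log_le_iff_le_exp hK0]; exact hKle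
  obtain ⟨ρ, hρ⟩ : ∃ ρ : ℝ, ρ = Real.exp (-H) := ⟨_, rfl⟩
  have hρ0 : 0 < ρ := by rw [hρ]; exact Real.exp_pos _
  have hρ1 : ρ ≤ 1 := by rw [hρ]; exact Real.exp_le_one_iff.2 (by linarith)
  have hKρ : 1 ≤ K * ρ ^ 2 := by
    have h4 : Real.exp (2 * H) * ρ ^ 2 = 1 := by
      rw [hρ, ← Real.exp_nat_mul, ← Real.exp_add]
      push_cast
      rw [show 2 * H + 2 * -H = 0 by ring, Real.exp_zero]
    rw [← h4]; gcongr
  obtain ⟨W, hW⟩ : ∃ W : ℝ, W = N * Real.exp (-(2 * H)) := ⟨_, rfl⟩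
  have hW0 : 0 ≤ W := by rw [hW]; positivity
  let ν : ℕ → ℝ := fun n => z * ((N + n : ℕ) : ℝ) ^ θ
  have hfreq : ∀ Z : ℤ, Z ≠ 0 → |Z| ≤ ((K * B ^ T : ℕ) : ℤ) → ‖∑ n ∈ Ioc 0 R, e (Z * ν n)‖ ≤ W := by
    intro Z hZ0 hZ
    have hZ1 : (1 : ℝ) ≤ |(Z : ℝ)| := by
      have := Int.one_le_abs hZ0
      exact_mod_cast this
    have hZ2 : |(Z : ℝ)| ≤ K * (B : ℝ) ^ T := by
      have : ((|Z| : ℤ) : ℝ) ≤ (((K * B ^ T : ℕ) : ℤ) : ℝ) := by exact_mod_cast hZ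
      rw [Int.cast_abs] at this
      push_cast at this
      exact this
    have e1 : ∀ n : ℕ, (Z : ℝ) * ν n = ((Z : ℝ) * z) * ((N + n : ℕ) : ℝ) ^ θ := by
      intro n; simp only [ν]; ring
    simp_rw [e1]
    rw [norm_sum_abs (Ioc 0 R) (fun n : ℕ => ((N + n : ℕ) : ℝ) ^ θ)]
    have hW' : W = N * Real.exp (-(2 * Real.log N ^ (1 - 3 * γ₀))) := by rw [hW, hH, hy]
    rw [hW']
    have hF : |(Z : ℝ) * z| = |(Z : ℝ)| * |z| := abs_mul _ _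
    refine hN₁ N R |(Z : ℝ) * z| hNN₁ hR (by rw [hF]; positivity) ?_ ?_
    · rw [hF]
      calc (N : ℝ) ^ δ ≤ 1 * |z| * (N : ℝ) ^ θ := by rw [one_mul]; exact hz1
        _ ≤ _ := by gcongr
    · rw [hF, ← hy]
      calc |(Z : ℝ)| * |z| * (N : ℝ) ^ θ ≤ (K * (B : ℝ) ^ T) * |z| * (N : ℝ) ^ θ := by gcongr
        _ = K * (|z| * (N : ℝ) ^ θ * (B : ℝ) ^ T) := by ring
        _ ≤ Real.exp (2 * H + 1) * Real.exp (y ^ (1 + γ₀ / 2)) := by gcongr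
        _ = Real.exp (2 * H + 1 + y ^ (1 + γ₀ / 2)) := (Real.exp_add _ _).symm
        _ ≤ Real.exp (y ^ (1 + γ₀)) := by
            apply Real.exp_le_exp.2
            linarith
  have hmain := pattern B T K hB hK1 ρ hρ0 hρ1 hKρ (Ioc 0 R) ν W hW0 hfreq I hI w hw
  rw [Nat.card_Ioc, Nat.sub_zero] at hmain
  refine hmain.trans ?_
  -- the error
  obtain ⟨A, hA⟩ : ∃ A : ℝ, A = 6 + 2 * Real.log K := ⟨_, rfl⟩
  rw [← hA]
  have hlogK0 : 0 ≤ Real.log K := Real.log_natCast_nonneg K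
  have hA1 : 1 ≤ A := by rw [hA]; linarith
  have hAy : A ≤ y := by rw [hA]; linarith
  have hRN : (R : ℝ) ≤ N := by exact_mod_cast hR
  have hkA : 8 * ((I.card : ℝ) + 1) * A ^ (I.card + 1) ≤ Real.exp (H / 4) := by
    have r1 : ((I.card : ℝ) + 1) ≤ y := by
      have : y ^ (3 / 4 : ℝ) ≤ H / 4 := by linarith
      linarith
    have r2 : 8 * ((I.card : ℝ) + 1) * A ^ (I.card + 1) ≤ y ^ (I.card + 3) := by
      calc 8 * ((I.card : ℝ) + 1) * A ^ (I.card + 1) ≤ y * y * y ^ (I.card + 1) := by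
            gcongr
            linarith
        _ = y ^ (I.card + 3) := by ring
    refine r2.trans ?_
    have r3 : y ^ (I.card + 3) = Real.exp (((I.card + 3 : ℕ) : ℝ) * Real.log y) := by
      rw [Real.exp_nat_mul, Real.exp_log hy0]
    rw [r3]
    apply Real.exp_le_exp.2
    push_cast
    have r4 : ((I.card : ℝ) + 3) * Real.log y ≤ (2 * y ^ (3 / 4 : ℝ) + 6) * Real.log y := by
      apply mul_le_mul_of_nonneg_right _ (Real.log_nonneg hy1)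
      have : 0 ≤ y ^ (3 / 4 : ℝ) := by positivity
      linarith
    linarith
  have hWρ : W ≤ N * ρ := by
    rw [hW, hρ]
    apply mul_le_mul_of_nonneg_left _ hN0.le
    apply Real.exp_le_exp.2; linarith
  have hAp : A ^ I.card ≤ A ^ (I.card + 1) := pow_le_pow_right₀ hA1 (by omega)
  calc 6 * (I.card : ℝ) * A ^ I.card * R * ρ + (2 * I.card + 1) * A ^ (I.card + 1) * W ≤
        6 * (I.card : ℝ) * A ^ (I.card + 1) * N * ρ + (2 * I.card + 1) * A ^ (I.card + 1) * (N * ρ) := by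
        gcongr
    _ = (8 * (I.card : ℝ) + 1) * A ^ (I.card + 1) * (N * ρ) := by ring
    _ ≤ (8 * ((I.card : ℝ) + 1)) * A ^ (I.card + 1) * (N * ρ) := by
        gcongr
        linarith
    _ ≤ Real.exp (H / 4) * (N * ρ) := by gcongr
    _ = N * Real.exp (H / 4 + -H) := by rw [Real.exp_add, hρ]; ring
    _ ≤ N * Real.exp (-y ^ (3 / 4 : ℝ)) := by
        apply mul_le_mul_of_nonneg_left _ hN0.le
        apply Real.exp_le_exp.2
        linarith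

end Pool.Agent.Helper478.Kwise
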