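import Pool.Agent.Helper478_Kwise.E

/-!
# Word counts in all windows
-/

set_option autoImplicit false

namespace Pool.Agent.Helper478.Kwise

open Finset Filter
open Pool.Agent.Helper478.Surds (ev_pow)

/-- splitting a sum into residue classes -/
lemma sum_classes (L l : ℕ) (hl : 1 ≤ l) (f : ℕ → ℝ) :
    ∑ t ∈ range L, f t = ∑ r ∈ range l, ∑ q ∈ range ((L + l - 1 - r) / l), f (r + l * q) := by
  classical
  rw [← sum_fiberwise_of_maps_to (s := range L) (t := range l) (g := fun t => t % l)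
    (fun t _ => mem_range.2 (Nat.mod_lt _ hl))]
  refine sum_congr rfl fun r hr => ?_
  rw [mem_range] at hr
  symm
  refine sum_bij (fun q _ => r + l * q) ?_ ?_ ?_ ?_
  · intro q hq
    rw [mem_range, Nat.lt_div_iff_mul_lt hl] at hq
    rw [mem_filter, mem_range]
    refine ⟨?_, ?_⟩
    · have : l * q = q * l := mul_comm _ _
      omega
    · rw [Nat.add_mul_mod_self_left, Nat.mod_eq_of_lt hr]
  · intro q1 _ q2 _ h
    have : l * q1 = l * q2 := by omega
    exact Nat.eq_of_mul_eq_mul_left hl this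
  · intro t ht
    rw [mem_filter, mem_range] at ht
    refine ⟨t / l, ?_, ?_⟩
    · rw [mem_range, Nat.lt_div_iff_mul_lt hl]
      have h1 := Nat.mod_add_div t l
      have : l * (t / l) = t / l * l := mul_comm _ _
      omega
    · have h1 := Nat.mod_add_div t l
      omega
  · intro q _
    rfl

lemma dg_nonneg (b : ℕ) (hb : 1 ≤ b) (y : ℝ) (i : ℕ) : 0 ≤ dg b y i :=
  Int.emod_nonneg _ (by exact_mod_cast (by omega : b ≠ 0))

lemma dg_lt (b : ℕ) (hb : 1 ≤ b) (y : ℝ) (i : ℕ) : dg b y i < b :=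
  Int.emod_lt_of_pos _ (by exact_mod_cast hb)

/-- the digit as an element of `Fin b` -/
noncomputable def dgF (b : ℕ) (hb : 1 ≤ b) (y : ℝ) (i : ℕ) : Fin b :=
  ⟨(dg b y i).toNat, by
    have h1 := dg_nonneg b hb y i
    have h2 := dg_lt b hb y i
    omega⟩

lemma dgF_eq (b : ℕ) (hb : 1 ≤ b) (y : ℝ) (i : ℕ) (d : Fin b) : dgF b hb y i = d ↔ dg b y i = (d : ℕ) := by
  have h1 := dg_nonneg b hb y i
  unfold dgF
  rw [Fin.ext_iff]
  simp only
  omega

/-- the pattern condition for digit vectors -/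
lemma pat_fin (B T : ℕ) (hB : 1 ≤ B) {σ : Type} (S : Finset σ) (ν : σ → ℝ) (k : ℝ) (Err c : ℝ)
    (h : ∀ I : Finset ℕ, I ⊆ Icc 1 T → (I.card : ℝ) ≤ k → ∀ w : ℕ → ℕ, (∀ i ∈ I, w i < B) →
      |((S.filter fun n => ∀ i ∈ I, dg B (ν n) i = w i).card : ℝ) - c / (B : ℝ) ^ I.card| ≤ Err)
    (I : Finset (Fin T)) (hI : (I.card : ℝ) ≤ k) (w : Fin T → Fin B) :
    |((S.filter fun n => ∀ i ∈ I, dgF B hB (ν n) ((i : ℕ) + 1) = w i).card : ℝ) -
      c / (B : ℝ) ^ I.card| ≤ Err := by
  classical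
  let I' : Finset ℕ := I.image fun i : Fin T => (i : ℕ) + 1
  have hcard : I'.card = I.card := card_image_of_injective _ (fun a b h => by
    have h' : (a : ℕ) + 1 = (b : ℕ) + 1 := h
    ext; omega)
  have h1 := h I' (by
    intro i hi
    obtain ⟨j, _, rfl⟩ := mem_image.1 hi
    have := j.2
    rw [mem_Icc]; omega) (by rw [hcard]; exact hI)
    (fun i => if hi : i - 1 < T then (w ⟨i - 1, hi⟩ : ℕ) else 0) (by
      intro i hi
      obtain ⟨j, _, rfl⟩ := mem_image.1 hi
      have := j.2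
      simp only [Nat.add_sub_cancel, this, dif_pos]
      exact (w j).2)
  rw [hcard] at h1
  have h2 : (S.filter fun n => ∀ i ∈ I, dgF B hB (ν n) ((i : ℕ) + 1) = w i) =
      S.filter fun n => ∀ i ∈ I', dg B (ν n) i =
        ((if hi : i - 1 < T then (w ⟨i - 1, hi⟩ : ℕ) else 0 : ℕ) : ℤ) := by
    refine filter_congr fun n _ => ?_
    constructor
    · intro h3 i hi
      obtain ⟨j, hj, rfl⟩ := mem_image.1 hi
      have h4 := (dgF_eq B hB (ν n) _ _).1 (h3 j hj)
      rw [h4]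
      simp only [Nat.add_sub_cancel, j.2, dif_pos]
    · intro h3 j hj
      have h4 := h3 ((j : ℕ) + 1) (mem_image_of_mem _ hj)
      rw [dgF_eq, h4]
      simp only [Nat.add_sub_cancel, j.2, dif_pos]
  rw [h2]
  exact h1

/-- **Word counts** -/
theorem words : ∃ γ : ℝ, 0 < γ ∧ ∀ θ : ℝ, -1 ≤ θ → θ < 1 → θ ≠ 0 → ∀ x : ℝ, x ≠ 0 →
    ∀ δ : ℝ, 0 < δ → ∀ A : ℝ, 0 < A → ∀ b l : ℕ, 2 ≤ b → 1 ≤ l → ∃ C : ℝ, 0 < C ∧ ∃ N₀ : ℕ, ∀ N : ℕ, N₀ ≤ N →
      (({m : ℕ | N < m ∧ m ≤ 2 * N ∧ ∃ u L v : ℕ, v < b ^ l ∧ (N : ℝ) ^ δ ≤ (b : ℝ) ^ u * (N : ℝ) ^ θ ∧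
        ((u + L : ℕ) : ℝ) ≤ (Real.log N) ^ (1 + γ) ∧
        C * √(L * Real.log (Real.log N)) <
          |(((Ioc u (u + L)).filter fun i : ℕ => ⌊x * (m : ℝ) ^ θ * (b : ℝ) ^ i⌋ % ((b ^ l : ℕ) : ℤ) = v).card : ℝ)
            - L / (b : ℝ) ^ l|}.ncard : ℕ) : ℝ) ≤ N / (Real.log N) ^ A := by
  classical
  obtain ⟨γ₀, hγ0, hγ1, hkwi⟩ := kwi
  refine ⟨γ₀ / 2, by positivity, ?_⟩
  intro θ h1 h2 h3 x hx δ hδ A hA b l hb hl
  obtain ⟨N₁, hN₁⟩ := hkwi θ h1 h2 h3 (δ / 2) (by positivity)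
  obtain ⟨B, hBdef⟩ : ∃ B : ℕ, B = b ^ l := ⟨_, rfl⟩
  have hB2 : 2 ≤ B := by
    rw [hBdef]
    calc 2 = 2 ^ 1 := rfl
      _ ≤ b ^ 1 := Nat.pow_le_pow_left hb 1
      _ ≤ b ^ l := Nat.pow_le_pow_right (by omega) hl
  have hB1 : 1 ≤ B := by omega
  have hB0 : (0 : ℝ) < B := by exact_mod_cast hB1
  have hb0 : (0 : ℝ) < b := by exact_mod_cast (by omega : 0 < b)
  have hb1 : (1 : ℝ) ≤ b := by exact_mod_cast (by omega : 1 ≤ b)
  have hBR : (B : ℝ) = (b : ℝ) ^ l := by rw [hBdef]; push_cast; rfl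
  have hx0 : 0 < |x| := abs_pos.2 hx
  -- the constant
  obtain ⟨C₁, hC₁⟩ : ∃ C₁ : ℝ, C₁ = √(33 * (A + 7)) := ⟨_, rfl⟩
  have hC₁0 : 0 < C₁ := by rw [hC₁]; exact Real.sqrt_pos.2 (by positivity)
  have hC₁2 : C₁ ^ 2 = 33 * (A + 7) := by rw [hC₁]; exact Real.sq_sqrt (by positivity)
  -- eventual inequalities
  have hloglim : Tendsto Real.log atTop atTop := Real.tendsto_log_atTop
  have ev1 : ∀ᶠ y : ℝ in atTop, (A + 7) * (2 * Real.log y + 2 * Real.log B) * Real.log y ≤
      y ^ (3 / 4 : ℝ) / 2 := by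
    have t1 := (isLittleO_log_rpow_atTop (show (0 : ℝ) < 1 / 4 by norm_num)).bound
      (show (0 : ℝ) < 1 by norm_num)
    have t2 : ∀ᶠ y : ℝ in atTop, (8 * (A + 7)) * y ^ (1 / 2 : ℝ) ≤ y ^ (3 / 4 : ℝ) :=
      ev_pow _ _ _ (by norm_num)
    filter_upwards [t1, t2, eventually_ge_atTop 1, hloglim.eventually_ge_atTop (Real.log B),
      hloglim.eventually_ge_atTop 0] with y hy hy2 hy1 hy3 hy4
    have hy0 : 0 < y := by linarith
    rw [Real.norm_of_nonneg hy4, Real.norm_of_nonneg (by positivity), one_mul] at hy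
    have f1 : Real.log y * Real.log y ≤ y ^ (1 / 2 : ℝ) := by
      calc Real.log y * Real.log y ≤ y ^ (1 / 4 : ℝ) * y ^ (1 / 4 : ℝ) :=
            mul_le_mul hy hy hy4 (by positivity)
        _ = y ^ (1 / 2 : ℝ) := by rw [← Real.rpow_add hy0]; norm_num
    calc (A + 7) * (2 * Real.log y + 2 * Real.log B) * Real.log y ≤
          (A + 7) * (2 * Real.log y + 2 * Real.log y) * Real.log y := by gcongr
      _ = 4 * (A + 7) * (Real.log y * Real.log y) := by ring
      _ ≤ 4 * (A + 7) * y ^ (1 / 2 : ℝ) := by gcongr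
      _ ≤ _ := by linarith
  have ev2 : ∀ᶠ y : ℝ in atTop, 2 * ((A + 7) * Real.log y) ≤ y ^ (3 / 4 : ℝ) := by
    have t1 := (isLittleO_log_rpow_atTop (show (0 : ℝ) < 3 / 4 by norm_num)).bound
      (show (0 : ℝ) < 1 / (2 * (A + 7)) by positivity)
    filter_upwards [t1, eventually_ge_atTop 1] with y hy hy1
    rw [Real.norm_of_nonneg (Real.log_nonneg hy1), Real.norm_of_nonneg (by positivity)] at hy
    calc 2 * ((A + 7) * Real.log y) = 2 * (A + 7) * Real.log y := by ring
      _ ≤ 2 * (A + 7) * (1 / (2 * (A + 7)) * y ^ (3 / 4 : ℝ)) := by gcongr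
      _ = y ^ (3 / 4 : ℝ) := by field_simp
  have ev3 : ∀ᶠ y : ℝ in atTop, (A + 6) * Real.log y ≤ y ^ (3 / 4 : ℝ) / 2 := by
    have t1 := (isLittleO_log_rpow_atTop (show (0 : ℝ) < 3 / 4 by norm_num)).bound
      (show (0 : ℝ) < 1 / (2 * (A + 6)) by positivity)
    filter_upwards [t1, eventually_ge_atTop 1] with y hy hy1
    rw [Real.norm_of_nonneg (Real.log_nonneg hy1), Real.norm_of_nonneg (by positivity)] at hy
    calc (A + 6) * Real.log y ≤ (A + 6) * (1 / (2 * (A + 6)) * y ^ (3 / 4 : ℝ)) := by gcongr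
      _ = y ^ (3 / 4 : ℝ) / 2 := by field_simp
  have ev4 : ∀ᶠ y : ℝ in atTop, (Real.log |x| + 1 + Real.log b) * y ^ (1 : ℝ) ≤ y ^ (1 + γ₀ / 2) :=
    ev_pow _ _ _ (by linarith)
  have ev5 : ∀ᶠ y : ℝ in atTop, (2 + Real.log b) * y ^ (1 + γ₀ / 2) ≤ y ^ (1 + γ₀) :=
    ev_pow _ _ _ (by linarith)
  have ev6 : ∀ᶠ y : ℝ in atTop, 1 * y ^ (1 + γ₀ / 2) ≤ y ^ (2 : ℝ) :=
    ev_pow _ _ _ (by linarith)
  have ev7 : ∀ᶠ y : ℝ in atTop, 12 * (B : ℝ) ≤ y ^ (2 : ℝ) := by
    exact (tendsto_rpow_atTop (by norm_num : (0 : ℝ) < 2)).eventually_ge_atTop _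
  have ev8 : ∀ᶠ y : ℝ in atTop, Real.log (B / |x|) * (2 / δ) ≤ y := eventually_ge_atTop _
  have hlog : Tendsto (fun N : ℕ => Real.log N) atTop atTop :=
    Real.tendsto_log_atTop.comp tendsto_natCast_atTop_atTop
  have hev := hlog.eventually ((((ev1.and ev2).and (ev3.and ev4)).and ((ev5.and ev6).and (ev7.and ev8))).and
    ((eventually_ge_atTop 100).and (hloglim.eventually_ge_atTop 1)))
  obtain ⟨N₀, hN₀⟩ := eventually_atTop.1 (hev.and (eventually_ge_atTop (max N₁ 2)))
  refine ⟨l * C₁, by positivity, N₀, ?_⟩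
  intro N hN
  obtain ⟨⟨⟨⟨⟨q1, q2⟩, q3, q4⟩, ⟨q5, q6⟩, q7, q8⟩, q9, q10⟩, q11⟩ := hN₀ N hN
  obtain ⟨y, hy⟩ : ∃ y : ℝ, y = Real.log N := ⟨_, rfl⟩
  rw [← hy] at q1 q2 q3 q4 q5 q6 q7 q8 q9 q10 ⊢
  have hy0 : 0 < y := by linarith
  have hy1 : 1 ≤ y := by linarith
  have hN2 : 2 ≤ N := (le_max_right _ _).trans q11
  have hNN₁ : N₁ ≤ N := (le_max_left _ _).trans q11
  have hN0 : (0 : ℝ) < N := by exact_mod_cast (by omega : 0 < N)
  have hN1 : (1 : ℝ) ≤ N := by exact_mod_cast (by omega : 1 ≤ N)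
  have hNθ : 0 < (N : ℝ) ^ θ := Real.rpow_pos_of_pos hN0 _
  rw [Real.rpow_one] at q4
  rw [one_mul] at q6
  obtain ⟨Y, hY⟩ : ∃ Y : ℝ, Y = Real.log y := ⟨_, rfl⟩
  rw [← hY] at q1 q2 q3 q10 ⊢
  have hY0 : 0 < Y := by linarith
  have hyY : y = Real.exp Y := by rw [hY, Real.exp_log hy0]
  -- the parameter `k`
  obtain ⟨k, hk⟩ : ∃ k : ℕ, k = ⌈(A + 6) * Y⌉₊ := ⟨_, rfl⟩
  have hk1 : 1 ≤ k := by rw [hk]; exact Nat.one_le_ceil_iff.2 (by positivity)
  have hk0 : (0 : ℝ) < k := by exact_mod_cast hk1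
  have hkge : (A + 6) * Y ≤ k := by rw [hk]; exact Nat.le_ceil _
  have hkle : (k : ℝ) ≤ (A + 7) * Y := by
    have := Nat.ceil_lt_add_one (show 0 ≤ (A + 6) * Y by positivity)
    rw [← hk] at this
    nlinarith
  have h2k : (2 * k : ℝ) ≤ y ^ (3 / 4 : ℝ) := by linarith
  -- the amplitude
  let z : ℕ → ℝ := fun s => x * (b : ℝ) ^ s / B
  let g : ℕ → Fin B → ℝ := fun v d => (if (d : ℕ) = v then 1 else 0) - 1 / B
  have hg1 : ∀ v d, |g v d| ≤ 1 := by
    intro v d
    simp only [g]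
    have e1 : (1 : ℝ) / B ≤ 1 := by rw [div_le_one hB0]; exact_mod_cast hB1
    have e2 : (0 : ℝ) ≤ 1 / B := by positivity
    split_ifs
    · rw [abs_le]; constructor <;> linarith
    · rw [abs_le]; constructor <;> linarith
  have hg0 : ∀ v, v < B → ∑ d, g v d = 0 := by
    intro v hv
    simp only [g]
    rw [sum_sub_distrib, sum_const, card_univ, Fintype.card_fin, nsmul_eq_mul]
    have e1 : ∑ d : Fin B, (if (d : ℕ) = v then (1 : ℝ) else 0) = 1 := by
      rw [sum_eq_single (⟨v, hv⟩ : Fin B)]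
      · simp
      · intro d _ hd
        rw [if_neg]
        intro h
        apply hd
        ext; exact h
      · intro h; exact absurd (mem_univ _) h
    rw [e1]
    field_simp
    norm_num
  obtain ⟨M, hM⟩ : ∃ M : ℕ, M = ⌊y ^ (2 : ℝ)⌋₊ := ⟨_, rfl⟩
  have hMle : (M : ℝ) ≤ y ^ (2 : ℝ) := by rw [hM]; exact Nat.floor_le (by positivity)
  let dev : ℕ → ℕ → ℕ → ℕ → ℝ := fun s n' v n =>
    ∑ j : Fin n', g v (dgF B hB1 (z s * ((N + n : ℕ) : ℝ) ^ θ) ((j : ℕ) + 1))
  let Bad : ℕ → ℕ → ℕ → Finset ℕ := fun s n' v =>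
    if (1 ≤ n' ∧ (N : ℝ) ^ (δ / 2) ≤ |z s| * (N : ℝ) ^ θ ∧
      |z s| * (N : ℝ) ^ θ * (B : ℝ) ^ n' ≤ Real.exp (y ^ (1 + γ₀))) then
      (Ioc 0 N).filter fun n : ℕ => C₁ * √(n' * Y) < |dev s n' v n| else ∅
  have hbad : ∀ s ∈ range (M + 1), ∀ n' ∈ range (M + 1), ∀ v ∈ range B,
      ((Bad s n' v).card : ℝ) ≤ 3 * N * Real.exp (-((A + 6) * Y)) := by
    intro s _ n' hn' v hv
    rw [mem_range] at hn' hv
    simp only [Bad]
    split_ifs with hcond
    · obtain ⟨c0, c1, c2⟩ := hcond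
      have hn'0 : (0 : ℝ) < n' := by exact_mod_cast c0
      by_cases hkn : k ≤ n'
      · -- the large deviation bound
        have hpat := hN₁ N hNN₁ N le_rfl (z s) B n' hB2 c1 (by rw [← hy]; exact c2)
        rw [← hy] at hpat
        have hErr0 : 0 ≤ (N : ℝ) * Real.exp (-y ^ (3 / 4 : ℝ)) := by positivity
        have hpat2 := fun (I : Finset (Fin n')) (hI : I.card ≤ 2 * k) (w : Fin n' → Fin B) =>
          pat_fin B n' hB1 (Ioc 0 N) (fun n : ℕ => z s * ((N + n : ℕ) : ℝ) ^ θ) (y ^ (3 / 4 : ℝ)) _ (N : ℝ)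
            hpat I (le_trans (by exact_mod_cast hI) h2k) w
        have htail := tail_bound n' B k hB1 (Ioc 0 N)
          (fun n j => dgF B hB1 (z s * ((N + n : ℕ) : ℝ) ^ θ) ((j : ℕ) + 1)) (g v) (hg1 v) (hg0 v hv)
          hk1 hkn _ hErr0 (by
            intro I hI w
            have := hpat2 I hI w
            rw [Nat.card_Ioc, Nat.sub_zero]
            exact this) (C₁ * √(n' * Y)) (by positivity)
        rw [Nat.card_Ioc, Nat.sub_zero] at htail
        have hsub : ((Ioc 0 N).filter fun n : ℕ => C₁ * √(n' * Y) < |dev s n' v n|) ⊆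
            (Ioc 0 N).filter fun n : ℕ => C₁ * √(n' * Y) ≤
              |∑ j : Fin n', g v (dgF B hB1 (z s * ((N + n : ℕ) : ℝ) ^ θ) ((j : ℕ) + 1))| := by
          intro n hn
          rw [mem_filter] at hn ⊢
          exact ⟨hn.1, hn.2.le⟩
        have hc := card_le_card hsub
        refine le_trans (by exact_mod_cast hc) (htail.trans ?_)
        have hτ : (C₁ * √(n' * Y)) ^ (2 * k) = (C₁ ^ 2 * (n' * Y)) ^ k := by
          rw [pow_mul, mul_pow, Real.sq_sqrt (by positivity)]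
        rw [hτ, hC₁2, add_div]
        have hn'M : (n' : ℝ) ≤ y ^ (2 : ℝ) := by
          have : (n' : ℝ) ≤ M := by exact_mod_cast (by omega : n' ≤ M)
          linarith
        have p1 : (N : ℝ) * (2 * (11 * k * n') ^ k) / (33 * (A + 7) * (n' * Y)) ^ k ≤
            2 * N * Real.exp (-((A + 6) * Y)) := by
          have e1 : (N : ℝ) * (2 * (11 * k * n') ^ k) / (33 * (A + 7) * (n' * Y)) ^ k =
              2 * N * ((11 * k * n') / (33 * (A + 7) * (n' * Y))) ^ k := by rw [div_pow]; ring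
          rw [e1]
          have e2 : (11 * k * n') / (33 * (A + 7) * (n' * Y)) ≤ Real.exp (-1) := by
            have e3 : (11 * k * n') / (33 * (A + 7) * (n' * Y)) ≤ 1 / 3 := by
              rw [div_le_div_iff₀ (by positivity) (by norm_num)]
              have : (k : ℝ) * n' ≤ (A + 7) * Y * n' := by gcongr
              nlinarith
            have e4 : (1 : ℝ) / 3 ≤ Real.exp (-1) := by
              rw [Real.exp_neg, one_div]
              apply inv_anti₀ (Real.exp_pos _)
              have := Real.exp_one_lt_d9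
              linarith
            exact e3.trans e4
          have e5 : ((11 * k * n') / (33 * (A + 7) * (n' * Y))) ^ k ≤ Real.exp (-((A + 6) * Y)) := by
            calc ((11 * k * n') / (33 * (A + 7) * (n' * Y))) ^ k ≤ Real.exp (-1) ^ k :=
                  pow_le_pow_left₀ (by positivity) e2 _
              _ = Real.exp (-k) := by rw [← Real.exp_nat_mul]; congr 1; ring
              _ ≤ _ := Real.exp_le_exp.2 (by linarith)
          gcongr
        have p2 : ((n' : ℝ) * B) ^ (2 * k) * (N * Real.exp (-y ^ (3 / 4 : ℝ))) /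
            (33 * (A + 7) * (n' * Y)) ^ k ≤ N * Real.exp (-((A + 6) * Y)) := by
          have e1 : ((n' : ℝ) * B) ^ (2 * k) * (N * Real.exp (-y ^ (3 / 4 : ℝ))) /
              (33 * (A + 7) * (n' * Y)) ^ k = N * Real.exp (-y ^ (3 / 4 : ℝ)) *
                (((n' : ℝ) * B) ^ 2 / (33 * (A + 7) * (n' * Y))) ^ k := by
            rw [div_pow, pow_mul]; ring
          rw [e1]
          have e2 : ((n' : ℝ) * B) ^ 2 / (33 * (A + 7) * (n' * Y)) ≤ Real.exp (2 * Y + 2 * Real.log B) := by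
            have e3 : ((n' : ℝ) * B) ^ 2 / (33 * (A + 7) * (n' * Y)) ≤ n' * B ^ 2 := by
              rw [div_le_iff₀ (by positivity)]
              have e4 : (1 : ℝ) ≤ 33 * (A + 7) * Y := by nlinarith
              have e5 : (0 : ℝ) ≤ n' ^ 2 * B ^ 2 := by positivity
              nlinarith
            have e4 : Real.exp (2 * Y + 2 * Real.log B) = y ^ (2 : ℝ) * B ^ 2 := by
              rw [Real.exp_add, Real.rpow_def_of_pos hy0, ← hY]
              congr 1
              · congr 1; ring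
              · rw [show 2 * Real.log B = ((2 : ℕ) : ℝ) * Real.log B by push_cast; ring, Real.exp_nat_mul,
                  Real.exp_log hB0]
            rw [e4]
            refine e3.trans ?_
            gcongr
          have hlogB : 0 ≤ Real.log B := Real.log_natCast_nonneg B
          have e3 : (((n' : ℝ) * B) ^ 2 / (33 * (A + 7) * (n' * Y))) ^ k ≤ Real.exp (y ^ (3 / 4 : ℝ) / 2) := by
            calc (((n' : ℝ) * B) ^ 2 / (33 * (A + 7) * (n' * Y))) ^ k ≤
                  Real.exp (2 * Y + 2 * Real.log B) ^ k := pow_le_pow_left₀ (by positivity) e2 _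
              _ = Real.exp (k * (2 * Y + 2 * Real.log B)) := by rw [← Real.exp_nat_mul]
              _ ≤ Real.exp (y ^ (3 / 4 : ℝ) / 2) := by
                  apply Real.exp_le_exp.2
                  calc (k : ℝ) * (2 * Y + 2 * Real.log B) ≤ ((A + 7) * Y) * (2 * Y + 2 * Real.log B) := by
                        gcongr
                    _ = (A + 7) * (2 * Y + 2 * Real.log B) * Y := by ring
                    _ ≤ _ := q1
          calc (N : ℝ) * Real.exp (-y ^ (3 / 4 : ℝ)) *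
                (((n' : ℝ) * B) ^ 2 / (33 * (A + 7) * (n' * Y))) ^ k ≤
                N * Real.exp (-y ^ (3 / 4 : ℝ)) * Real.exp (y ^ (3 / 4 : ℝ) / 2) := by gcongr
            _ = N * Real.exp (-y ^ (3 / 4 : ℝ) + y ^ (3 / 4 : ℝ) / 2) := by rw [mul_assoc, ← Real.exp_add]
            _ ≤ N * Real.exp (-((A + 6) * Y)) := by
                apply mul_le_mul_of_nonneg_left _ hN0.le
                apply Real.exp_le_exp.2; linarith
        linarith
      · -- few digits
        push Not at hkn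
        have hempty : ((Ioc 0 N).filter fun n : ℕ => C₁ * √(n' * Y) < |dev s n' v n|) = ∅ := by
          rw [filter_eq_empty_iff]
          intro n _
          push Not
          have e1 : |dev s n' v n| ≤ n' := by
            simp only [dev]
            refine (abs_sum_le_sum_abs _ _).trans ?_
            refine (sum_le_sum fun j _ => hg1 v _).trans ?_
            simp
          have e2 : (n' : ℝ) ≤ C₁ * √(n' * Y) := by
            have e3 : (n' : ℝ) = √(n' * n') := (Real.sqrt_mul_self hn'0.le).symm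
            have e4 : C₁ * √(n' * Y) = √(C₁ ^ 2 * (n' * Y)) := by
              rw [Real.sqrt_mul (sq_nonneg C₁) (n' * Y), Real.sqrt_sq hC₁0.le]
            rw [e4]
            nth_rw 1 [e3]
            apply Real.sqrt_le_sqrt
            rw [hC₁2]
            have e5 : (n' : ℝ) ≤ k := by exact_mod_cast hkn.le
            have e6 : (n' : ℝ) * n' ≤ n' * ((A + 7) * Y) := by
              apply mul_le_mul_of_nonneg_left _ hn'0.le
              linarith
            have e7 : 0 ≤ (n' : ℝ) * ((A + 7) * Y) := by positivity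
            nlinarith
          linarith
        rw [hempty, card_empty, Nat.cast_zero]
        positivity
    · rw [card_empty, Nat.cast_zero]
      positivity
  set T : Finset ℕ := (range (M + 1)).biUnion fun s => (range (M + 1)).biUnion fun n' =>
    (range B).biUnion fun v => Bad s n' v with hT
  have hsub : {m : ℕ | N < m ∧ m ≤ 2 * N ∧ ∃ u L v : ℕ, v < b ^ l ∧
        (N : ℝ) ^ δ ≤ (b : ℝ) ^ u * (N : ℝ) ^ θ ∧ ((u + L : ℕ) : ℝ) ≤ y ^ (1 + γ₀ / 2) ∧
        l * C₁ * √(L * Y) <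
          |(((Ioc u (u + L)).filter fun i : ℕ => ⌊x * (m : ℝ) ^ θ * (b : ℝ) ^ i⌋ % ((b ^ l : ℕ) : ℤ) = v).card : ℝ)
            - L / (b : ℝ) ^ l|} ⊆ ((T.image fun n => N + n : Finset ℕ) : Set ℕ) := by
    rintro m ⟨a1, a2, u, L, v, a3, a4, a5, a6⟩
    rw [Finset.mem_coe, mem_image]
    refine ⟨m - N, ?_, by omega⟩
    by_contra hcon
    apply absurd a6
    push Not
    rw [← hBdef] at a3
    -- the classes
    have hnN : m - N ∈ Ioc 0 N := by rw [mem_Ioc]; omega
    have hmN : N + (m - N) = m := by omega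
    let f : ℕ → ℝ := fun t => (if ⌊x * (m : ℝ) ^ θ * (b : ℝ) ^ (u + 1 + t)⌋ % ((b ^ l : ℕ) : ℤ) = v
      then 1 else 0) - 1 / (b : ℝ) ^ l
    have e1 : (((Ioc u (u + L)).filter fun i : ℕ => ⌊x * (m : ℝ) ^ θ * (b : ℝ) ^ i⌋ %
        ((b ^ l : ℕ) : ℤ) = v).card : ℝ) - L / (b : ℝ) ^ l = ∑ t ∈ range L, f t := by
      simp only [f]
      rw [sum_sub_distrib, sum_const, card_range, nsmul_eq_mul, mul_one_div, card_filter]
      push_cast
      congr 1
      have e2 : Ioc u (u + L) = Ico (u + 1) (u + 1 + L) := by ext a; rw [mem_Ioc, mem_Ico]; omega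
      rw [e2, sum_Ico_eq_sum_range, Nat.add_sub_cancel_left]
    rw [e1, sum_classes L l hl f]
    refine (abs_sum_le_sum_abs _ _).trans ?_
    have e2 : ∀ r ∈ range l, |∑ q ∈ range ((L + l - 1 - r) / l), f (r + l * q)| ≤ C₁ * √(L * Y) := by
      intro r hr
      rw [mem_range] at hr
      obtain ⟨n', hn'⟩ : ∃ n' : ℕ, n' = (L + l - 1 - r) / l := ⟨_, rfl⟩
      rw [← hn']
      rcases Nat.eq_zero_or_pos n' with h0 | hpos
      · rw [h0]
        simp only [range_zero, sum_empty, abs_zero]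
        positivity
      · have hlt : n' - 1 < (L + l - 1 - r) / l := by omega
        rw [Nat.lt_div_iff_mul_lt hl] at hlt
        have hlt' : r + l * (n' - 1) < L := by
          have : l * (n' - 1) = (n' - 1) * l := mul_comm _ _
          omega
        have hrL : r < L := by omega
        have hn'L : n' ≤ L := by
          have : n' - 1 ≤ l * (n' - 1) := Nat.le_mul_of_pos_left _ hl
          omega
        obtain ⟨s, hs⟩ : ∃ s : ℕ, s = u + 1 + r := ⟨_, rfl⟩
        have hsum : ∑ q ∈ range n', f (r + l * q) = dev s n' v (m - N) := by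
          simp only [dev, f]
          rw [← Fin.sum_univ_eq_sum_range (fun q => (if ⌊x * (m : ℝ) ^ θ * (b : ℝ) ^ (u + 1 + (r + l * q))⌋ %
            ((b ^ l : ℕ) : ℤ) = v then (1 : ℝ) else 0) - 1 / (b : ℝ) ^ l)]
          refine sum_congr rfl fun j _ => ?_
          simp only [g]
          rw [hBR]
          congr 1
          refine if_congr ?_ rfl rfl
          have e3 := dgF_eq B hB1 (z s * ((N + (m - N) : ℕ) : ℝ) ^ θ) ((j : ℕ) + 1) ⟨v, a3⟩
          rw [Fin.ext_iff] at e3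
          simp only at e3
          rw [e3]
          unfold dg
          rw [hmN]
          have e4 : z s * (m : ℝ) ^ θ * (B : ℝ) ^ ((j : ℕ) + 1) =
              x * (m : ℝ) ^ θ * (b : ℝ) ^ (u + 1 + (r + l * (j : ℕ))) := by
            simp only [z]
            rw [hs, pow_succ, hBR]
            have e5 : ((b : ℝ) ^ l) ^ (j : ℕ) = (b : ℝ) ^ (l * (j : ℕ)) := by rw [← pow_mul]
            rw [e5]
            have e6 : (b : ℝ) ^ (u + 1 + (r + l * (j : ℕ))) = (b : ℝ) ^ (u + 1 + r) *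
                (b : ℝ) ^ (l * (j : ℕ)) := by rw [← pow_add]; congr 1; ring
            rw [e6]
            field_simp
          rw [e4, ← hBdef]
        rw [hsum]
        by_contra hcon2
        push Not at hcon2
        apply hcon
        rw [hT, mem_biUnion]
        have hsu : s ≤ u + L := by omega
        have huL : ((u + L : ℕ) : ℝ) ≤ y ^ (2 : ℝ) := a5.trans q6
        have huLM : u + L ≤ M := by
          rw [hM]; exact Nat.le_floor huL
        refine ⟨s, by rw [mem_range]; omega, ?_⟩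
        rw [mem_biUnion]
        refine ⟨n', by rw [mem_range]; omega, ?_⟩
        rw [mem_biUnion]
        refine ⟨v, mem_range.2 a3, ?_⟩
        simp only [Bad]
        have hzs : |z s| = |x| * (b : ℝ) ^ s / B := by
          simp only [z]
          rw [abs_div, abs_mul, abs_of_pos hB0, abs_of_pos (by positivity : (0 : ℝ) < (b : ℝ) ^ s)]
        rw [if_pos]
        · rw [mem_filter]
          refine ⟨hnN, lt_of_le_of_lt ?_ hcon2⟩
          have : (n' : ℝ) ≤ L := by exact_mod_cast hn'L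
          gcongr
        · refine ⟨hpos, ?_, ?_⟩
          · rw [hzs]
            have g1 : (N : ℝ) ^ δ = (N : ℝ) ^ (δ / 2) * (N : ℝ) ^ (δ / 2) := by
              rw [← Real.rpow_add hN0]; congr 1; ring
            have g2 : (B : ℝ) / |x| ≤ (N : ℝ) ^ (δ / 2) := by
              rw [Real.rpow_def_of_pos hN0, ← hy, ← Real.exp_log (show 0 < (B : ℝ) / |x| by positivity)]
              apply Real.exp_le_exp.2
              have g3 := mul_le_mul_of_nonneg_right q8 (by positivity : 0 ≤ δ / 2)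
              have g4 : Real.log (B / |x|) * (2 / δ) * (δ / 2) = Real.log (B / |x|) := by field_simp
              rw [g4] at g3
              exact g3
            have g3 : (b : ℝ) ^ u ≤ (b : ℝ) ^ s := pow_le_pow_right₀ hb1 (by omega)
            have g4 : (N : ℝ) ^ δ ≤ (b : ℝ) ^ s * (N : ℝ) ^ θ := a4.trans (by gcongr)
            have g5 : 0 < (N : ℝ) ^ (δ / 2) := Real.rpow_pos_of_pos hN0 _
            rw [g1] at g4
            have g6 : (N : ℝ) ^ (δ / 2) * (B / |x|) ≤ (b : ℝ) ^ s * (N : ℝ) ^ θ :=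
              (mul_le_mul_of_nonneg_left g2 g5.le).trans g4
            calc (N : ℝ) ^ (δ / 2) = (N : ℝ) ^ (δ / 2) * (B / |x|) * (|x| / B) := by field_simp
              _ ≤ (b : ℝ) ^ s * (N : ℝ) ^ θ * (|x| / B) := by gcongr
              _ = _ := by ring
          · rw [hzs]
            have g1 : |x| * (b : ℝ) ^ s / B * (N : ℝ) ^ θ * (B : ℝ) ^ n' =
                |x| * (N : ℝ) ^ θ * (b : ℝ) ^ (s + l * (n' - 1)) := by
              have g2 : (B : ℝ) ^ n' = B * (b : ℝ) ^ (l * (n' - 1)) := by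
                rw [pow_mul, ← hBR, ← pow_succ']
                congr 1; omega
              rw [g2, pow_add]
              field_simp
            rw [g1]
            have g2 : (b : ℝ) ^ (s + l * (n' - 1)) ≤ Real.exp (y ^ (1 + γ₀ / 2) * Real.log b) := by
              have g3 : (b : ℝ) ^ (s + l * (n' - 1)) = Real.exp (((s + l * (n' - 1) : ℕ) : ℝ) * Real.log b) := by
                rw [Real.exp_nat_mul, Real.exp_log hb0]
              rw [g3]
              apply Real.exp_le_exp.2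
              apply mul_le_mul_of_nonneg_right _ (Real.log_nonneg hb1)
              refine le_trans ?_ a5
              exact_mod_cast (by omega : s + l * (n' - 1) ≤ u + L)
            have g3 : (N : ℝ) ^ θ ≤ Real.exp y := by
              rw [Real.rpow_def_of_pos hN0, ← hy]
              apply Real.exp_le_exp.2
              nlinarith
            have g4 : |x| = Real.exp (Real.log |x|) := (Real.exp_log hx0).symm
            calc |x| * (N : ℝ) ^ θ * (b : ℝ) ^ (s + l * (n' - 1)) ≤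
                  |x| * Real.exp y * Real.exp (y ^ (1 + γ₀ / 2) * Real.log b) := by gcongr
              _ = Real.exp (Real.log |x| + y + y ^ (1 + γ₀ / 2) * Real.log b) := by
                  rw [Real.exp_add, Real.exp_add, ← g4]
              _ ≤ Real.exp (y ^ (1 + γ₀)) := by
                  apply Real.exp_le_exp.2
                  have g5 : 0 ≤ Real.log b := Real.log_nonneg hb1
                  have g6 : 1 ≤ y ^ (1 + γ₀ / 2) := Real.one_le_rpow hy1 (by linarith)
                  have g7 : Real.log |x| + y ≤ (2 : ℝ) * y ^ (1 + γ₀ / 2) := by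
                    have g8 : (Real.log |x| + 1 + Real.log b) * y ≤ y ^ (1 + γ₀ / 2) := q4
                    rcases le_total 0 (Real.log |x|) with hle | hle
                    · have : Real.log |x| ≤ Real.log |x| * y := le_mul_of_one_le_right hle hy1
                      have : 0 ≤ Real.log b * y := by positivity
                      nlinarith
                    · have g9 : y ≤ y ^ (1 + γ₀ / 2) := by
                        calc y = y ^ (1 : ℝ) := (Real.rpow_one y).symm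
                          _ ≤ _ := Real.rpow_le_rpow_of_exponent_le hy1 (by linarith)
                      linarith
                  linarith
    refine (sum_le_sum e2).trans ?_
    rw [sum_const, card_range, nsmul_eq_mul]
    apply le_of_eq; ring
  have hcard := Set.ncard_le_ncard hsub (Finset.finite_toSet _)
  rw [Set.ncard_coe_finset] at hcard
  have hTcard : (T.card : ℝ) ≤ ∑ s ∈ range (M + 1), ∑ n' ∈ range (M + 1), ∑ v ∈ range B,
      3 * N * Real.exp (-((A + 6) * Y)) := by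
    have g1 : T.card ≤ ∑ s ∈ range (M + 1), ∑ n' ∈ range (M + 1), ∑ v ∈ range B, (Bad s n' v).card :=
      card_biUnion_le.trans (sum_le_sum fun s _ => card_biUnion_le.trans
        (sum_le_sum fun n' _ => card_biUnion_le))
    have g2 : (T.card : ℝ) ≤ ∑ s ∈ range (M + 1), ∑ n' ∈ range (M + 1), ∑ v ∈ range B,
        ((Bad s n' v).card : ℝ) := by exact_mod_cast g1
    exact g2.trans (sum_le_sum fun s hs => sum_le_sum fun n' hn' => sum_le_sum fun v hv =>
      hbad s hs n' hn' v hv)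
  have hfin : (({m : ℕ | N < m ∧ m ≤ 2 * N ∧ ∃ u L v : ℕ, v < b ^ l ∧
        (N : ℝ) ^ δ ≤ (b : ℝ) ^ u * (N : ℝ) ^ θ ∧ ((u + L : ℕ) : ℝ) ≤ y ^ (1 + γ₀ / 2) ∧
        l * C₁ * √(L * Y) <
          |(((Ioc u (u + L)).filter fun i : ℕ => ⌊x * (m : ℝ) ^ θ * (b : ℝ) ^ i⌋ % ((b ^ l : ℕ) : ℤ) = v).card : ℝ)
            - L / (b : ℝ) ^ l|}.ncard : ℕ) : ℝ) ≤ T.card := by
    have := hcard.trans card_image_le
    exact_mod_cast this
  refine hfin.trans (hTcard.trans ?_)
  simp only [sum_const, card_range, nsmul_eq_mul]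
  have g1 : ((M + 1 : ℕ) : ℝ) ≤ 2 * y ^ (2 : ℝ) := by
    have : 1 ≤ y ^ (2 : ℝ) := Real.one_le_rpow hy1 (by norm_num)
    push_cast; linarith
  have g2 : Real.exp (-((A + 6) * Y)) = 1 / (y ^ A * (y ^ (2 : ℝ)) ^ 3) := by
    rw [Real.rpow_def_of_pos hy0, Real.rpow_def_of_pos hy0, ← hY, ← Real.exp_nat_mul, ← Real.exp_add,
      Real.exp_neg, one_div]
    congr 2; push_cast; ring
  rw [g2]
  have hyA : 0 < y ^ A := Real.rpow_pos_of_pos hy0 _
  have hy2 : 0 < y ^ (2 : ℝ) := Real.rpow_pos_of_pos hy0 _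
  calc ((M + 1 : ℕ) : ℝ) * (((M + 1 : ℕ) : ℝ) * ((B : ℝ) * (3 * N * (1 / (y ^ A * (y ^ (2 : ℝ)) ^ 3))))) ≤
        (2 * y ^ (2 : ℝ)) * ((2 * y ^ (2 : ℝ)) * ((B : ℝ) * (3 * N * (1 / (y ^ A * (y ^ (2 : ℝ)) ^ 3))))) := by
        gcongr
    _ = (12 * B) * (N / (y ^ A * y ^ (2 : ℝ))) := by field_simp; ring
    _ ≤ y ^ (2 : ℝ) * (N / (y ^ A * y ^ (2 : ℝ))) := by gcongr
    _ = N / y ^ A := by field_simp

end Pool.Agent.Helper478.Kwise
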