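import Pool.Agent.Helper478_Kwise.D
import Pool.Agent.Helper478_Kwise.F

/-!
# The central limit theorem for digits in windows
-/

set_option autoImplicit false

namespace Pool.Agent.Helper478.Kwise

open Finset Filter Topology
open Pool.Agent.Helper478.Surds (ev_pow)

lemma phi_zero (b : ℕ) (hb : 1 ≤ b) (g : Fin b → ℝ) : phi b g 0 = 1 := by
  have hb0 : (b : ℂ) ≠ 0 := by exact_mod_cast (by omega : b ≠ 0)
  unfold phi
  simp only [zero_mul, Complex.ofReal_zero, mul_zero, Complex.exp_zero, sum_const, card_univ,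
    Fintype.card_fin, nsmul_eq_mul, mul_one]
  field_simp

/-- the window as a set of indices -/
def win (T u n : ℕ) : Finset (Fin T) := univ.filter fun j => u ≤ (j : ℕ) ∧ (j : ℕ) < u + n

lemma win_card (T u n : ℕ) (h : u + n ≤ T) : (win T u n).card = n := by
  have h1 : (win T u n).map Fin.valEmbedding = Ico u (u + n) := by
    ext a
    rw [Finset.mem_map, mem_Ico]
    constructor
    · rintro ⟨j, hj, rfl⟩
      simp only [win, mem_filter, mem_univ, true_and] at hj
      exact hj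
    · intro ha
      refine ⟨⟨a, by omega⟩, ?_, rfl⟩
      simp only [win, mem_filter, mem_univ, true_and]
      exact ha
  rw [← card_map Fin.valEmbedding, h1, Nat.card_Ico]
  omega

/-- the weights -/
noncomputable def wt {ι : Type} [Fintype ι] (T : ℕ) (u n : ι → ℕ) (a : ι → ℝ) (j : Fin T) : ℝ :=
  ∑ i, if j ∈ win T (u i) (n i) then a i else 0

lemma wt_cases {ι : Type} [Fintype ι] (T : ℕ) (u n : ι → ℕ)
    (hdis : ∀ i i', i ≠ i' → u i + n i ≤ u i' ∨ u i' + n i' ≤ u i) (a : ι → ℝ) (j : Fin T) :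
    (wt T u n a j = 0 ∧ ∀ i, j ∉ win T (u i) (n i)) ∨
      ∃ i, j ∈ win T (u i) (n i) ∧ wt T u n a j = a i ∧ ∀ i', i' ≠ i → j ∉ win T (u i') (n i') := by
  classical
  by_cases h : ∃ i, j ∈ win T (u i) (n i)
  · right
    obtain ⟨i, hi⟩ := h
    have h1 : ∀ i', i' ≠ i → j ∉ win T (u i') (n i') := by
      intro i' hne hi'
      simp only [win, mem_filter, mem_univ, true_and] at hi hi'
      rcases hdis i' i hne with h2 | h2 <;> omega
    refine ⟨i, hi, ?_, h1⟩
    unfold wt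
    rw [sum_eq_single i]
    · rw [if_pos hi]
    · intro i' _ hne
      rw [if_neg (h1 i' hne)]
    · intro h2; exact absurd (mem_univ i) h2
  · left
    push Not at h
    refine ⟨?_, h⟩
    unfold wt
    exact sum_eq_zero fun i _ => if_neg (h i)

/-- **the central limit theorem in windows**, abstract form -/
theorem clt_abs {ι : Type} [Fintype ι] (b : ℕ) (hb : 1 ≤ b) (g : Fin b → ℝ) (hg0 : ∑ d, g d = 0)
    (hg1 : ∑ d, g d ^ 2 = b) (S : ℕ → Finset ℕ) (hS : ∀ N, (S N).Nonempty) (T : ℕ → ℕ)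
    (X : ∀ N, ℕ → Fin (T N) → Fin b) (u n : ℕ → ι → ℕ)
    (hT : ∀ᶠ N in atTop, ∀ i, u N i + n N i ≤ T N)
    (hdis : ∀ᶠ N in atTop, ∀ i i', i ≠ i' → u N i + n N i ≤ u N i' ∨ u N i' + n N i' ≤ u N i)
    (hn : ∀ i, Tendsto (fun N => n N i) atTop atTop) (k : ℕ → ℕ) (hk : Tendsto k atTop atTop)
    (Err : ℕ → ℝ) (hErr : ∀ N, 0 ≤ Err N)
    (hpat : ∀ᶠ N in atTop, ∀ I : Finset (Fin (T N)), I.card ≤ 2 * k N → ∀ w : Fin (T N) → Fin b,
      |(((S N).filter fun s => ∀ i ∈ I, X N s i = w i).card : ℝ) - (S N).card / (b : ℝ) ^ I.card| ≤ Err N)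
    (hsum : Tendsto (fun N => ∑ j ∈ range (2 * k N + 1), ((T N : ℝ) * b) ^ j * Err N / (S N).card)
      atTop (𝓝 0)) (x : ι → ℝ) :
    Tendsto (fun N => (((S N).filter fun s => ∀ i,
      (∑ j ∈ win (T N) (u N i) (n N i), g (X N s j)) / √(n N i) ≤ x i).card : ℝ) / (S N).card)
      atTop (𝓝 (∏ i, (ProbabilityTheory.gaussianReal 0 1).real (Set.Iic (x i)))) := by
  classical
  apply Pool.Agent.R421.EK.law_of S hS (fun N s i =>
    (∑ j ∈ win (T N) (u N i) (n N i), g (X N s j)) / √(n N i))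
  intro θ
  have hb0 : (0 : ℝ) < b := by exact_mod_cast hb
  -- the bound for `g`
  obtain ⟨K, hK⟩ : ∃ K : ℝ, K = ∑ d, |g d| := ⟨_, rfl⟩
  have hgK : ∀ d, |g d| ≤ K := by
    intro d
    rw [hK]
    exact single_le_sum (f := fun d => |g d|) (fun _ _ => abs_nonneg _) (mem_univ d)
  have hK0 : 0 ≤ K := by rw [hK]; exact sum_nonneg fun _ _ => abs_nonneg _
  let a : ℕ → ι → ℝ := fun N i => θ i / √(n N i)
  let c : ∀ N, Fin (T N) → ℝ := fun N => wt (T N) (u N) (n N) (a N)
  let V : ℝ := K ^ 2 * ∑ i, θ i ^ 2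
  have hlin : ∀ N s, ∑ i, θ i * ((∑ j ∈ win (T N) (u N i) (n N i), g (X N s j)) / √(n N i)) =
      ∑ j, c N j * g (X N s j) := by
    intro N s
    simp only [c, wt, a]
    simp_rw [sum_mul]
    rw [sum_comm]
    refine sum_congr rfl fun i _ => ?_
    rw [mul_div_assoc', mul_sum, sum_div]
    have : ∀ j ∈ univ, (if j ∈ win (T N) (u N i) (n N i) then θ i / √(n N i) else 0) * g (X N s j) =
        if j ∈ win (T N) (u N i) (n N i) then θ i * g (X N s j) / √(n N i) else 0 := by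
      intro j _
      split_ifs
      · ring
      · ring
    rw [sum_congr rfl this, ← sum_filter]
    refine sum_congr ?_ fun _ _ => rfl
    ext j
    simp
  -- the eventual smallness
  have hn1 : ∀ᶠ N in atTop, ∀ i, 1 ≤ n N i := by
    rw [eventually_all]
    exact fun i => (hn i).eventually_ge_atTop 1
  have ha0 : ∀ i, Tendsto (fun N => a N i) atTop (𝓝 0) := by
    intro i
    have h1 : Tendsto (fun N => √((n N i : ℕ) : ℝ)) atTop atTop :=
      Real.tendsto_sqrt_atTop.comp (tendsto_natCast_atTop_atTop.comp (hn i))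
    exact h1.const_div_atTop _
  have ha1 : ∀ᶠ N in atTop, ∀ i, 2 * (|a N i| * K) ≤ 1 := by
    rw [eventually_all]
    intro i
    have h1 : Tendsto (fun N => 2 * (|a N i| * K)) atTop (𝓝 0) := by
      have := (((ha0 i).abs).mul_const K).const_mul 2
      simpa using this
    exact (h1.eventually_lt_const (by norm_num : (0 : ℝ) < 1)).mono fun _ h => h.le
  -- the model
  have hmodel : ∀ᶠ N in atTop, 1 / (b : ℂ) ^ (T N) * ∑ w : Fin (T N) → Fin b,
      Complex.exp (Complex.I * ((∑ i, (fun j d => c N j * g d) i (w i) : ℝ) : ℂ)) =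
      ∏ i, phi b g (a N i) ^ (n N i) := by
    filter_upwards [hT, hdis] with N h1 h2
    have h3 := model_prod (T N) b (fun j d => Complex.exp (Complex.I * ((c N j * g d : ℝ) : ℂ)))
    have h4 : ∀ w : Fin (T N) → Fin b, Complex.exp (Complex.I * ((∑ i, (fun j d => c N j * g d) i (w i) : ℝ) : ℂ)) =
        ∏ i, Complex.exp (Complex.I * ((c N i * g (w i) : ℝ) : ℂ)) := by
      intro w
      rw [← Complex.exp_sum]
      congr 1
      push_cast
      rw [mul_sum]
    simp_rw [h4]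
    rw [h3]
    have h5 : ∀ j : Fin (T N), 1 / (b : ℂ) * ∑ d, Complex.exp (Complex.I * ((c N j * g d : ℝ) : ℂ)) =
        ∏ i, if j ∈ win (T N) (u N i) (n N i) then phi b g (a N i) else 1 := by
      intro j
      change phi b g (c N j) = _
      rcases wt_cases (T N) (u N) (n N) h2 (a N) j with ⟨e1, e2⟩ | ⟨i, e1, e2, e3⟩
      · simp only [c]
        rw [e1, phi_zero b hb, prod_eq_one]
        intro i _
        rw [if_neg (e2 i)]
      · simp only [c]
        rw [e2, prod_eq_single i]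
        · rw [if_pos e1]
        · intro i' _ hne
          rw [if_neg (e3 i' hne)]
        · intro h; exact absurd (mem_univ i) h
    simp_rw [h5]
    rw [Finset.prod_comm]
    refine prod_congr rfl fun i _ => ?_
    rw [← prod_filter, prod_const]
    congr 1
    rw [filter_mem_eq_inter, univ_inter, win_card _ _ _ (h1 i)]
  have hlim : Tendsto (fun N => ∏ i, phi b g (a N i) ^ (n N i)) atTop
      (𝓝 (((Real.exp (-(∑ i, θ i ^ 2) / 2) : ℝ) : ℂ))) := by
    have h1 : (((Real.exp (-(∑ i, θ i ^ 2) / 2) : ℝ) : ℂ)) = ∏ i, Complex.exp (-(θ i : ℂ) ^ 2 / 2) := by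
      rw [← Complex.exp_sum, Complex.ofReal_exp]
      congr 1
      push_cast
      rw [← sum_neg_distrib, sum_div]
    rw [h1]
    refine tendsto_finsetProd _ fun i _ => ?_
    exact (phi_pow b hb g hg0 hg1 (θ i)).comp (hn i)
  -- the comparison
  have hcmp : Tendsto (fun N => (∑ t ∈ S N, Complex.exp (((∑ i, θ i *
      ((∑ j ∈ win (T N) (u N i) (n N i), g (X N t j)) / √(n N i)) : ℝ) : ℂ) * Complex.I)) /
      ((S N).card : ℂ) - ∏ i, phi b g (a N i) ^ (n N i)) atTop (𝓝 0) := by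
    rw [tendsto_zero_iff_norm_tendsto_zero]
    have hup : Tendsto (fun N => ∑ j ∈ range (2 * k N + 1), ((T N : ℝ) * b) ^ j * Err N / (S N).card +
        4 / 4 ^ (k N) * Real.exp (4 * V)) atTop (𝓝 0) := by
      have h1 : Tendsto (fun N => (4 : ℝ) / 4 ^ (k N) * Real.exp (4 * V)) atTop (𝓝 0) := by
        have h2 : Tendsto (fun m : ℕ => (4 : ℝ) / 4 ^ m * Real.exp (4 * V)) atTop (𝓝 0) := by
          have h3 : Tendsto (fun m : ℕ => (4 : ℝ) ^ m) atTop atTop :=
            tendsto_pow_atTop_atTop_of_one_lt (by norm_num)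
          have := (h3.const_div_atTop 4).mul_const (Real.exp (4 * V))
          simpa using this
        exact h2.comp hk
      simpa using hsum.add h1
    refine squeeze_zero' (Eventually.of_forall fun _ => norm_nonneg _) ?_ hup
    filter_upwards [hT, hdis, hn1, ha1, hpat, hmodel] with N h1 h2 h3 h4 h5 h6
    have h7 := char_close (T N) b (k N) hb (S N) (hS N) (X N) (fun j d => c N j * g d)
      (fun j => |c N j| * K) (fun j d => by
        rw [abs_mul]
        exact mul_le_mul_of_nonneg_left (hgK d) (abs_nonneg _)) (fun j => by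
        rw [← mul_sum, hg0, mul_zero]) (fun j => by
        rcases wt_cases (T N) (u N) (n N) h2 (a N) j with ⟨e1, e2⟩ | ⟨i, e1, e2, e3⟩
        · simp only [c]
          rw [e1, abs_zero, zero_mul, mul_zero]
          exact zero_le_one
        · simp only [c]
          rw [e2]
          exact h4 i) V (by
        have e4 : ∀ j : Fin (T N), (|c N j| * K) ^ 2 =
            K ^ 2 * ∑ i, if j ∈ win (T N) (u N i) (n N i) then a N i ^ 2 else 0 := by
          intro j
          rw [mul_pow, sq_abs, mul_comm]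
          congr 1
          rcases wt_cases (T N) (u N) (n N) h2 (a N) j with ⟨e1, e2⟩ | ⟨i, e1, e2, e3⟩
          · simp only [c]
            rw [e1, sum_eq_zero]
            · norm_num
            · intro i _; rw [if_neg (e2 i)]
          · simp only [c]
            rw [e2, sum_eq_single i]
            · rw [if_pos e1]
            · intro i' _ hne
              rw [if_neg (e3 i' hne)]
            · intro h; exact absurd (mem_univ i) h
        simp_rw [e4]
        rw [← mul_sum, sum_comm]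
        simp only [V]
        apply mul_le_mul_of_nonneg_left _ (sq_nonneg K)
        refine sum_le_sum fun i _ => ?_
        rw [← sum_filter, sum_const, filter_mem_eq_inter, univ_inter, win_card _ _ _ (h1 i), nsmul_eq_mul]
        simp only [a]
        have e5 : (0 : ℝ) < n N i := by exact_mod_cast h3 i
        rw [div_pow, Real.sq_sqrt e5.le]
        apply le_of_eq
        field_simp) (Err N) (hErr N) h5
    refine le_trans (le_of_eq ?_) h7
    rw [h6]
    congr 2
    congr 1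
    refine sum_congr rfl fun s _ => ?_
    rw [hlin N s, mul_comm]
  have := hcmp.add hlim
  simpa using this

lemma sum_win (T s u n : ℕ) (hs : s ≤ u) (hT : u + n ≤ s + T) (f : ℕ → ℝ) :
    ∑ j ∈ win T (u - s) n, f (s + ((j : ℕ) + 1)) = ∑ p ∈ Ioc u (u + n), f p := by
  refine sum_bij (fun j _ => s + ((j : ℕ) + 1)) ?_ ?_ ?_ ?_
  · intro j hj
    simp only [win, mem_filter, mem_univ, true_and] at hj
    rw [mem_Ioc]; omega
  · intro a _ c _ h
    ext; omega
  · intro p hp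
    rw [mem_Ioc] at hp
    refine ⟨⟨p - s - 1, by omega⟩, ?_, ?_⟩
    · simp only [win, mem_filter, mem_univ, true_and]
      omega
    · simp only
      omega
  · intro j _
    rfl

/-- **The central limit theorem for the digits of `x m ^ θ`** -/
theorem clt : ∃ γ : ℝ, 0 < γ ∧ ∀ θ : ℝ, -1 ≤ θ → θ < 1 → θ ≠ 0 → ∀ x : ℝ, x ≠ 0 → ∀ δ : ℝ, 0 < δ →
    ∀ b : ℕ, 2 ≤ b → ∀ g : ℤ → ℝ, ∑ d ∈ range b, g d = 0 → ∑ d ∈ range b, g d ^ 2 = b →
    ∀ (ι : Type) [Fintype ι] [Nonempty ι] (u n : ℕ → ι → ℕ),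
    (∀ᶠ N : ℕ in atTop, ∀ i, (N : ℝ) ^ δ ≤ (b : ℝ) ^ (u N i) * (N : ℝ) ^ θ ∧
      ((u N i + n N i : ℕ) : ℝ) ≤ (Real.log N) ^ (1 + γ)) →
    (∀ᶠ N : ℕ in atTop, ∀ i i', i ≠ i' → u N i + n N i ≤ u N i' ∨ u N i' + n N i' ≤ u N i) →
    (∀ i, Tendsto (fun N => n N i) atTop atTop) → ∀ t : ι → ℝ,
    Tendsto (fun N : ℕ => (((Ioc N (2 * N)).filter fun m : ℕ => ∀ i,
      (∑ p ∈ Ioc (u N i) (u N i + n N i), g (⌊x * (m : ℝ) ^ θ * (b : ℝ) ^ p⌋ % (b : ℤ))) / √(n N i) ≤ t i).card : ℝ)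
        / N) atTop (𝓝 (∏ i, (ProbabilityTheory.gaussianReal 0 1).real (Set.Iic (t i)))) := by
  classical
  obtain ⟨γ₀, hγ0, hγ1, hkwi⟩ := kwi
  refine ⟨γ₀ / 2, by positivity, ?_⟩
  intro θ h1 h2 h3 x hx δ hδ b hb g hg0 hg1 ι _ _ u n hu hdis hn t
  obtain ⟨N₁, hN₁⟩ := hkwi θ h1 h2 h3 (δ / 2) (by positivity)
  have hb1 : 1 ≤ b := by omega
  have hb0 : (0 : ℝ) < b := by exact_mod_cast hb1
  have hbR1 : (1 : ℝ) ≤ b := by exact_mod_cast hb1
  have hx0 : 0 < |x| := abs_pos.2 hx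
  have hlogb : 0 ≤ Real.log b := Real.log_nonneg hbR1
  let s : ℕ → ℕ := fun N => univ.inf' univ_nonempty (u N)
  have hs1 : ∀ N i, s N ≤ u N i := fun N i => inf'_le _ (mem_univ i)
  have hs2 : ∀ N, ∃ i, s N = u N i := fun N => by
    obtain ⟨i, _, hi⟩ := exists_mem_eq_inf' univ_nonempty (u N)
    exact ⟨i, hi⟩
  let T : ℕ → ℕ := fun N => ⌊(Real.log N) ^ (1 + γ₀ / 2)⌋₊ - s N
  let z : ℕ → ℝ := fun N => x * (b : ℝ) ^ s N
  let X : ∀ N, ℕ → Fin (T N) → Fin b := fun N m' j => dgF b hb1 (z N * ((N + m' : ℕ) : ℝ) ^ θ) ((j : ℕ) + 1)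
  let S : ℕ → Finset ℕ := fun N => Ioc 0 (max N 1)
  have hSc : ∀ N : ℕ, 1 ≤ N → S N = Ioc 0 N := by
    intro N hN
    simp only [S]
    rw [max_eq_left hN]
  have hS : ∀ N, (S N).Nonempty := fun N => ⟨1, by simp only [S]; rw [mem_Ioc]; omega⟩
  let k : ℕ → ℕ := fun N => ⌊(Real.log N) ^ (1 / 2 : ℝ) / 2⌋₊
  let Err : ℕ → ℝ := fun N => N * Real.exp (-(Real.log N) ^ (3 / 4 : ℝ))
  have hloglim : Tendsto (fun N : ℕ => Real.log (N : ℝ)) atTop atTop :=
    Real.tendsto_log_atTop.comp tendsto_natCast_atTop_atTop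
  have hk : Tendsto k atTop atTop := by
    have e1 : Tendsto (fun N : ℕ => (Real.log (N : ℝ)) ^ (1 / 2 : ℝ) / 2) atTop atTop :=
      ((tendsto_rpow_atTop (by norm_num : (0 : ℝ) < 1 / 2)).comp hloglim).atTop_div_const (by norm_num)
    exact tendsto_nat_floor_atTop.comp e1
  have hTev : ∀ᶠ N : ℕ in atTop, ∀ i, u N i + n N i ≤ s N + T N ∧ (u N i - s N) + n N i ≤ T N := by
    filter_upwards [hu] with N hN i
    have e1 := (hN i).2
    have e2 : u N i + n N i ≤ ⌊(Real.log N) ^ (1 + γ₀ / 2)⌋₊ := Nat.le_floor e1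
    have e3 := hs1 N i
    simp only [T]
    omega
  have hdis' : ∀ᶠ N : ℕ in atTop, ∀ i i', i ≠ i' → (u N i - s N) + n N i ≤ u N i' - s N ∨
      (u N i' - s N) + n N i' ≤ u N i - s N := by
    filter_upwards [hdis] with N hN i i' hne
    have e3 := hs1 N i
    have e4 := hs1 N i'
    rcases hN i i' hne with e | e
    · left; omega
    · right; omega
  -- the function on `Fin b`
  have hG0 : ∑ d : Fin b, g ((d : ℕ) : ℤ) = 0 := by
    rw [← hg0, ← Fin.sum_univ_eq_sum_range (fun d => g (d : ℤ))]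
  have hG1 : ∑ d : Fin b, g ((d : ℕ) : ℤ) ^ 2 = b := by
    rw [← hg1, ← Fin.sum_univ_eq_sum_range (fun d => g (d : ℤ) ^ 2)]
  -- the pattern bound
  have hpat : ∀ᶠ N : ℕ in atTop, ∀ I : Finset (Fin (T N)), I.card ≤ 2 * k N → ∀ w : Fin (T N) → Fin b,
      |(((S N).filter fun m' => ∀ i ∈ I, X N m' i = w i).card : ℝ) - (S N).card / (b : ℝ) ^ I.card| ≤ Err N := by
    have ev1 : ∀ᶠ N : ℕ in atTop, 1 ≤ Real.log (N : ℝ) := hloglim.eventually_ge_atTop 1
    have ev2 : ∀ᶠ N : ℕ in atTop, (abs (Real.log |x|)) + 1 + Real.log b ≤ (Real.log (N : ℝ)) ^ (γ₀ / 2) := by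
      exact ((tendsto_rpow_atTop (by positivity : 0 < γ₀ / 2)).comp hloglim).eventually_ge_atTop _
    have ev3 : ∀ᶠ N : ℕ in atTop, -Real.log |x| * (2 / δ) ≤ Real.log (N : ℝ) := hloglim.eventually_ge_atTop _
    filter_upwards [eventually_ge_atTop N₁, eventually_ge_atTop 1, ev1, ev2, ev3, hu] with N e1 e2 e3 e4 e5 e6
    intro I hI w
    have hN0 : (0 : ℝ) < N := by exact_mod_cast e2
    obtain ⟨y, hy⟩ : ∃ y : ℝ, y = Real.log N := ⟨_, rfl⟩
    rw [← hy] at e3 e4 e5
    have hy0 : 0 < y := by linarith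
    have hIc : (I.card : ℝ) ≤ (Real.log N) ^ (3 / 4 : ℝ) := by
      have f1 : (I.card : ℝ) ≤ 2 * (k N : ℝ) := by exact_mod_cast hI
      have f2 : (k N : ℝ) ≤ y ^ (1 / 2 : ℝ) / 2 := by
        simp only [k]
        rw [← hy]
        exact Nat.floor_le (by positivity)
      have f3 : y ^ (1 / 2 : ℝ) ≤ y ^ (3 / 4 : ℝ) := Real.rpow_le_rpow_of_exponent_le e3 (by norm_num)
      rw [← hy]
      linarith
    rw [hSc N e2, Nat.card_Ioc, Nat.sub_zero]
    have hzs : |z N| = |x| * (b : ℝ) ^ s N := by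
      simp only [z]
      rw [abs_mul, abs_of_pos (by positivity : (0 : ℝ) < (b : ℝ) ^ s N)]
    refine pat_fin b (T N) hb1 (Ioc 0 N) (fun m' => z N * ((N + m' : ℕ) : ℝ) ^ θ) _ (Err N) N ?_ I hIc w
    refine hN₁ N e1 N le_rfl (z N) b (T N) hb ?_ ?_
    · obtain ⟨i₀, hi₀⟩ := hs2 N
      have f1 := (e6 i₀).1
      rw [hzs, hi₀]
      have g1 : (N : ℝ) ^ δ = (N : ℝ) ^ (δ / 2) * (N : ℝ) ^ (δ / 2) := by
        rw [← Real.rpow_add hN0]; congr 1; ring
      have g2 : 1 / |x| ≤ (N : ℝ) ^ (δ / 2) := by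
        rw [Real.rpow_def_of_pos hN0, ← hy, ← Real.exp_log (show 0 < 1 / |x| by positivity)]
        apply Real.exp_le_exp.2
        rw [one_div, Real.log_inv]
        have g3 := mul_le_mul_of_nonneg_right e5 (by positivity : 0 ≤ δ / 2)
        have g4 : -Real.log |x| * (2 / δ) * (δ / 2) = -Real.log |x| := by field_simp
        rw [g4] at g3
        exact g3
      have g5 : 0 < (N : ℝ) ^ (δ / 2) := Real.rpow_pos_of_pos hN0 _
      rw [g1] at f1
      have g6 : (N : ℝ) ^ (δ / 2) * (1 / |x|) ≤ (b : ℝ) ^ (u N i₀) * (N : ℝ) ^ θ :=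
        (mul_le_mul_of_nonneg_left g2 g5.le).trans f1
      calc (N : ℝ) ^ (δ / 2) = (N : ℝ) ^ (δ / 2) * (1 / |x|) * |x| := by field_simp
        _ ≤ (b : ℝ) ^ (u N i₀) * (N : ℝ) ^ θ * |x| := by gcongr
        _ = _ := by ring
    · rw [hzs, ← hy]
      have f0 : s N ≤ ⌊y ^ (1 + γ₀ / 2)⌋₊ := by
        obtain ⟨i₀, hi₀⟩ := hs2 N
        have f1 := (e6 i₀).2
        rw [← hy] at f1
        have f2 : u N i₀ + n N i₀ ≤ ⌊y ^ (1 + γ₀ / 2)⌋₊ := Nat.le_floor f1
        omega
      have f1 : |x| * (b : ℝ) ^ s N * (N : ℝ) ^ θ * (b : ℝ) ^ T N =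
          |x| * (N : ℝ) ^ θ * (b : ℝ) ^ ⌊y ^ (1 + γ₀ / 2)⌋₊ := by
        have f2 : (b : ℝ) ^ ⌊y ^ (1 + γ₀ / 2)⌋₊ = (b : ℝ) ^ s N * (b : ℝ) ^ T N := by
          rw [← pow_add]
          congr 1
          simp only [T]
          rw [← hy]
          omega
        rw [f2]; ring
      rw [f1]
      have f3 : (b : ℝ) ^ ⌊y ^ (1 + γ₀ / 2)⌋₊ ≤ Real.exp (y ^ (1 + γ₀ / 2) * Real.log b) := by
        have g3 : (b : ℝ) ^ ⌊y ^ (1 + γ₀ / 2)⌋₊ = Real.exp ((⌊y ^ (1 + γ₀ / 2)⌋₊ : ℝ) * Real.log b) := by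
          rw [Real.exp_nat_mul, Real.exp_log hb0]
        rw [g3]
        apply Real.exp_le_exp.2
        exact mul_le_mul_of_nonneg_right (Nat.floor_le (by positivity)) hlogb
      have f4 : (N : ℝ) ^ θ ≤ Real.exp y := by
        rw [Real.rpow_def_of_pos hN0, ← hy]
        apply Real.exp_le_exp.2
        nlinarith
      have f5 : |x| ≤ Real.exp (abs (Real.log |x|)) := by
        conv_lhs => rw [← Real.exp_log hx0]
        exact Real.exp_le_exp.2 (le_abs_self _)
      calc |x| * (N : ℝ) ^ θ * (b : ℝ) ^ ⌊y ^ (1 + γ₀ / 2)⌋₊ ≤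
            Real.exp (abs (Real.log |x|)) * Real.exp y * Real.exp (y ^ (1 + γ₀ / 2) * Real.log b) := by gcongr
        _ = Real.exp ((abs (Real.log |x|)) + y + y ^ (1 + γ₀ / 2) * Real.log b) := by
            rw [Real.exp_add, Real.exp_add]
        _ ≤ Real.exp (y ^ (1 + γ₀)) := by
            apply Real.exp_le_exp.2
            have g1 : 1 ≤ y ^ (1 + γ₀ / 2) := Real.one_le_rpow e3 (by linarith)
            have g2 : y ≤ y ^ (1 + γ₀ / 2) := by
              calc y = y ^ (1 : ℝ) := (Real.rpow_one y).symm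
                _ ≤ _ := Real.rpow_le_rpow_of_exponent_le e3 (by linarith)
            have g3 : y ^ (1 + γ₀) = y ^ (γ₀ / 2) * y ^ (1 + γ₀ / 2) := by
              rw [← Real.rpow_add hy0]; congr 1; ring
            rw [g3]
            have g4 : ((abs (Real.log |x|)) + 1 + Real.log b) * y ^ (1 + γ₀ / 2) ≤ y ^ (γ₀ / 2) * y ^ (1 + γ₀ / 2) :=
              mul_le_mul_of_nonneg_right e4 (by positivity)
            have g5 : (abs (Real.log |x|)) ≤ (abs (Real.log |x|)) * y ^ (1 + γ₀ / 2) :=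
              le_mul_of_one_le_right (abs_nonneg _) g1
            nlinarith
  -- the error sum
  have hsum : Tendsto (fun N => ∑ j ∈ range (2 * k N + 1), ((T N : ℝ) * b) ^ j * Err N / (S N).card)
      atTop (𝓝 0) := by
    have ev1 : ∀ᶠ y : ℝ in atTop, (7 : ℝ) * y ^ (1 / 2 : ℝ) * Real.log y ≤ y ^ (3 / 4 : ℝ) / 2 := by
      have t1 := (isLittleO_log_rpow_atTop (show (0 : ℝ) < 1 / 4 by norm_num)).bound
        (show (0 : ℝ) < 1 / 14 by norm_num)
      filter_upwards [t1, eventually_ge_atTop 1] with y hy hy1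
      have hy0 : 0 < y := by linarith
      rw [Real.norm_of_nonneg (Real.log_nonneg hy1), Real.norm_of_nonneg (by positivity)] at hy
      have f2 : y ^ (1 / 2 : ℝ) * y ^ (1 / 4 : ℝ) = y ^ (3 / 4 : ℝ) := by
        rw [← Real.rpow_add hy0]; norm_num
      calc (7 : ℝ) * y ^ (1 / 2 : ℝ) * Real.log y ≤ 7 * y ^ (1 / 2 : ℝ) * (1 / 14 * y ^ (1 / 4 : ℝ)) := by
            gcongr
        _ = (y ^ (1 / 2 : ℝ) * y ^ (1 / 4 : ℝ)) / 2 := by ring
        _ = _ := by rw [f2]
    have ev2 : ∀ᶠ y : ℝ in atTop, (b : ℝ) * y ^ (2 : ℝ) ≤ y ^ (3 : ℝ) := ev_pow _ _ _ (by norm_num)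
    have ev3 : ∀ᶠ y : ℝ in atTop, Real.exp 1 ≤ y := eventually_ge_atTop _
    have hup : Tendsto (fun N : ℕ => Real.exp (-((Real.log (N : ℝ)) ^ (3 / 4 : ℝ) / 2))) atTop (𝓝 0) := by
      have e1 : Tendsto (fun N : ℕ => (Real.log (N : ℝ)) ^ (3 / 4 : ℝ) / 2) atTop atTop :=
        ((tendsto_rpow_atTop (by norm_num : (0 : ℝ) < 3 / 4)).comp hloglim).atTop_div_const (by norm_num)
      exact Real.tendsto_exp_neg_atTop_nhds_zero.comp e1
    refine squeeze_zero' (Eventually.of_forall fun N => ?_) ?_ hup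
    · refine sum_nonneg fun j _ => ?_
      simp only [Err]
      positivity
    · filter_upwards [hloglim.eventually ev1, hloglim.eventually ev2, hloglim.eventually ev3,
        eventually_ge_atTop 1] with N e1 e2 e3 e4
      have hN0 : (0 : ℝ) < N := by exact_mod_cast e4
      rw [hSc N e4, Nat.card_Ioc, Nat.sub_zero]
      obtain ⟨y, hy⟩ : ∃ y : ℝ, y = Real.log N := ⟨_, rfl⟩
      rw [← hy] at e1 e2 e3 ⊢
      have hy1 : 1 ≤ y := by
        have := Real.add_one_le_exp (1 : ℝ)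
        linarith
      have hy0 : 0 < y := by linarith
      have hlog1 : 1 ≤ Real.log y := by
        rw [Real.le_log_iff_exp_le hy0]; exact e3
      have f1 : (T N : ℝ) * b ≤ y ^ (3 : ℝ) := by
        have g1 : (T N : ℝ) ≤ y ^ (2 : ℝ) := by
          have g2 : (T N : ℝ) ≤ ⌊(Real.log N) ^ (1 + γ₀ / 2)⌋₊ := by
            exact_mod_cast Nat.sub_le _ _
          rw [← hy] at g2
          refine g2.trans ((Nat.floor_le (by positivity)).trans ?_)
          exact Real.rpow_le_rpow_of_exponent_le hy1 (by linarith)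
        calc (T N : ℝ) * b ≤ y ^ (2 : ℝ) * b := by gcongr
          _ = b * y ^ (2 : ℝ) := by ring
          _ ≤ _ := e2
      have f2 : 2 * (k N : ℝ) ≤ y ^ (1 / 2 : ℝ) := by
        have : (k N : ℝ) ≤ y ^ (1 / 2 : ℝ) / 2 := by
          simp only [k]
          rw [← hy]
          exact Nat.floor_le (by positivity)
        linarith
      have f3 : ∀ j ∈ range (2 * k N + 1), ((T N : ℝ) * b) ^ j * Err N / N ≤
          Real.exp (3 * y ^ (1 / 2 : ℝ) * Real.log y) * Real.exp (-y ^ (3 / 4 : ℝ)) := by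
        intro j hj
        rw [mem_range] at hj
        have g1 : ((T N : ℝ) * b) ^ j ≤ Real.exp (3 * y ^ (1 / 2 : ℝ) * Real.log y) := by
          have g2 : y ^ (3 : ℝ) = Real.exp (3 * Real.log y) := by
            rw [Real.rpow_def_of_pos hy0, mul_comm]
          calc ((T N : ℝ) * b) ^ j ≤ (y ^ (3 : ℝ)) ^ j := pow_le_pow_left₀ (by positivity) f1 j
            _ = Real.exp ((j : ℝ) * (3 * Real.log y)) := by rw [g2, ← Real.exp_nat_mul]
            _ ≤ _ := by
                apply Real.exp_le_exp.2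
                have g3 : (j : ℝ) ≤ y ^ (1 / 2 : ℝ) := by
                  have : (j : ℝ) ≤ 2 * (k N : ℝ) := by exact_mod_cast (by omega : j ≤ 2 * k N)
                  linarith
                have g4 : 0 ≤ 3 * Real.log y := by linarith
                calc (j : ℝ) * (3 * Real.log y) ≤ y ^ (1 / 2 : ℝ) * (3 * Real.log y) := by gcongr
                  _ = _ := by ring
        have g5 : ((T N : ℝ) * b) ^ j * Err N / N = ((T N : ℝ) * b) ^ j * Real.exp (-y ^ (3 / 4 : ℝ)) := by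
          simp only [Err]
          rw [← hy]
          field_simp
        rw [g5]
        exact mul_le_mul_of_nonneg_right g1 (Real.exp_pos _).le
      refine (sum_le_sum f3).trans ?_
      rw [sum_const, card_range, nsmul_eq_mul]
      have f4 : ((2 * k N + 1 : ℕ) : ℝ) ≤ Real.exp (y ^ (1 / 2 : ℝ)) := by
        push_cast
        have := Real.add_one_le_exp (y ^ (1 / 2 : ℝ))
        linarith
      calc ((2 * k N + 1 : ℕ) : ℝ) * (Real.exp (3 * y ^ (1 / 2 : ℝ) * Real.log y) * Real.exp (-y ^ (3 / 4 : ℝ))) ≤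
            Real.exp (y ^ (1 / 2 : ℝ)) * (Real.exp (3 * y ^ (1 / 2 : ℝ) * Real.log y) *
              Real.exp (-y ^ (3 / 4 : ℝ))) := by gcongr
        _ = Real.exp (y ^ (1 / 2 : ℝ) + (3 * y ^ (1 / 2 : ℝ) * Real.log y + -y ^ (3 / 4 : ℝ))) := by
            rw [Real.exp_add, Real.exp_add]
        _ ≤ _ := by
            apply Real.exp_le_exp.2
            have g1 : y ^ (1 / 2 : ℝ) ≤ y ^ (1 / 2 : ℝ) * Real.log y :=
              le_mul_of_one_le_right (by positivity) hlog1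
            have g2 : 0 ≤ y ^ (1 / 2 : ℝ) * Real.log y := by positivity
            linarith
  have hfin := clt_abs b hb1 (fun d : Fin b => g ((d : ℕ) : ℤ)) hG0 hG1 S hS T X
    (fun N i => u N i - s N) n (hTev.mono fun N h i => (h i).2) hdis' hn k hk Err
    (fun N => by simp only [Err]; positivity) hpat hsum t
  refine hfin.congr' ?_
  filter_upwards [hTev, eventually_ge_atTop 1] with N e1 e2
  rw [hSc N e2, Nat.card_Ioc, Nat.sub_zero]
  congr 2
  have hsumeq : ∀ m' i, ∑ j ∈ win (T N) (u N i - s N) (n N i), g (((X N m' j : Fin b) : ℕ) : ℤ) =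
      ∑ p ∈ Ioc (u N i) (u N i + n N i), g (⌊x * ((N + m' : ℕ) : ℝ) ^ θ * (b : ℝ) ^ p⌋ % (b : ℤ)) := by
    intro m' i
    rw [← sum_win (T N) (s N) (u N i) (n N i) (hs1 N i) (e1 i).1
      (fun p => g (⌊x * ((N + m' : ℕ) : ℝ) ^ θ * (b : ℝ) ^ p⌋ % (b : ℤ)))]
    refine sum_congr rfl fun j _ => ?_
    congr 1
    have f1 := (dgF_eq b hb1 (z N * ((N + m' : ℕ) : ℝ) ^ θ) ((j : ℕ) + 1) (X N m' j)).1 rfl
    rw [← f1]
    unfold dg
    congr 2
    simp only [z]
    rw [pow_add]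
    ring
  refine card_bij (fun m' _ => N + m') ?_ ?_ ?_
  · intro m' hm'
    rw [mem_filter, mem_Ioc] at hm' ⊢
    refine ⟨by omega, fun i => ?_⟩
    rw [← hsumeq m' i]
    exact hm'.2 i
  · intro a _ c _ h
    omega
  · intro m hm
    rw [mem_filter, mem_Ioc] at hm
    refine ⟨m - N, ?_, by omega⟩
    rw [mem_filter, mem_Ioc]
    refine ⟨by omega, fun i => ?_⟩
    have f1 := hsumeq (m - N) i
    rw [show N + (m - N) = m by omega] at f1
    rw [f1]
    exact hm.2 i

end Pool.Agent.Helper478.Kwise
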