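import Pool.Agent.Helper478_Kwise.G

/-!
# The central limit theorem for digits from bounds for exponential sums
-/

set_option autoImplicit false

namespace Pool.Agent.Helper478.Kwise

open Finset Filter Topology
open Pool.Agent.H469R2.NK (e norm_e e_add e_zero conj_e)
open Pool.Agent.Helper478.Surds (ev_pow)

/-- almost independence of the digits at few places -/
theorem kwi_abs : ∃ y₀ : ℝ, 1 ≤ y₀ ∧ ∀ y : ℝ, y₀ ≤ y → ∀ (S : Finset ℕ) (ν : ℕ → ℝ) (B T : ℕ), 2 ≤ B →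
    (∀ Z : ℤ, Z ≠ 0 → |(Z : ℝ)| ≤ Real.exp (2 * y ^ (9 / 10 : ℝ) + 1) * (B : ℝ) ^ T →
      ‖∑ n ∈ S, e (Z * ν n)‖ ≤ S.card * Real.exp (-(2 * y ^ (9 / 10 : ℝ)))) →
    ∀ I : Finset ℕ, I ⊆ Icc 1 T → (I.card : ℝ) ≤ y ^ (3 / 4 : ℝ) → ∀ w : ℕ → ℕ, (∀ i ∈ I, w i < B) →
      |((S.filter fun n : ℕ => ∀ i ∈ I, dg B (ν n) i = w i).card : ℝ) - S.card / (B : ℝ) ^ I.card| ≤
        S.card * Real.exp (-y ^ (3 / 4 : ℝ)) := by
  classical
  have ev3 : ∀ᶠ y : ℝ in atTop, 20 * y ^ (9 / 10 : ℝ) ≤ y ^ (1 : ℝ) := ev_pow _ _ _ (by norm_num)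
  have ev4 : ∀ᶠ y : ℝ in atTop, 4 * y ^ (4 / 5 : ℝ) ≤ y ^ (9 / 10 : ℝ) := ev_pow _ _ _ (by norm_num)
  have ev5 : ∀ᶠ y : ℝ in atTop, 1 * y ^ (3 / 4 : ℝ) ≤ y ^ (4 / 5 : ℝ) := ev_pow _ _ _ (by norm_num)
  have ev6 : ∀ᶠ y : ℝ in atTop, (2 * y ^ (3 / 4 : ℝ) + 6) * Real.log y ≤ y ^ (4 / 5 : ℝ) := by
    have t1 := (isLittleO_log_rpow_atTop (show (0 : ℝ) < 1 / 40 by norm_num)).bound
      (show (0 : ℝ) < 1 / 8 by norm_num)
    filter_upwards [t1, eventually_ge_atTop 1] with y hy hy1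
    have hy0 : 0 < y := by linarith
    rw [Real.norm_of_nonneg (Real.log_nonneg hy1), Real.norm_of_nonneg (by positivity)] at hy
    have f1 : 1 ≤ y ^ (3 / 4 : ℝ) := Real.one_le_rpow hy1 (by norm_num)
    have f2 : y ^ (3 / 4 : ℝ) * y ^ (1 / 40 : ℝ) ≤ y ^ (4 / 5 : ℝ) := by
      rw [← Real.rpow_add hy0]
      exact Real.rpow_le_rpow_of_exponent_le hy1 (by norm_num)
    calc (2 * y ^ (3 / 4 : ℝ) + 6) * Real.log y ≤ (8 * y ^ (3 / 4 : ℝ)) * (1 / 8 * y ^ (1 / 40 : ℝ)) := by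
          apply mul_le_mul (by linarith) hy (Real.log_nonneg hy1) (by positivity)
      _ = y ^ (3 / 4 : ℝ) * y ^ (1 / 40 : ℝ) := by ring
      _ ≤ _ := f2
  obtain ⟨y₀, hy₀⟩ := eventually_atTop.1 (((ev3.and ev4).and (ev5.and ev6)).and (eventually_ge_atTop (100 : ℝ)))
  refine ⟨max y₀ 1, le_max_right _ _, ?_⟩
  intro y hyy S ν B T hB hfreq I hI hIc w hw
  obtain ⟨⟨⟨q3, q4⟩, q5, q6⟩, q7⟩ := hy₀ y ((le_max_left _ _).trans hyy)
  have hy0 : 0 < y := by linarith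
  have hy1 : 1 ≤ y := by linarith
  have hB0 : (0 : ℝ) < B := by exact_mod_cast (by omega : 0 < B)
  rw [Real.rpow_one] at q3
  rw [one_mul] at q5
  obtain ⟨H, hH⟩ : ∃ H : ℝ, H = y ^ (9 / 10 : ℝ) := ⟨_, rfl⟩
  rw [← hH] at q3 q4 hfreq
  have hH0 : 0 < H := by rw [hH]; positivity
  have hH1 : 1 ≤ H := by rw [hH]; exact Real.one_le_rpow hy1 (by norm_num)
  -- the truncation
  obtain ⟨K, hK⟩ : ∃ K : ℕ, K = ⌈Real.exp (2 * H)⌉₊ := ⟨_, rfl⟩
  have hK1 : 1 ≤ K := by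
    rw [hK]; exact Nat.one_le_ceil_iff.2 (Real.exp_pos _)
  have hK0 : (0 : ℝ) < K := by exact_mod_cast hK1
  have hKge : Real.exp (2 * H) ≤ K := by rw [hK]; exact Nat.le_ceil _
  have hKle : (K : ℝ) ≤ Real.exp (2 * H + 1) := by
    have h4 := Nat.ceil_lt_add_one (Real.exp_pos (2 * H)).le
    rw [← hK] at h4
    have h5 : Real.exp (2 * H + 1) = Real.exp (2 * H) * Real.exp 1 := Real.exp_add _ _
    have h6 : 2 < Real.exp 1 := by have := Real.exp_one_gt_d9; linarith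
    have h7 : 1 ≤ Real.exp (2 * H) := Real.one_le_exp (by positivity)
    nlinarith
  have hlogK : Real.log K ≤ 2 * H + 1 := by
    rw [Real.log_le_iff_le_exp hK0]; exact hKle
  obtain ⟨ρ, hρ⟩ : ∃ ρ : ℝ, ρ = Real.exp (-H) := ⟨_, rfl⟩
  have hρ0 : 0 < ρ := by rw [hρ]; exact Real.exp_pos _
  have hρ1 : ρ ≤ 1 := by rw [hρ]; exact Real.exp_le_one_iff.2 (by linarith)
  have hKρ : 1 ≤ K * ρ ^ 2 := by
    have h4 : Real.exp (2 * H) * ρ ^ 2 = 1 := by
      rw [hρ, ← Real.exp_nat_mul, ← Real.exp_add]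
      push_cast
      rw [show 2 * H + 2 * -H = 0 by ring, Real.exp_zero]
    rw [← h4]; gcongr
  obtain ⟨M, hM⟩ : ∃ M : ℝ, M = (S.card : ℝ) := ⟨_, rfl⟩
  rw [← hM] at hfreq
  have hM0 : 0 ≤ M := by rw [hM]; exact Nat.cast_nonneg _
  obtain ⟨W, hW⟩ : ∃ W : ℝ, W = M * Real.exp (-(2 * H)) := ⟨_, rfl⟩
  have hW0 : 0 ≤ W := by rw [hW]; positivity
  have hmain := pattern B T K hB hK1 ρ hρ0 hρ1 hKρ S ν W hW0 (by
    intro Z hZ0 hZ
    rw [hW]
    apply hfreq Z hZ0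
    have : ((|Z| : ℤ) : ℝ) ≤ (((K * B ^ T : ℕ) : ℤ) : ℝ) := by exact_mod_cast hZ
    rw [Int.cast_abs] at this
    push_cast at this
    refine this.trans ?_
    gcongr) I hI w hw
  refine hmain.trans ?_
  rw [← hM]
  -- the error
  obtain ⟨A, hA⟩ : ∃ A : ℝ, A = 6 + 2 * Real.log K := ⟨_, rfl⟩
  rw [← hA]
  have hlogK0 : 0 ≤ Real.log K := Real.log_natCast_nonneg K
  have hA1 : 1 ≤ A := by rw [hA]; linarith
  have hAy : A ≤ y := by rw [hA]; linarith
  have hkA : 8 * ((I.card : ℝ) + 1) * A ^ (I.card + 1) ≤ Real.exp (H / 4) := by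
    have r1 : ((I.card : ℝ) + 1) ≤ y := by
      have : y ^ (3 / 4 : ℝ) ≤ H / 4 := by linarith
      linarith
    have r2 : 8 * ((I.card : ℝ) + 1) * A ^ (I.card + 1) ≤ y ^ (I.card + 3) := by
      calc 8 * ((I.card : ℝ) + 1) * A ^ (I.card + 1) ≤ y * y * y ^ (I.card + 1) := by
            gcongr
            linarith
        _ = y ^ (I.card + 3) := by ring
    refine r2.trans ?_
    have r3 : y ^ (I.card + 3) = Real.exp (((I.card + 3 : ℕ) : ℝ) * Real.log y) := by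
      rw [Real.exp_nat_mul, Real.exp_log hy0]
    rw [r3]
    apply Real.exp_le_exp.2
    push_cast
    have r4 : ((I.card : ℝ) + 3) * Real.log y ≤ (2 * y ^ (3 / 4 : ℝ) + 6) * Real.log y := by
      apply mul_le_mul_of_nonneg_right _ (Real.log_nonneg hy1)
      have : 0 ≤ y ^ (3 / 4 : ℝ) := by positivity
      linarith
    linarith
  have hWρ : W ≤ M * ρ := by
    rw [hW, hρ]
    apply mul_le_mul_of_nonneg_left _ hM0
    apply Real.exp_le_exp.2; linarith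
  have hAp : A ^ I.card ≤ A ^ (I.card + 1) := pow_le_pow_right₀ hA1 (by omega)
  calc 6 * (I.card : ℝ) * A ^ I.card * M * ρ + (2 * I.card + 1) * A ^ (I.card + 1) * W ≤
        6 * (I.card : ℝ) * A ^ (I.card + 1) * M * ρ + (2 * I.card + 1) * A ^ (I.card + 1) * (M * ρ) := by
        gcongr
    _ = (8 * (I.card : ℝ) + 1) * A ^ (I.card + 1) * (M * ρ) := by ring
    _ ≤ (8 * ((I.card : ℝ) + 1)) * A ^ (I.card + 1) * (M * ρ) := by
        gcongr
        linarith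
    _ ≤ Real.exp (H / 4) * (M * ρ) := by gcongr
    _ = M * Real.exp (H / 4 + -H) := by rw [Real.exp_add, hρ]; ring
    _ ≤ M * Real.exp (-y ^ (3 / 4 : ℝ)) := by
        apply mul_le_mul_of_nonneg_left _ hM0
        apply Real.exp_le_exp.2
        linarith

/-- **The central limit theorem for digits**, from bounds for exponential sums -/
theorem clt_gen (C γ γ' : ℝ) (hγ0 : 0 < γ) (hγ : γ < γ') (hγ1 : γ ≤ 1 / 2) (b : ℕ) (hb : 2 ≤ b)
    (g : ℤ → ℝ) (hg0 : ∑ d ∈ range b, g d = 0) (hg1 : ∑ d ∈ range b, g d ^ 2 = b)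
    (y : ℕ → ℝ) (hy : Tendsto y atTop atTop) (S : ℕ → Finset ℕ) (hS : ∀ N, (S N).Nonempty) (β : ℕ → ℕ → ℝ)
    (hexp : ∀ᶠ N in atTop, ∀ F : ℝ, Real.exp (C * y N) ≤ |F| → |F| ≤ Real.exp ((y N) ^ (1 + γ')) →
      ‖∑ m ∈ S N, e (F * β N m)‖ ≤ (S N).card * Real.exp (-(2 * (y N) ^ (9 / 10 : ℝ))))
    (ι : Type) [Fintype ι] [Nonempty ι] (u n : ℕ → ι → ℕ)
    (hu : ∀ᶠ N in atTop, ∀ i, C * y N ≤ u N i * Real.log b ∧
      ((u N i + n N i : ℕ) : ℝ) * Real.log b ≤ (y N) ^ (1 + γ))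
    (hdis : ∀ᶠ N : ℕ in atTop, ∀ i i', i ≠ i' → u N i + n N i ≤ u N i' ∨ u N i' + n N i' ≤ u N i)
    (hn : ∀ i, Tendsto (fun N => n N i) atTop atTop) (t : ι → ℝ) :
    Tendsto (fun N : ℕ => (((S N).filter fun m : ℕ => ∀ i,
      (∑ p ∈ Ioc (u N i) (u N i + n N i), g (⌊β N m * (b : ℝ) ^ p⌋ % (b : ℤ))) / √(n N i) ≤ t i).card : ℝ)
        / (S N).card) atTop (𝓝 (∏ i, (ProbabilityTheory.gaussianReal 0 1).real (Set.Iic (t i)))) := by
  classical
  obtain ⟨y₀, hy₀1, hkwi⟩ := kwi_abs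
  have hb1 : 1 ≤ b := by omega
  have hb0 : (0 : ℝ) < b := by exact_mod_cast hb1
  have hbR1 : (1 : ℝ) < b := by exact_mod_cast (by omega : 1 < b)
  have hlogb : 0 < Real.log b := Real.log_pos hbR1
  let s : ℕ → ℕ := fun N => univ.inf' univ_nonempty (u N)
  have hs1 : ∀ N i, s N ≤ u N i := fun N i => inf'_le _ (mem_univ i)
  have hs2 : ∀ N, ∃ i, s N = u N i := fun N => by
    obtain ⟨i, _, hi⟩ := exists_mem_eq_inf' univ_nonempty (u N)
    exact ⟨i, hi⟩
  let T : ℕ → ℕ := fun N => ⌊(y N) ^ (1 + γ) / Real.log b⌋₊ - s N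
  let X : ∀ N, ℕ → Fin (T N) → Fin b := fun N m j => dgF b hb1 (β N m * (b : ℝ) ^ s N) ((j : ℕ) + 1)
  let k : ℕ → ℕ := fun N => ⌊(y N) ^ (1 / 2 : ℝ) / 2⌋₊
  let Err : ℕ → ℝ := fun N => (S N).card * Real.exp (-(y N) ^ (3 / 4 : ℝ))
  have hk : Tendsto k atTop atTop := by
    have e1 : Tendsto (fun N : ℕ => (y N) ^ (1 / 2 : ℝ) / 2) atTop atTop :=
      ((tendsto_rpow_atTop (by norm_num : (0 : ℝ) < 1 / 2)).comp hy).atTop_div_const (by norm_num)
    exact tendsto_nat_floor_atTop.comp e1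
  have hTev : ∀ᶠ N : ℕ in atTop, ∀ i, u N i + n N i ≤ s N + T N ∧ (u N i - s N) + n N i ≤ T N := by
    filter_upwards [hu] with N hN i
    have e1 := (hN i).2
    have e2 : u N i + n N i ≤ ⌊(y N) ^ (1 + γ) / Real.log b⌋₊ := by
      apply Nat.le_floor
      rw [le_div_iff₀ hlogb]
      exact e1
    have e3 := hs1 N i
    simp only [T]
    omega
  have hdis' : ∀ᶠ N : ℕ in atTop, ∀ i i', i ≠ i' → (u N i - s N) + n N i ≤ u N i' - s N ∨
      (u N i' - s N) + n N i' ≤ u N i - s N := by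
    filter_upwards [hdis] with N hN i i' hne
    have e3 := hs1 N i
    have e4 := hs1 N i'
    rcases hN i i' hne with e | e
    · left; omega
    · right; omega
  have hG0 : ∑ d : Fin b, g ((d : ℕ) : ℤ) = 0 := by
    rw [← hg0, ← Fin.sum_univ_eq_sum_range (fun d => g (d : ℤ))]
  have hG1 : ∑ d : Fin b, g ((d : ℕ) : ℤ) ^ 2 = b := by
    rw [← hg1, ← Fin.sum_univ_eq_sum_range (fun d => g (d : ℤ) ^ 2)]
  -- the pattern bound
  have hpat : ∀ᶠ N : ℕ in atTop, ∀ I : Finset (Fin (T N)), I.card ≤ 2 * k N → ∀ w : Fin (T N) → Fin b,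
      |(((S N).filter fun m' => ∀ i ∈ I, X N m' i = w i).card : ℝ) - (S N).card / (b : ℝ) ^ I.card| ≤ Err N := by
    have ev1 : ∀ᶠ z : ℝ in atTop, 3 * z ^ (9 / 10 : ℝ) ≤ z ^ (1 : ℝ) := ev_pow _ _ _ (by norm_num)
    have ev2 : ∀ᶠ z : ℝ in atTop, 3 * z ^ (1 + γ) ≤ z ^ (1 + γ') := ev_pow _ _ _ (by linarith)
    filter_upwards [hexp, hu, hy.eventually_ge_atTop y₀, hy.eventually ev1, hy.eventually ev2] with
      N e1 e2 e3 e4 e5
    intro I hI w
    obtain ⟨z, hz⟩ : ∃ z : ℝ, z = y N := ⟨_, rfl⟩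
    rw [← hz] at e3 e4 e5
    have hz1 : 1 ≤ z := hy₀1.trans e3
    have hz0 : 0 < z := by linarith
    rw [Real.rpow_one] at e4
    have hIc : (I.card : ℝ) ≤ z ^ (3 / 4 : ℝ) := by
      have f1 : (I.card : ℝ) ≤ 2 * (k N : ℝ) := by exact_mod_cast hI
      have f2 : (k N : ℝ) ≤ z ^ (1 / 2 : ℝ) / 2 := by
        simp only [k]
        rw [← hz]
        exact Nat.floor_le (by positivity)
      have f3 : z ^ (1 / 2 : ℝ) ≤ z ^ (3 / 4 : ℝ) := Real.rpow_le_rpow_of_exponent_le hz1 (by norm_num)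
      linarith
    refine pat_fin b (T N) hb1 (S N) (fun m' => β N m' * (b : ℝ) ^ s N) _ (Err N) (S N).card ?_ I hIc w
    have hErr : Err N = (S N).card * Real.exp (-z ^ (3 / 4 : ℝ)) := by simp only [Err]; rw [← hz]
    rw [hErr]
    refine hkwi z e3 (S N) (fun m' => β N m' * (b : ℝ) ^ s N) b (T N) hb ?_
    intro Z hZ0 hZ
    have hZ1 : (1 : ℝ) ≤ |(Z : ℝ)| := by exact_mod_cast Int.one_le_abs hZ0
    have f1 : ∀ m', (Z : ℝ) * (β N m' * (b : ℝ) ^ s N) = ((Z : ℝ) * (b : ℝ) ^ s N) * β N m' := by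
      intro m'; ring
    simp_rw [f1]
    rw [hz]
    have hbs : (0 : ℝ) < (b : ℝ) ^ s N := by positivity
    have fb : ∀ a : ℕ, (b : ℝ) ^ a = Real.exp (a * Real.log b) := by
      intro a; rw [Real.exp_nat_mul, Real.exp_log hb0]
    apply e1
    · rw [abs_mul, abs_of_pos hbs]
      obtain ⟨i₀, hi₀⟩ := hs2 N
      have f2 := (e2 i₀).1
      calc Real.exp (C * y N) ≤ (b : ℝ) ^ s N := by
            rw [fb, hi₀]
            exact Real.exp_le_exp.2 f2
        _ ≤ _ := le_mul_of_one_le_left hbs.le hZ1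
    · rw [abs_mul, abs_of_pos hbs]
      have f0 : s N ≤ ⌊z ^ (1 + γ) / Real.log b⌋₊ := by
        obtain ⟨i₀, hi₀⟩ := hs2 N
        have f2 := (e2 i₀).2
        rw [← hz] at f2
        rw [hi₀]
        apply Nat.le_floor
        rw [le_div_iff₀ hlogb]
        refine le_trans ?_ f2
        apply mul_le_mul_of_nonneg_right _ hlogb.le
        exact_mod_cast Nat.le_add_right _ _
      have f3 : (b : ℝ) ^ T N * (b : ℝ) ^ s N ≤ Real.exp (z ^ (1 + γ)) := by
        rw [← pow_add]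
        have f4 : T N + s N = ⌊z ^ (1 + γ) / Real.log b⌋₊ := by
          simp only [T]
          rw [← hz]
          omega
        rw [f4, fb]
        apply Real.exp_le_exp.2
        have f5 := Nat.floor_le (show 0 ≤ z ^ (1 + γ) / Real.log b by positivity)
        rw [le_div_iff₀ hlogb] at f5
        exact f5
      calc |(Z : ℝ)| * (b : ℝ) ^ s N ≤ (Real.exp (2 * z ^ (9 / 10 : ℝ) + 1) * (b : ℝ) ^ T N) * (b : ℝ) ^ s N :=
            mul_le_mul_of_nonneg_right hZ hbs.le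
        _ = Real.exp (2 * z ^ (9 / 10 : ℝ) + 1) * ((b : ℝ) ^ T N * (b : ℝ) ^ s N) := by ring
        _ ≤ Real.exp (2 * z ^ (9 / 10 : ℝ) + 1) * Real.exp (z ^ (1 + γ)) := by gcongr
        _ = Real.exp (2 * z ^ (9 / 10 : ℝ) + 1 + z ^ (1 + γ)) := (Real.exp_add _ _).symm
        _ ≤ Real.exp ((y N) ^ (1 + γ')) := by
            rw [← hz]
            apply Real.exp_le_exp.2
            have f6 : z ≤ z ^ (1 + γ) := by
              calc z = z ^ (1 : ℝ) := (Real.rpow_one z).symm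
                _ ≤ _ := Real.rpow_le_rpow_of_exponent_le hz1 (by linarith)
            linarith
  -- the error sum
  have hsum : Tendsto (fun N => ∑ j ∈ range (2 * k N + 1), ((T N : ℝ) * b) ^ j * Err N / (S N).card)
      atTop (𝓝 0) := by
    have ev1 : ∀ᶠ z : ℝ in atTop, (7 : ℝ) * z ^ (1 / 2 : ℝ) * Real.log z ≤ z ^ (3 / 4 : ℝ) / 2 := by
      have t1 := (isLittleO_log_rpow_atTop (show (0 : ℝ) < 1 / 4 by norm_num)).bound
        (show (0 : ℝ) < 1 / 14 by norm_num)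
      filter_upwards [t1, eventually_ge_atTop 1] with z hz hz1
      have hz0 : 0 < z := by linarith
      rw [Real.norm_of_nonneg (Real.log_nonneg hz1), Real.norm_of_nonneg (by positivity)] at hz
      have f2 : z ^ (1 / 2 : ℝ) * z ^ (1 / 4 : ℝ) = z ^ (3 / 4 : ℝ) := by
        rw [← Real.rpow_add hz0]; norm_num
      calc (7 : ℝ) * z ^ (1 / 2 : ℝ) * Real.log z ≤ 7 * z ^ (1 / 2 : ℝ) * (1 / 14 * z ^ (1 / 4 : ℝ)) := by
            gcongr
        _ = (z ^ (1 / 2 : ℝ) * z ^ (1 / 4 : ℝ)) / 2 := by ring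
        _ = _ := by rw [f2]
    have ev2 : ∀ᶠ z : ℝ in atTop, ((b : ℝ) / Real.log b) * z ^ (2 : ℝ) ≤ z ^ (3 : ℝ) := ev_pow _ _ _ (by norm_num)
    have ev3 : ∀ᶠ z : ℝ in atTop, Real.exp 1 ≤ z := eventually_ge_atTop _
    have hup : Tendsto (fun N : ℕ => Real.exp (-((y N) ^ (3 / 4 : ℝ) / 2))) atTop (𝓝 0) := by
      have e1 : Tendsto (fun N : ℕ => (y N) ^ (3 / 4 : ℝ) / 2) atTop atTop :=
        ((tendsto_rpow_atTop (by norm_num : (0 : ℝ) < 3 / 4)).comp hy).atTop_div_const (by norm_num)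
      exact Real.tendsto_exp_neg_atTop_nhds_zero.comp e1
    refine squeeze_zero' (Eventually.of_forall fun N => ?_) ?_ hup
    · refine sum_nonneg fun j _ => ?_
      simp only [Err]
      positivity
    · filter_upwards [hy.eventually ev1, hy.eventually ev2, hy.eventually ev3] with N e1 e2 e3
      have hSN : (0 : ℝ) < (S N).card := by exact_mod_cast (hS N).card_pos
      obtain ⟨z, hz⟩ : ∃ z : ℝ, z = y N := ⟨_, rfl⟩
      rw [← hz] at e1 e2 e3 ⊢
      have hz1 : 1 ≤ z := by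
        have := Real.add_one_le_exp (1 : ℝ)
        linarith
      have hz0 : 0 < z := by linarith
      have hlog1 : 1 ≤ Real.log z := by
        rw [Real.le_log_iff_exp_le hz0]; exact e3
      have f1 : (T N : ℝ) * b ≤ z ^ (3 : ℝ) := by
        have g1 : (T N : ℝ) ≤ z ^ (2 : ℝ) / Real.log b := by
          have g2 : (T N : ℝ) ≤ ⌊(y N) ^ (1 + γ) / Real.log b⌋₊ := by
            exact_mod_cast Nat.sub_le _ _
          rw [← hz] at g2
          refine g2.trans ((Nat.floor_le (by positivity)).trans ?_)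
          apply div_le_div_of_nonneg_right _ hlogb.le
          exact Real.rpow_le_rpow_of_exponent_le hz1 (by linarith)
        calc (T N : ℝ) * b ≤ z ^ (2 : ℝ) / Real.log b * b := by gcongr
          _ = (b / Real.log b) * z ^ (2 : ℝ) := by ring
          _ ≤ _ := e2
      have f2 : 2 * (k N : ℝ) ≤ z ^ (1 / 2 : ℝ) := by
        have : (k N : ℝ) ≤ z ^ (1 / 2 : ℝ) / 2 := by
          simp only [k]
          rw [← hz]
          exact Nat.floor_le (by positivity)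
        linarith
      have f3 : ∀ j ∈ range (2 * k N + 1), ((T N : ℝ) * b) ^ j * Err N / (S N).card ≤
          Real.exp (3 * z ^ (1 / 2 : ℝ) * Real.log z) * Real.exp (-z ^ (3 / 4 : ℝ)) := by
        intro j hj
        rw [mem_range] at hj
        have g1 : ((T N : ℝ) * b) ^ j ≤ Real.exp (3 * z ^ (1 / 2 : ℝ) * Real.log z) := by
          have g2 : z ^ (3 : ℝ) = Real.exp (3 * Real.log z) := by
            rw [Real.rpow_def_of_pos hz0, mul_comm]
          calc ((T N : ℝ) * b) ^ j ≤ (z ^ (3 : ℝ)) ^ j := pow_le_pow_left₀ (by positivity) f1 j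
            _ = Real.exp ((j : ℝ) * (3 * Real.log z)) := by rw [g2, ← Real.exp_nat_mul]
            _ ≤ _ := by
                apply Real.exp_le_exp.2
                have g3 : (j : ℝ) ≤ z ^ (1 / 2 : ℝ) := by
                  have : (j : ℝ) ≤ 2 * (k N : ℝ) := by exact_mod_cast (by omega : j ≤ 2 * k N)
                  linarith
                have g4 : 0 ≤ 3 * Real.log z := by linarith
                calc (j : ℝ) * (3 * Real.log z) ≤ z ^ (1 / 2 : ℝ) * (3 * Real.log z) := by gcongr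
                  _ = _ := by ring
        have g5 : ((T N : ℝ) * b) ^ j * Err N / (S N).card = ((T N : ℝ) * b) ^ j * Real.exp (-z ^ (3 / 4 : ℝ)) := by
          simp only [Err]
          rw [← hz]
          field_simp
        rw [g5]
        exact mul_le_mul_of_nonneg_right g1 (Real.exp_pos _).le
      refine (sum_le_sum f3).trans ?_
      rw [sum_const, card_range, nsmul_eq_mul]
      have f4 : ((2 * k N + 1 : ℕ) : ℝ) ≤ Real.exp (z ^ (1 / 2 : ℝ)) := by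
        push_cast
        have := Real.add_one_le_exp (z ^ (1 / 2 : ℝ))
        linarith
      calc ((2 * k N + 1 : ℕ) : ℝ) * (Real.exp (3 * z ^ (1 / 2 : ℝ) * Real.log z) * Real.exp (-z ^ (3 / 4 : ℝ))) ≤
            Real.exp (z ^ (1 / 2 : ℝ)) * (Real.exp (3 * z ^ (1 / 2 : ℝ) * Real.log z) *
              Real.exp (-z ^ (3 / 4 : ℝ))) := by gcongr
        _ = Real.exp (z ^ (1 / 2 : ℝ) + (3 * z ^ (1 / 2 : ℝ) * Real.log z + -z ^ (3 / 4 : ℝ))) := by
            rw [Real.exp_add, Real.exp_add]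
        _ ≤ _ := by
            apply Real.exp_le_exp.2
            have g1 : z ^ (1 / 2 : ℝ) ≤ z ^ (1 / 2 : ℝ) * Real.log z :=
              le_mul_of_one_le_right (by positivity) hlog1
            have g2 : 0 ≤ z ^ (1 / 2 : ℝ) * Real.log z := by positivity
            linarith
  have hfin := clt_abs b hb1 (fun d : Fin b => g ((d : ℕ) : ℤ)) hG0 hG1 S hS T X
    (fun N i => u N i - s N) n (hTev.mono fun N h i => (h i).2) hdis' hn k hk Err
    (fun N => by simp only [Err]; positivity) hpat hsum t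
  refine hfin.congr' ?_
  filter_upwards [hTev] with N e1
  congr 3
  have hsumeq : ∀ m' i, ∑ j ∈ win (T N) (u N i - s N) (n N i), g (((X N m' j : Fin b) : ℕ) : ℤ) =
      ∑ p ∈ Ioc (u N i) (u N i + n N i), g (⌊β N m' * (b : ℝ) ^ p⌋ % (b : ℤ)) := by
    intro m' i
    rw [← sum_win (T N) (s N) (u N i) (n N i) (hs1 N i) (e1 i).1
      (fun p => g (⌊β N m' * (b : ℝ) ^ p⌋ % (b : ℤ)))]
    refine sum_congr rfl fun j _ => ?_
    congr 1
    have f1 := (dgF_eq b hb1 (β N m' * (b : ℝ) ^ s N) ((j : ℕ) + 1) (X N m' j)).1 rfl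
    rw [← f1]
    unfold dg
    congr 2
    rw [pow_add]
    ring
  refine filter_congr fun m' _ => forall_congr' fun i => ?_
  rw [hsumeq m' i]

end Pool.Agent.Helper478.Kwise
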