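import Pool.Agent.Helper478_Kwise.H
import Pool.Agent.Helper478_Kwise.Dig
import Pool.Agent.Helper478_Short.Fin

/-!
# The central limit theorem for digit sums; perturbations
-/

set_option autoImplicit false

namespace Pool.Agent.Helper478.Kwise

open Finset Filter Topology
open Pool.Agent.H469R2.NK (e norm_e e_add e_zero conj_e)
open Pool.Agent.Helper478.Surds (ev_pow norm_sum_abs)
open Pool.Agent.Helper478.Dig (digit digitSum mean variance)
open Pool.Agent.Helper478.Short (short_bd)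

lemma variance_pos (b : ℕ) (hb : 2 ≤ b) (g : ℕ → ℝ) (hg : ∃ d < b, g d ≠ g 0) : 0 < variance b g := by
  unfold variance
  apply div_pos _ (by exact_mod_cast (by omega : 0 < b))
  by_contra hcon
  push Not at hcon
  have h0 : ∑ d ∈ Finset.range b, (g d - mean b g) ^ 2 = 0 :=
    le_antisymm hcon (Finset.sum_nonneg fun d _ => sq_nonneg _)
  rw [Finset.sum_eq_zero_iff_of_nonneg fun d _ => sq_nonneg _] at h0
  obtain ⟨d, hd, hne⟩ := hg
  apply hne
  have h1 := h0 d (Finset.mem_range.2 hd)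
  have h2 := h0 0 (Finset.mem_range.2 (by omega))
  rw [sq_eq_zero_iff] at h1 h2
  linarith

theorem clt_dig (C γ γ' : ℝ) (hγ0 : 0 < γ) (hγ : γ < γ') (hγ1 : γ ≤ 1 / 2) (b : ℕ) (hb : 2 ≤ b)
    (g : ℕ → ℝ) (hg : ∃ d < b, g d ≠ g 0)
    (y : ℕ → ℝ) (hy : Tendsto y atTop atTop) (S : ℕ → Finset ℕ) (hS : ∀ N, (S N).Nonempty) (β : ℕ → ℕ → ℝ)
    (hexp : ∀ᶠ N in atTop, ∀ F : ℝ, Real.exp (C * y N) ≤ |F| → |F| ≤ Real.exp ((y N) ^ (1 + γ')) →
      ‖∑ m ∈ S N, e (F * β N m)‖ ≤ (S N).card * Real.exp (-(2 * (y N) ^ (9 / 10 : ℝ))))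
    (r : ℕ) (hr : 1 ≤ r) (u L : ℕ → Fin r → ℕ)
    (hu : ∀ᶠ N in atTop, ∀ i, C * y N ≤ u N i * Real.log b ∧
      ((u N i + L N i : ℕ) : ℝ) * Real.log b ≤ (y N) ^ (1 + γ))
    (hdis : ∀ᶠ N : ℕ in atTop, ∀ i i', i ≠ i' → Disjoint (Set.Ioc (u N i) (u N i + L N i))
      (Set.Ioc (u N i') (u N i' + L N i')))
    (hL : ∀ i, Tendsto (fun N => L N i) atTop atTop) (t : Fin r → ℝ) :
    Tendsto (fun N : ℕ => (((S N).filter fun m : ℕ => ∀ i,
      (digitSum b g (β N m) (u N i) (L N i) - mean b g * L N i) / √(variance b g * L N i) ≤ t i).card : ℝ)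
        / (S N).card) atTop (𝓝 (∏ i, (ProbabilityTheory.gaussianReal 0 1).real (Set.Iic (t i)))) := by
  classical
  haveI : Nonempty (Fin r) := ⟨⟨0, hr⟩⟩
  have hb0 : (b : ℝ) ≠ 0 := by exact_mod_cast (by omega : b ≠ 0)
  have hL1 : ∀ᶠ N in atTop, ∀ i, 1 ≤ L N i := by
    rw [eventually_all]
    exact fun i => (hL i).eventually_ge_atTop 1
  obtain ⟨v, hv⟩ : ∃ v : ℝ, v = variance b g := ⟨_, rfl⟩
  have hv0 : 0 < v := by rw [hv]; exact variance_pos b hb g hg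
  obtain ⟨μ, hμ⟩ : ∃ μ : ℝ, μ = mean b g := ⟨_, rfl⟩
  have hsv : √v ≠ 0 := (Real.sqrt_pos.2 hv0).ne'
  have hm : ∑ d ∈ Finset.range b, g d = b * μ := by
    rw [hμ, mean]; field_simp
  have hvar : ∑ d ∈ Finset.range b, (g d - μ) ^ 2 = b * v := by
    rw [hv, variance, ← hμ]; field_simp
  have h2 := clt_gen C γ γ' hγ0 hγ hγ1 b hb (fun d => (g d.toNat - μ) / √v)
    (by
      have e1 : ∀ d ∈ Finset.range b, (g ((d : ℤ)).toNat - μ) / √v = (g d - μ) / √v := fun d _ => by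
        rw [Int.toNat_natCast]
      rw [Finset.sum_congr rfl e1, ← Finset.sum_div, Finset.sum_sub_distrib, hm]
      simp)
    (by
      have e1 : ∀ d ∈ Finset.range b, ((g ((d : ℤ)).toNat - μ) / √v) ^ 2 = (g d - μ) ^ 2 / v :=
        fun d _ => by
          rw [Int.toNat_natCast, div_pow, Real.sq_sqrt hv0.le]
      rw [Finset.sum_congr rfl e1, ← Finset.sum_div, hvar]
      field_simp) y hy S hS β hexp (Fin r) u L hu
    (by
      filter_upwards [hdis, hL1] with N hN hN1 i i' hne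
      have h3 := hN i i' hne
      rw [Set.disjoint_left] at h3
      by_contra hcon
      push Not at hcon
      have h4 := hN1 i
      have h5 := hN1 i'
      refine h3 (a := min (u N i + L N i) (u N i' + L N i')) ?_ ?_
      · rw [Set.mem_Ioc]; omega
      · rw [Set.mem_Ioc]; omega) hL t
  refine h2.congr' ?_
  filter_upwards [hL1] with N hN1
  congr 3
  ext m
  simp only [mem_filter]
  refine and_congr_right fun _ => forall_congr' fun i => ?_
  have hL0 : (0 : ℝ) < L N i := by exact_mod_cast hN1 i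
  have e2 : ∑ p ∈ Finset.Ioc (u N i) (u N i + L N i), (g (⌊β N m * (b : ℝ) ^ p⌋ % (b : ℤ)).toNat - μ) / √v =
      (digitSum b g (β N m) (u N i) (L N i) - μ * L N i) / √v := by
    rw [← Finset.sum_div, Finset.sum_sub_distrib, Finset.sum_const, Nat.card_Ioc, nsmul_eq_mul,
      Nat.add_sub_cancel_left]
    unfold digitSum digit
    rw [mul_comm μ]
  rw [e2, div_div, ← Real.sqrt_mul hv0.le, ← hv, ← hμ]

/-- exponential sums over `x (α + j / N) ^ θ` -/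
theorem pert_exp : ∃ γ : ℝ, 0 < γ ∧ γ ≤ 1 / 100 ∧ ∀ α x θ : ℝ, 0 < α → x ≠ 0 → -1 ≤ θ → θ < 1 → θ ≠ 0 →
    ∀ ρ : ℝ, 0 < ρ → ρ ≤ 1 → ∃ (C : ℝ) (N₀ : ℕ), 0 ≤ C ∧ ∀ N M : ℕ, N₀ ≤ N → (N : ℝ) ^ ρ ≤ M → (M : ℝ) ≤ α * N →
      ∀ F : ℝ, Real.exp (C * Real.log N) ≤ |F| → |F| ≤ Real.exp ((Real.log N) ^ (1 + γ)) →
        ‖∑ j ∈ Ioc 0 M, e (F * (x * (α + (j : ℝ) / N) ^ θ))‖ ≤
          M * Real.exp (-(2 * (Real.log N) ^ (9 / 10 : ℝ))) := by
  classical
  obtain ⟨γ, hγ0, hγ1, h⟩ := short_bd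
  refine ⟨γ / 2, by positivity, by linarith, ?_⟩
  intro α x θ hα hx h1 h2 h3 ρ hρ0 hρ1
  obtain ⟨N₁, hN₁⟩ := h θ h1 h2 h3 (ρ / 2) (by positivity) (by linarith)
  have hx0 : 0 < |x| := abs_pos.2 hx
  obtain ⟨c₁, hc₁⟩ : ∃ c : ℝ, c = min (α ^ θ) ((α + 1) ^ θ) := ⟨_, rfl⟩
  obtain ⟨c₂, hc₂⟩ : ∃ c : ℝ, c = max (α ^ θ) ((α + 1) ^ θ) := ⟨_, rfl⟩
  have hc₁0 : 0 < c₁ := by
    rw [hc₁]; exact lt_min (Real.rpow_pos_of_pos hα _) (Real.rpow_pos_of_pos (by linarith) _)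
  have hc₂0 : 0 < c₂ := lt_of_lt_of_le hc₁0 (by rw [hc₁, hc₂]; exact min_le_max)
  have hmono : ∀ t : ℝ, α ≤ t → t ≤ α + 1 → c₁ ≤ t ^ θ ∧ t ^ θ ≤ c₂ := by
    intro t ht1 ht2
    have ht0 : 0 < t := by linarith
    rcases le_total 0 θ with hθ | hθ
    · exact ⟨by rw [hc₁]; exact (min_le_left _ _).trans (Real.rpow_le_rpow hα.le ht1 hθ),
        by rw [hc₂]; exact (Real.rpow_le_rpow ht0.le ht2 hθ).trans (le_max_right _ _)⟩
    · exact ⟨by rw [hc₁]; exact (min_le_right _ _).trans (Real.rpow_le_rpow_of_nonpos ht0 ht2 hθ),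
        by rw [hc₂]; exact (Real.rpow_le_rpow_of_nonpos hα ht1 hθ).trans (le_max_left _ _)⟩
  have hlog : Tendsto (fun N : ℕ => Real.log N) atTop atTop :=
    Real.tendsto_log_atTop.comp tendsto_natCast_atTop_atTop
  have hid : Tendsto (fun N : ℕ => (N : ℝ)) atTop atTop := tendsto_natCast_atTop_atTop
  obtain ⟨A, hA⟩ : ∃ A : ℝ, A = |Real.log α| + |Real.log (α + 1)| + 1 := ⟨_, rfl⟩
  have hA1 : 1 ≤ A := by rw [hA]; linarith [abs_nonneg (Real.log α), abs_nonneg (Real.log (α + 1))]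
  obtain ⟨l₁, hl₁⟩ : ∃ l₁ : ℝ, l₁ = |Real.log (|x| * c₁)| := ⟨_, rfl⟩
  obtain ⟨l₂, hl₂⟩ : ∃ l₂ : ℝ, l₂ = |Real.log (|x| * c₂)| := ⟨_, rfl⟩
  have hl₁0 : 0 ≤ l₁ := by rw [hl₁]; exact abs_nonneg _
  have hl₂0 : 0 ≤ l₂ := by rw [hl₂]; exact abs_nonneg _
  have ev1 : ∀ᶠ y : ℝ in atTop, (8 : ℝ) * y ^ (1 + γ / 2) ≤ y ^ (1 + γ) := ev_pow _ _ _ (by linarith)
  have ev2 : ∀ᶠ y : ℝ in atTop, (2 : ℝ) * y ^ (9 / 10 : ℝ) ≤ y ^ (1 - 9 * γ) := ev_pow _ _ _ (by linarith)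
  have ev3 : ∀ᶠ y : ℝ in atTop, 4 * A + 100 ≤ y := eventually_ge_atTop _
  have ev4 : ∀ᶠ y : ℝ in atTop, 40 * A + l₁ + l₂ ≤ y := eventually_ge_atTop _
  have hev := hlog.eventually ((ev1.and ev2).and (ev3.and ev4))
  have ev7 : ∀ᶠ t : ℝ in atTop, (N₁ : ℝ) ≤ α * t := by
    filter_upwards [eventually_ge_atTop ((N₁ : ℝ) / α)] with t ht
    rw [div_le_iff₀ hα] at ht
    linarith
  have ev8 : ∀ᶠ t : ℝ in atTop, 1 ≤ t := eventually_ge_atTop _
  obtain ⟨N₀, hN₀⟩ := eventually_atTop.1 (hev.and ((hid.eventually (ev7.and ev8)).and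
    (eventually_ge_atTop 2)))
  refine ⟨41 / ρ, N₀, by positivity, ?_⟩
  intro N M hN hM1 hM2 F hF1 hF2
  obtain ⟨⟨⟨q1, q2⟩, q3, q4⟩, ⟨q6, q7⟩, q8⟩ := hN₀ N hN
  have hN0 : (0 : ℝ) < N := by exact_mod_cast (by omega : 0 < N)
  have hN1 : (1 : ℝ) ≤ N := by exact_mod_cast (by omega : 1 ≤ N)
  obtain ⟨N', hN'⟩ : ∃ N' : ℕ, N' = ⌈α * N⌉₊ := ⟨_, rfl⟩
  have hN'1 : α * N ≤ N' := by rw [hN']; exact Nat.le_ceil _
  have hN'2 : (N' : ℝ) < α * N + 1 := by rw [hN']; exact Nat.ceil_lt_add_one (by positivity)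
  have hNN₁ : N₁ ≤ N' := by
    have : (N₁ : ℝ) ≤ N' := by linarith
    exact_mod_cast this
  have hN'0 : (0 : ℝ) < N' := by
    have : (0 : ℝ) < α * N := by positivity
    linarith
  have hN'3 : (N' : ℝ) ≤ (α + 1) * N := by linarith
  -- logarithms
  obtain ⟨y, hy⟩ : ∃ y : ℝ, y = Real.log N := ⟨_, rfl⟩
  obtain ⟨y', hy'⟩ : ∃ y' : ℝ, y' = Real.log N' := ⟨_, rfl⟩
  rw [← hy] at q1 q2 q3 q4 hF1 hF2 ⊢
  have hy0 : 0 < y := by linarith
  have hyA1 : y - A ≤ y' := by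
    rw [hy, hy']
    have e1 : Real.log (α * N) = Real.log α + Real.log N := Real.log_mul hα.ne' hN0.ne'
    have e2 := Real.log_le_log (by positivity) hN'1
    rw [e1] at e2
    have e3 := neg_abs_le (Real.log α)
    have e4 := abs_nonneg (Real.log (α + 1))
    linarith
  have hyA2 : y' ≤ y + A := by
    rw [hy, hy']
    have e1 : Real.log ((α + 1) * N) = Real.log (α + 1) + Real.log N :=
      Real.log_mul (by linarith) hN0.ne'
    have e2 := Real.log_le_log hN'0 hN'3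
    rw [e1] at e2
    have e3 := le_abs_self (Real.log (α + 1))
    have e4 := abs_nonneg (Real.log α)
    linarith
  have hy'1 : y / 2 ≤ y' := by linarith
  have hy'2 : y' ≤ 2 * y := by linarith
  have hy'0 : 0 < y' := by linarith
  have hw1 : y ^ (9 / 10 : ℝ) ≤ y' ^ (1 - 9 * γ) := by
    have e1 : y ^ (1 - 9 * γ) ≤ 2 * y' ^ (1 - 9 * γ) := by
      calc y ^ (1 - 9 * γ) ≤ (2 * y') ^ (1 - 9 * γ) := Real.rpow_le_rpow hy0.le (by linarith) (by linarith)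
        _ = 2 ^ (1 - 9 * γ) * y' ^ (1 - 9 * γ) := Real.mul_rpow (by norm_num) hy'0.le
        _ ≤ 2 * y' ^ (1 - 9 * γ) := by
            apply mul_le_mul_of_nonneg_right _ (by positivity)
            calc (2 : ℝ) ^ (1 - 9 * γ) ≤ 2 ^ (1 : ℝ) :=
                  Real.rpow_le_rpow_of_exponent_le (by norm_num) (by linarith)
              _ = 2 := Real.rpow_one _
    linarith
  have hw2 : 2 * y ^ (1 + γ / 2) ≤ y' ^ (1 + γ) := by
    have e1 : y ^ (1 + γ) ≤ 4 * y' ^ (1 + γ) := by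
      calc y ^ (1 + γ) ≤ (2 * y') ^ (1 + γ) := Real.rpow_le_rpow hy0.le (by linarith) (by linarith)
        _ = 2 ^ (1 + γ) * y' ^ (1 + γ) := Real.mul_rpow (by norm_num) hy'0.le
        _ ≤ 4 * y' ^ (1 + γ) := by
            apply mul_le_mul_of_nonneg_right _ (by positivity)
            calc (2 : ℝ) ^ (1 + γ) ≤ 2 ^ (2 : ℝ) :=
                  Real.rpow_le_rpow_of_exponent_le (by norm_num) (by linarith)
              _ = 4 := by norm_num
    linarith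
  have hpow' : ∀ t : ℝ, (N' : ℝ) ^ t = Real.exp (y' * t) := fun t => by
    rw [Real.rpow_def_of_pos hN'0, hy']
  -- the parameters
  obtain ⟨s, hs⟩ : ∃ s : ℝ, s = N' - α * N := ⟨_, rfl⟩
  have hNθ : 0 < (N : ℝ) ^ (-θ) := Real.rpow_pos_of_pos hN0 _
  have hF0 : 0 < |F| := lt_of_lt_of_le (Real.exp_pos _) hF1
  obtain ⟨G, hG⟩ : ∃ G : ℝ, G = F * (x * (N : ℝ) ^ (-θ)) := ⟨_, rfl⟩
  have hGabs : |G| = |F| * (|x| * (N : ℝ) ^ (-θ)) := by
    rw [hG, abs_mul, abs_mul, abs_of_pos hNθ]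
  have hG0 : 0 < |G| := by rw [hGabs]; positivity
  have hxx : |G| * (N' : ℝ) ^ θ = |F| * (|x| * ((N' : ℝ) / N) ^ θ) := by
    rw [hGabs, Real.div_rpow hN'0.le hN0.le, Real.rpow_neg hN0.le]
    ring
  obtain ⟨hr1, hr2⟩ := hmono ((N' : ℝ) / N) (by rw [le_div_iff₀ hN0]; exact hN'1)
    (by rw [div_le_iff₀ hN0]; exact hN'3)
  have key := hN₁ N' M |G| s hNN₁ (by
      refine le_trans ?_ hM1
      rw [hpow', Real.rpow_def_of_pos hN0, ← hy]
      apply Real.exp_le_exp.2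
      have : y' * ρ ≤ 2 * y * ρ := mul_le_mul_of_nonneg_right hy'2 hρ0.le
      linarith) (by
      have : (M : ℝ) ≤ N' := hM2.trans hN'1
      exact_mod_cast this) (by rw [hs]; linarith) (by rw [hs]; linarith) hG0 (by
      rw [hxx, hpow']
      have e1 : Real.exp (-l₁) ≤ |x| * ((N' : ℝ) / N) ^ θ := by
        calc Real.exp (-l₁) ≤ Real.exp (Real.log (|x| * c₁)) := by
              apply Real.exp_le_exp.2
              rw [hl₁]
              linarith [neg_abs_le (Real.log (|x| * c₁))]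
          _ = |x| * c₁ := Real.exp_log (by positivity)
          _ ≤ _ := by gcongr
      calc Real.exp (y' * (20 / (ρ / 2))) ≤ Real.exp (41 / ρ * y) * Real.exp (-l₁) := by
            rw [← Real.exp_add]
            apply Real.exp_le_exp.2
            have e4 : y' * (20 / (ρ / 2)) = 40 * y' / ρ := by field_simp; norm_num
            have e5 : 41 / ρ * y + -l₁ = (41 * y - l₁ * ρ) / ρ := by field_simp; ring
            rw [e4, e5, div_le_div_iff_of_pos_right hρ0]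
            have e6 : l₁ * ρ ≤ l₁ * 1 := mul_le_mul_of_nonneg_left hρ1 hl₁0
            linarith
        _ ≤ |F| * (|x| * ((N' : ℝ) / N) ^ θ) := mul_le_mul hF1 e1 (Real.exp_pos _).le hF0.le) (by
      rw [hxx, ← hy']
      have e1 : |x| * ((N' : ℝ) / N) ^ θ ≤ Real.exp l₂ := by
        calc |x| * ((N' : ℝ) / N) ^ θ ≤ |x| * c₂ := by gcongr
          _ = Real.exp (Real.log (|x| * c₂)) := (Real.exp_log (by positivity)).symm
          _ ≤ _ := by
              apply Real.exp_le_exp.2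
              rw [hl₂]
              exact le_abs_self _
      calc |F| * (|x| * ((N' : ℝ) / N) ^ θ) ≤ Real.exp (y ^ (1 + γ / 2)) * Real.exp l₂ :=
            mul_le_mul hF2 e1 (by positivity) (Real.exp_pos _).le
        _ = Real.exp (y ^ (1 + γ / 2) + l₂) := (Real.exp_add _ _).symm
        _ ≤ Real.exp (y' ^ (1 + γ)) := by
            apply Real.exp_le_exp.2
            have e2 : y ≤ y ^ (1 + γ / 2) := by
              calc y = y ^ (1 : ℝ) := (Real.rpow_one y).symm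
                _ ≤ _ := Real.rpow_le_rpow_of_exponent_le (by linarith) (by linarith)
            linarith)
  rw [← hy'] at key
  have hpt : ∀ j : ℕ, F * (x * (α + (j : ℝ) / N) ^ θ) = G * ((N' : ℝ) + j - s) ^ θ := by
    intro j
    have e2 : (N' : ℝ) + j - s = N * (α + (j : ℝ) / N) := by
      rw [hs]; field_simp; ring
    rw [e2, Real.mul_rpow hN0.le (by positivity), hG, Real.rpow_neg hN0.le]
    have : (N : ℝ) ^ θ ≠ 0 := (Real.rpow_pos_of_pos hN0 _).ne'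
    field_simp
  simp_rw [hpt]
  rw [norm_sum_abs (Ioc 0 M) (fun j : ℕ => ((N' : ℝ) + j - s) ^ θ)]
  refine key.trans ?_
  apply mul_le_mul_of_nonneg_left _ (Nat.cast_nonneg _)
  apply Real.exp_le_exp.2
  linarith

end Pool.Agent.Helper478.Kwise
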